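import Pool.Agent.H1.PP.Seq
import Pool.Agent.H53.PPC.Final

/-!
# Module AE: failure almost everywhere

Modification of H53/PPC/Good.lean, AE.lean and Final.lean (copy them; `m`, `d`, `S`, `b`, `psi` are now those of Pool.Agent.H1.PP, classes `Slow`,
`Mult`). The lemmas `Fr`, `mem_Fr`, `Fr_card_le`, `cover`, `sum_inv_den_ge`, `pc`, `card_shift`, `distInt_fract_sub` and the `distInt` lemmas do not
depend on the sequence and may be used from H53 (`open Pool.Agent.H53.PPC (...)`; do not open the whole namespace). Replacements: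
`q ∣ m j` for `1 ≤ q ≤ S (j+1)` is `dvd_m_of_le`; `m_ge`, `b_le_S`, `S_succ_pos` are in Seq; `b_gt` is now `S j / psi j < b j` (stronger);
`psi_small` is now `511 psi j ≤ j` for `j ≥ 12000` (so use 12000 instead of 2000); `psi_pow_le`, `sq_le_S` as before.
-/

set_option autoImplicit false

namespace Pool.Agent.H1.PP.AEx

open Filter Topology Finset MeasureTheory
open Pool.Agent.H53.PPC (distInt HasPPC Fr mem_Fr Fr_card_le cover sum_inv_den_ge pc card_shift distInt_fract_sub
  distInt_le_abs_sub distInt_add_int distInt_natMul_le)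
open Pool.Agent.H1.PP

variable [Slow] [Mult]



/-- number of multiples used -/
def T (j : ℕ) : ℕ := 18 * psi j

/-- maximal denominator used -/
def Q (j : ℕ) : ℕ := b j / (2 * T j)

/-- radius -/
noncomputable def del (j : ℕ) : ℝ := 1 / ((S (j + 1) : ℝ) * T j)

lemma T_pos (j : ℕ) : 0 < T j := by unfold T; have := psi_pos j; omega

lemma two_TQ_le (j : ℕ) : 2 * T j * Q j ≤ b j := Nat.mul_div_le _ _

lemma del_pos (j : ℕ) : 0 < del j := by
  unfold del
  have h1 : (0 : ℝ) < S (j + 1) := by exact_mod_cast S_succ_pos j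
  have h2 : (0 : ℝ) < T j := by exact_mod_cast T_pos j
  positivity

lemma Q_le_S (j : ℕ) : Q j ≤ S (j + 1) := by
  refine le_trans ?_ (b_le_S j)
  unfold Q
  exact Nat.div_le_self _ _

lemma del_Q_le (j : ℕ) : del j * Q j ≤ 1 := by
  unfold del
  have h1 : (0 : ℝ) < S (j + 1) := by exact_mod_cast S_succ_pos j
  have h2 : (1 : ℝ) ≤ T j := by exact_mod_cast T_pos j
  have h3 : (Q j : ℝ) ≤ S (j + 1) := by exact_mod_cast Q_le_S j
  rw [one_div_mul_eq_div, div_le_one (by positivity)]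
  nlinarith

lemma del_le_one (j : ℕ) : del j ≤ 1 := by
  unfold del
  have h1 : (1 : ℝ) ≤ S (j + 1) := by exact_mod_cast S_succ_pos j
  have h2 : (1 : ℝ) ≤ T j := by exact_mod_cast T_pos j
  rw [div_le_one (by positivity)]
  nlinarith

/-- good digits -/
noncomputable def A (j : ℕ) : Finset ℕ := by
  classical
  exact (Finset.range (m j)).filter (fun e => ∃ q : ℕ, 1 ≤ q ∧ q ≤ Q j ∧
    ∀ x : ℝ, (e : ℝ) / m j ≤ x → x < ((e : ℝ) + 1) / m j → distInt (q * x) < del j)

lemma mem_A {j e : ℕ} : e ∈ A j ↔ e < m j ∧ ∃ q : ℕ, 1 ≤ q ∧ q ≤ Q j ∧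
    ∀ x : ℝ, (e : ℝ) / m j ≤ x → x < ((e : ℝ) + 1) / m j → distInt (q * x) < del j := by
  classical
  unfold A
  rw [Finset.mem_filter, Finset.mem_range]

/-- number of cells to the right of a fraction with denominator `q` -/
noncomputable def kk (j q : ℕ) : ℕ := ⌊(m j : ℝ) * del j / q⌋₊

lemma frac_cell {j p q i : ℕ} (hq : 1 ≤ q) (hqm : q ∣ m j) (hi : i < kk j q) :
    ((p * (m j / q) + i : ℕ) : ℝ) / m j = (p : ℝ) / q + i / m j ∧
    ((i : ℝ) + 1) / m j ≤ del j / q := by
  have hm : (0 : ℝ) < m j := by exact_mod_cast m_pos j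
  have hqr : (0 : ℝ) < q := by exact_mod_cast hq
  constructor
  · push_cast
    rw [Nat.cast_div hqm hqr.ne']
    field_simp
  · have h1 : ((i + 1 : ℕ) : ℝ) ≤ (m j : ℝ) * del j / q := by
      refine le_trans ?_ (Nat.floor_le (by have := del_pos j; positivity))
      exact_mod_cast hi
    rw [div_le_iff₀ hm]
    push_cast at h1
    calc (i : ℝ) + 1 ≤ (m j : ℝ) * del j / q := h1
      _ = del j / q * m j := by ring

lemma cell_mem_A {j p q i : ℕ} (hq : 1 ≤ q) (hqQ : q ≤ Q j) (hpq : p < q) (hi : i < kk j q) :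
    p * (m j / q) + i ∈ A j := by
  have hm : (0 : ℝ) < m j := by exact_mod_cast m_pos j
  have hqr : (1 : ℝ) ≤ q := by exact_mod_cast hq
  have hqm : q ∣ m j := by
    exact dvd_m_of_le hq (le_trans hqQ (Q_le_S j))
  obtain ⟨h1, h2⟩ := frac_cell (p := p) hq hqm hi
  have hdel := del_pos j
  have hdel1 := del_le_one j
  rw [mem_A]
  constructor
  · have h3 : (((p * (m j / q) + i : ℕ) : ℝ)) / m j < 1 := by
      rw [h1]
      have h4 : (i : ℝ) / m j < ((i : ℝ) + 1) / m j := by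
        apply div_lt_div_of_pos_right _ hm
        linarith
      have h5 : del j / q ≤ 1 / q := div_le_div_of_nonneg_right hdel1 (by linarith)
      have h6 : (p : ℝ) / q + 1 / q ≤ 1 := by
        rw [← add_div, div_le_one (by linarith)]
        exact_mod_cast hpq
      linarith
    rw [div_lt_one hm] at h3
    exact_mod_cast h3
  · refine ⟨q, hq, hqQ, ?_⟩
    intro x hx1 hx2
    refine lt_of_le_of_lt (distInt_le_abs_sub _ (p : ℤ)) ?_
    rw [add_div, h1] at hx2
    rw [h1] at hx1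
    have h7 : x < p / q + del j / q := by
      have : (i : ℝ) / m j + 1 / m j ≤ del j / q := by rw [← add_div]; exact h2
      linarith
    have h8 : (p : ℝ) / q ≤ x := by
      have : (0 : ℝ) ≤ (i : ℝ) / m j := by positivity
      linarith
    have hq0 : (0 : ℝ) < q := by linarith
    have e : (q : ℝ) * x - ((p : ℤ) : ℝ) = q * (x - p / q) := by
      push_cast; field_simp
    rw [e, abs_of_nonneg (by apply mul_nonneg hq0.le; linarith)]
    calc (q : ℝ) * (x - p / q) < q * (del j / q) := by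
          apply mul_lt_mul_of_pos_left _ hq0; linarith
      _ = del j := by field_simp

lemma cells_disjoint {j p q p' q' i i' : ℕ} (hf : (p, q) ∈ Fr (Q j)) (hf' : (p', q') ∈ Fr (Q j))
    (hi : i < kk j q) (hi' : i' < kk j q')
    (h : p * (m j / q) + i = p' * (m j / q') + i') : (p, q) = (p', q') ∧ i = i' := by
  obtain ⟨hq1, hq2, hq3, hq4⟩ := mem_Fr.mp hf
  obtain ⟨hq1', hq2', hq3', hq4'⟩ := mem_Fr.mp hf'
  simp only at hq1 hq2 hq3 hq4 hq1' hq2' hq3' hq4'
  have hm : (0 : ℝ) < m j := by exact_mod_cast m_pos j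
  have hqm : q ∣ m j := by
    exact dvd_m_of_le hq2 (le_trans hq1 (Q_le_S j))
  have hqm' : q' ∣ m j := by
    exact dvd_m_of_le hq2' (le_trans hq1' (Q_le_S j))
  obtain ⟨h1, h2⟩ := frac_cell (p := p) hq2 hqm hi
  obtain ⟨h1', h2'⟩ := frac_cell (p := p') hq2' hqm' hi'
  have hdel := del_pos j
  have hdelQ := del_Q_le j
  have hq0 : (0 : ℝ) < q := by exact_mod_cast hq2
  have hq0' : (0 : ℝ) < q' := by exact_mod_cast hq2'
  have heq : (p : ℝ) / q + i / m j = (p' : ℝ) / q' + i' / m j := by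
    rw [← h1, ← h1', h]
  have hi1 : (i : ℝ) / m j < del j / q := by
    have : (i : ℝ) / m j < ((i : ℝ) + 1) / m j := by
      apply div_lt_div_of_pos_right _ hm
      linarith
    linarith
  have hi1' : (i' : ℝ) / m j < del j / q' := by
    have : (i' : ℝ) / m j < ((i' : ℝ) + 1) / m j := by
      apply div_lt_div_of_pos_right _ hm
      linarith
    linarith
  have hi0 : (0 : ℝ) ≤ (i : ℝ) / m j := by positivity
  have hi0' : (0 : ℝ) ≤ (i' : ℝ) / m j := by positivity
  -- cross multiplied difference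
  have hz : (p : ℤ) * q' - p' * q = 0 := by
    have hlt : |(((p : ℤ) * q' - p' * q : ℤ) : ℝ)| < 1 := by
      have e : (((p : ℤ) * q' - p' * q : ℤ) : ℝ) = (q * q') * ((i' : ℝ) / m j - i / m j) := by
        have : (i' : ℝ) / m j - i / m j = (p : ℝ) / q - (p' : ℝ) / q' := by linarith
        rw [this]
        push_cast
        field_simp
      rw [e, abs_lt]
      have hQr : (q : ℝ) ≤ Q j := by exact_mod_cast hq1
      have hQr' : (q' : ℝ) ≤ Q j := by exact_mod_cast hq1'
      constructor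
      · have h5 : -(del j / q) < (i' : ℝ) / m j - i / m j := by linarith
        have h6 : (q * q' : ℝ) * (-(del j / q)) < (q * q') * ((i' : ℝ) / m j - i / m j) :=
          mul_lt_mul_of_pos_left h5 (by positivity)
        have h7 : (q * q' : ℝ) * (-(del j / q)) = -(del j * q') := by field_simp
        have h8 : del j * q' ≤ 1 := le_trans (mul_le_mul_of_nonneg_left hQr' hdel.le) hdelQ
        linarith
      · have h5 : (i' : ℝ) / m j - i / m j < (del j / q') := by linarith
        have h6 : (q * q') * ((i' : ℝ) / m j - i / m j) < (q * q' : ℝ) * ((del j / q')) :=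
          mul_lt_mul_of_pos_left h5 (by positivity)
        have h7 : (q * q' : ℝ) * (del j / q') = (del j * q) := by field_simp
        have h8 : del j * q ≤ 1 := le_trans (mul_le_mul_of_nonneg_left hQr hdel.le) hdelQ
        linarith
    have hlt' : |(p : ℤ) * q' - p' * q| < 1 := by exact_mod_cast hlt
    exact Int.abs_lt_one_iff.mp hlt'
  have hz' : p * q' = p' * q := by
    have : (p : ℤ) * q' = p' * q := by linarith
    exact_mod_cast this
  have hqq : q = q' := by
    apply Nat.dvd_antisymm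
    · have : q ∣ p * q' := ⟨p', by rw [hz']; ring⟩
      exact hq4.symm.dvd_of_dvd_mul_left this
    · have : q' ∣ p' * q := ⟨p, by rw [← hz']; ring⟩
      exact hq4'.symm.dvd_of_dvd_mul_left this
  subst hqq
  have hpp : p = p' := Nat.eq_of_mul_eq_mul_right hq2 hz'
  subst hpp
  exact ⟨rfl, by omega⟩

lemma sum_kk_le (j : ℕ) : ∑ f ∈ Fr (Q j), kk j f.2 ≤ (A j).card := by
  classical
  have h1 : ∑ f ∈ Fr (Q j), kk j f.2
      = ((Fr (Q j)).sigma (fun f => Finset.range (kk j f.2))).card := by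
    rw [Finset.card_sigma]
    simp
  rw [h1]
  apply Finset.card_le_card_of_injOn (fun x => x.1.1 * (m j / x.1.2) + x.2)
  · rintro ⟨⟨p, q⟩, i⟩ hx
    simp only [Finset.coe_sigma, Set.mem_sigma_iff, Finset.mem_coe, Finset.mem_range] at hx
    obtain ⟨hf, hi⟩ := hx
    obtain ⟨hq1, hq2, hq3, hq4⟩ := mem_Fr.mp hf
    simp only [Finset.mem_coe]
    exact cell_mem_A hq2 hq1 hq3 hi
  · rintro ⟨⟨p, q⟩, i⟩ hx ⟨⟨p', q'⟩, i'⟩ hx' heq
    simp only [Finset.coe_sigma, Set.mem_sigma_iff, Finset.mem_coe, Finset.mem_range] at hx hx'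
    simp only at heq
    obtain ⟨h1, h2⟩ := cells_disjoint hx.1 hx'.1 hx.2 hx'.2 heq
    obtain ⟨rfl, rfl⟩ := Prod.mk.inj h1
    subst h2
    rfl

lemma A_card_ge (j : ℕ) (hQ : 0 < Q j) :
    (m j : ℝ) * (del j * (((Q j : ℝ) - 1) / 2)) - ((Q j : ℝ) + 1) ^ 2 ≤ ((A j).card : ℝ) := by
  have h1 : ((∑ f ∈ Fr (Q j), kk j f.2 : ℕ) : ℝ) ≤ ((A j).card : ℝ) := by
    exact_mod_cast sum_kk_le j
  refine le_trans ?_ h1
  have hm : (0 : ℝ) < m j := by exact_mod_cast m_pos j
  have hdel := del_pos j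
  have h2 : ∑ f ∈ Fr (Q j), ((m j : ℝ) * del j * (1 / f.2) - 1) ≤
      ((∑ f ∈ Fr (Q j), kk j f.2 : ℕ) : ℝ) := by
    rw [Nat.cast_sum]
    apply Finset.sum_le_sum
    intro f _
    have h3 := Nat.lt_floor_add_one ((m j : ℝ) * del j / f.2)
    have e : (m j : ℝ) * del j * (1 / f.2) = (m j : ℝ) * del j / f.2 := by ring
    rw [e]
    unfold kk
    linarith
  refine le_trans ?_ h2
  rw [Finset.sum_sub_distrib, ← Finset.mul_sum]
  have h4 := sum_inv_den_ge (Q j) hQ
  have h5 : ((Fr (Q j)).card : ℝ) ≤ ((Q j : ℝ) + 1) ^ 2 := by exact_mod_cast Fr_card_le (Q j)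
  simp only [Finset.sum_const, nsmul_eq_mul, mul_one]
  have h6 : (m j : ℝ) * del j * (((Q j : ℝ) - 1) / 2) ≤ (m j : ℝ) * del j * ∑ f ∈ Fr (Q j), 1 / (f.2 : ℝ) :=
    mul_le_mul_of_nonneg_left h4 (by positivity)
  have e2 : (m j : ℝ) * (del j * (((Q j : ℝ) - 1) / 2)) = (m j : ℝ) * del j * (((Q j : ℝ) - 1) / 2) := by ring
  rw [e2]
  linarith

lemma S_lt_psi_b (j : ℕ) : (S (j + 1) : ℝ) < 3 * psi j * b j := by
  have h1 := b_gt j
  have hψ : (1 : ℝ) ≤ psi j := by exact_mod_cast psi_pos j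
  have hb : (0 : ℝ) < b j := by exact_mod_cast b_pos j
  rw [div_lt_iff₀ (by positivity)] at h1
  rw [S_succ]
  push_cast
  nlinarith

lemma A_frac_ge {j : ℕ} (hj : 12000 ≤ j) :
    (m j : ℝ) * (1 / (23328 * ((j : ℝ) + 1))) ≤ ((A j).card : ℝ) := by
  have hψ1 : (1 : ℝ) ≤ psi j := by exact_mod_cast psi_pos j
  have hψ511 : (511 : ℝ) * psi j ≤ j := by exact_mod_cast psi_small hj
  have hψ4 : (psi j : ℝ) ^ 4 ≤ j + 1 := by exact_mod_cast psi_pow_le j
  have hj' : (12000 : ℝ) ≤ j := by exact_mod_cast hj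
  have hSj : (j : ℝ) ^ 2 ≤ S j := by exact_mod_cast sq_le_S j
  have hbgt := b_gt j
  have hm : (0 : ℝ) < m j := by exact_mod_cast m_pos j
  have hT : (T j : ℝ) = 18 * psi j := by unfold T; push_cast; ring
  have hTpos : (0 : ℝ) < T j := by rw [hT]; linarith
  have hSpos : (0 : ℝ) < S (j + 1) := by exact_mod_cast S_succ_pos j
  -- b j ≥ 6 T j
  have hb6 : 6 * (T j : ℝ) ≤ b j := by
    rw [hT]
    have h1 : 6 * (18 * (psi j : ℝ)) ≤ (S j : ℝ) / (psi j) := by
      rw [le_div_iff₀ (by positivity)]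
      nlinarith
    linarith
  have hbpos : (0 : ℝ) < b j := by exact_mod_cast b_pos j
  -- Q lower bound
  have hQ1 : (b j : ℝ) / (2 * T j) - 1 < Q j := by
    have h1 : b j < (2 * T j) * (Q j + 1) := by
      unfold Q
      exact Nat.lt_mul_div_succ _ (by have := T_pos j; omega)
    have h2 : (b j : ℝ) < (2 * T j) * (Q j + 1) := by exact_mod_cast h1
    rw [sub_lt_iff_lt_add, div_lt_iff₀ (by positivity)]
    linarith
  have hQ2 : (b j : ℝ) / (6 * T j) ≤ (Q j : ℝ) - 1 := by
    have h1 : (2 : ℝ) ≤ (b j : ℝ) / (3 * T j) := by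
      rw [le_div_iff₀ (by positivity)]; linarith
    have h2 : (b j : ℝ) / (2 * T j) = (b j : ℝ) / (6 * T j) + (b j : ℝ) / (3 * T j) := by
      field_simp; norm_num
    linarith
  have hQpos : 0 < Q j := by
    have h1 : (0 : ℝ) ≤ (b j : ℝ) / (6 * T j) := by positivity
    have h2 : (0 : ℝ) < Q j := by linarith
    exact_mod_cast h2
  have hA := A_card_ge j hQpos
  refine le_trans ?_ hA
  have hSb := S_lt_psi_b j
  -- main term
  have hmain : 1 / (11664 * (psi j : ℝ) ^ 3) ≤ del j * (((Q j : ℝ) - 1) / 2) := by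
    have h1 : del j * (((b j : ℝ) / (6 * T j)) / 2) ≤ del j * (((Q j : ℝ) - 1) / 2) := by
      apply mul_le_mul_of_nonneg_left _ (del_pos j).le
      linarith
    refine le_trans ?_ h1
    unfold del
    have e : 1 / ((S (j + 1) : ℝ) * T j) * (((b j : ℝ) / (6 * T j)) / 2)
        = (b j : ℝ) / (12 * (T j : ℝ) ^ 2 * S (j + 1)) := by field_simp; norm_num
    rw [e, hT, div_le_div_iff₀ (by positivity) (by positivity)]
    have h3 : (0 : ℝ) < psi j ^ 2 := by positivity
    nlinarith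
  -- small term
  have hsmall : ((Q j : ℝ) + 1) ^ 2 ≤ (m j : ℝ) * (1 / (23328 * (psi j : ℝ) ^ 3)) := by
    have h1 : (12 : ℝ) * (S (j + 1) + 1) ^ 4 ≤ m j := by
      have h2 : 12 * (S (j + 1) + 1) ^ 4 ≤ m j := by
        refine le_trans ?_ (m_ge j)
        have : 1 ≤ 2 ^ j := Nat.one_le_two_pow
        nlinarith [Nat.one_le_pow 4 (S (j + 1) + 1) (by omega)]
      exact_mod_cast h2
    have hQS : (Q j : ℝ) + 1 ≤ S (j + 1) + 1 := by
      have : (Q j : ℝ) ≤ S (j + 1) := by exact_mod_cast Q_le_S j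
      linarith
    have hSj1 : (j : ℝ) ^ 2 ≤ S (j + 1) + 1 := by
      have : (S j : ℝ) ≤ S (j + 1) := by exact_mod_cast S_mono (by omega)
      linarith
    generalize (S (j + 1) : ℝ) = s at *
    generalize (psi j : ℝ) = ψ at *
    generalize (Q j : ℝ) = q at *
    have hq0 : (0 : ℝ) ≤ q + 1 := by
      have : (0 : ℝ) ≤ (b j : ℝ) / (6 * T j) := by positivity
      linarith
    have hs1 : (0 : ℝ) < s + 1 := by linarith
    have h3 : (q + 1) ^ 2 ≤ (s + 1) ^ 2 := pow_le_pow_left₀ hq0 hQS 2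
    have h4 : (23328 : ℝ) * ψ ^ 3 ≤ 12 * (s + 1) ^ 2 := by
      have h5 : ((j : ℝ) ^ 2) ^ 2 ≤ (s + 1) ^ 2 := pow_le_pow_left₀ (by positivity) hSj1 2
      have h6 : ψ ^ 3 ≤ (j : ℝ) ^ 3 := pow_le_pow_left₀ (by linarith) (by linarith) 3
      have h7 : (23328 : ℝ) * (j : ℝ) ^ 3 ≤ 12 * ((j : ℝ) ^ 2) ^ 2 := by
        have : (0 : ℝ) < (j : ℝ) ^ 3 := by positivity
        nlinarith
      linarith
    rw [mul_one_div, le_div_iff₀ (by positivity)]
    calc (q + 1) ^ 2 * (23328 * ψ ^ 3) ≤ (s + 1) ^ 2 * (12 * (s + 1) ^ 2) :=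
          mul_le_mul h3 h4 (by positivity) (by positivity)
      _ = 12 * (s + 1) ^ 4 := by ring
      _ ≤ m j := h1
  have hψ3 : 1 / (23328 * ((j : ℝ) + 1)) ≤ 1 / (23328 * (psi j : ℝ) ^ 3) := by
    apply one_div_le_one_div_of_le (by positivity)
    have : (psi j : ℝ) ^ 3 ≤ (psi j : ℝ) ^ 4 := pow_le_pow_right₀ hψ1 (by norm_num)
    linarith
  have hm1 := mul_le_mul_of_nonneg_left hψ3 hm.le
  have hm2 := mul_le_mul_of_nonneg_left hmain hm.le
  have e3 : 1 / (11664 * (psi j : ℝ) ^ 3) = 1 / (23328 * (psi j : ℝ) ^ 3) + 1 / (23328 * (psi j : ℝ) ^ 3) := by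
    field_simp; norm_num
  rw [e3, mul_add] at hm2
  linarith

/-- the digit of `β` at level `j` -/
noncomputable def digit (β : ℝ) (j : ℕ) : ℕ := ⌊(m j : ℝ) * Int.fract ((d j : ℝ) * β)⌋₊

/-- the cell of `β` at level `j` -/
noncomputable def cell (β : ℝ) (j : ℕ) : ℕ := ⌊(d j : ℝ) * β⌋₊

lemma cell_succ {β : ℝ} (hβ : 0 ≤ β) (j : ℕ) :
    cell β (j + 1) = cell β j * m j + digit β j := by
  unfold cell digit
  have hd : (0 : ℝ) ≤ (d j : ℝ) * β := by positivity
  have hm : (0 : ℝ) < m j := by exact_mod_cast m_pos j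
  have hfl : ((⌊(d j : ℝ) * β⌋₊ : ℕ) : ℝ) = ((⌊(d j : ℝ) * β⌋ : ℤ) : ℝ) := by
    exact natCast_floor_eq_intCast_floor hd
  have e : (d (j + 1) : ℝ) * β = ((⌊(d j : ℝ) * β⌋₊ * m j : ℕ) : ℝ)
      + (m j : ℝ) * Int.fract ((d j : ℝ) * β) := by
    rw [d_succ]
    push_cast
    rw [hfl, Int.fract]
    ring
  rw [e, add_comm, Nat.floor_add_natCast (by have := Int.fract_nonneg ((d j : ℝ) * β); positivity),
    add_comm]

lemma digit_lt (β : ℝ) (j : ℕ) : digit β j < m j := by
  unfold digit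
  have hm : (0 : ℝ) < m j := by exact_mod_cast m_pos j
  rw [Nat.floor_lt (by have := Int.fract_nonneg ((d j : ℝ) * β); positivity)]
  have := Int.fract_lt_one ((d j : ℝ) * β)
  nlinarith

/-- cells avoiding good digits -/
noncomputable def Gs (J : ℕ) : ℕ → Finset ℕ
  | 0 => Finset.range (d J)
  | (k + 1) => ((Gs J k) ×ˢ (Finset.range (m (J + k)) \ A (J + k))).image
      (fun p => p.1 * m (J + k) + p.2)

lemma A_sub (j : ℕ) : A j ⊆ Finset.range (m j) := by
  intro e he
  rw [Finset.mem_range]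
  exact (mem_A.mp he).1

lemma Gs_card_le (J k : ℕ) : ((Gs J k).card : ℝ) ≤
    d (J + k) * ∏ i ∈ Finset.range k, (1 - ((A (J + i)).card : ℝ) / m (J + i)) := by
  induction k with
  | zero => simp [Gs]
  | succ k ih =>
    have h1 : (Gs J (k + 1)).card ≤ (Gs J k).card * (m (J + k) - (A (J + k)).card) := by
      have e : Gs J (k + 1) = ((Gs J k) ×ˢ (Finset.range (m (J + k)) \ A (J + k))).image
        (fun p => p.1 * m (J + k) + p.2) := rfl
      rw [e]
      refine le_trans Finset.card_image_le ?_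
      rw [Finset.card_product, Finset.card_sdiff_of_subset (A_sub _), Finset.card_range]
    have hA : (A (J + k)).card ≤ m (J + k) := by
      have := Finset.card_le_card (A_sub (J + k))
      rwa [Finset.card_range] at this
    have h2 : ((Gs J (k + 1)).card : ℝ) ≤ (Gs J k).card * ((m (J + k) : ℝ) - (A (J + k)).card) := by
      rw [← Nat.cast_sub hA]
      exact_mod_cast h1
    have hm : (0 : ℝ) < m (J + k) := by exact_mod_cast m_pos _
    have hA' : ((A (J + k)).card : ℝ) ≤ m (J + k) := by exact_mod_cast hA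
    rw [Finset.prod_range_succ]
    have e : d (J + (k + 1)) = d (J + k) * m (J + k) := by rw [← add_assoc, d_succ]
    rw [e]
    push_cast
    calc ((Gs J (k + 1)).card : ℝ) ≤ (Gs J k).card * ((m (J + k) : ℝ) - (A (J + k)).card) := h2
      _ ≤ (d (J + k) * ∏ i ∈ Finset.range k, (1 - ((A (J + i)).card : ℝ) / m (J + i)))
          * ((m (J + k) : ℝ) - (A (J + k)).card) :=
          mul_le_mul_of_nonneg_right ih (by linarith)
      _ = _ := by field_simp

lemma cell_mem_Gs {J k : ℕ} {β : ℝ} (hβ0 : 0 ≤ β) (hβ1 : β < 1)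
    (h : ∀ j, J ≤ j → digit β j ∉ A j) : cell β (J + k) ∈ Gs J k := by
  induction k with
  | zero =>
    unfold Gs
    rw [Finset.mem_range, add_zero]
    unfold cell
    have hd : (0 : ℝ) < d J := by exact_mod_cast d_pos J
    rw [Nat.floor_lt (by positivity)]
    nlinarith
  | succ k ih =>
    unfold Gs
    rw [Finset.mem_image]
    refine ⟨(cell β (J + k), digit β (J + k)), ?_, ?_⟩
    · rw [Finset.mem_product, Finset.mem_sdiff, Finset.mem_range]
      exact ⟨ih, digit_lt β _, h _ (by omega)⟩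
    · rw [← add_assoc, cell_succ hβ0]

/-- numbers whose digits are eventually not good -/
def Bad (J : ℕ) : Set ℝ := {β | 0 ≤ β ∧ β < 1 ∧ ∀ j, J ≤ j → digit β j ∉ A j}

lemma Bad_subset (J k : ℕ) : Bad J ⊆ ⋃ x ∈ Gs J k,
    Set.Ico ((x : ℝ) / d (J + k)) (((x : ℝ) + 1) / d (J + k)) := by
  rintro β ⟨h0, h1, h2⟩
  have h3 := cell_mem_Gs (k := k) h0 h1 h2
  refine Set.mem_biUnion h3 ?_
  have hd : (0 : ℝ) < d (J + k) := by exact_mod_cast d_pos _
  rw [Set.mem_Ico]
  unfold cell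
  constructor
  · rw [div_le_iff₀ hd, mul_comm β]
    exact Nat.floor_le (by positivity)
  · rw [lt_div_iff₀ hd, mul_comm β]
    exact Nat.lt_floor_add_one _

lemma volume_Bad_le (J k : ℕ) : volume (Bad J) ≤
    ENNReal.ofReal (∏ i ∈ Finset.range k, (1 - ((A (J + i)).card : ℝ) / m (J + i))) := by
  have hd : (0 : ℝ) < d (J + k) := by exact_mod_cast d_pos _
  calc volume (Bad J) ≤ volume (⋃ x ∈ Gs J k,
        Set.Ico ((x : ℝ) / d (J + k)) (((x : ℝ) + 1) / d (J + k))) := measure_mono (Bad_subset J k)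
    _ ≤ ∑ x ∈ Gs J k, volume (Set.Ico ((x : ℝ) / d (J + k)) (((x : ℝ) + 1) / d (J + k))) :=
        measure_biUnion_finset_le _ _
    _ = ∑ x ∈ Gs J k, ENNReal.ofReal (1 / d (J + k)) := by
        apply Finset.sum_congr rfl
        intro x _
        rw [Real.volume_Ico]
        congr 1
        field_simp
        ring
    _ = ENNReal.ofReal (((Gs J k).card : ℝ) / d (J + k)) := by
        rw [Finset.sum_const, nsmul_eq_mul, ← ENNReal.ofReal_natCast,
          ← ENNReal.ofReal_mul (by positivity)]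
        congr 1
        ring
    _ ≤ _ := by
        apply ENNReal.ofReal_le_ofReal
        rw [div_le_iff₀ hd, mul_comm]
        exact Gs_card_le J k

lemma prod_tendsto {J : ℕ} (hJ : 12000 ≤ J) :
    Tendsto (fun k => ∏ i ∈ Finset.range k, (1 - ((A (J + i)).card : ℝ) / m (J + i)))
      atTop (𝓝 0) := by
  have hle : ∀ k, ∏ i ∈ Finset.range k, (1 - ((A (J + i)).card : ℝ) / m (J + i)) ≤
      Real.exp (-(1 / 23328) * ∑ i ∈ Finset.range k, 1 / (((i + J : ℕ) : ℝ) + 1)) := by
    intro k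
    rw [Finset.mul_sum, Real.exp_sum]
    apply Finset.prod_le_prod
    · intro i _
      have hA : (A (J + i)).card ≤ m (J + i) := by
        have := Finset.card_le_card (A_sub (J + i))
        rwa [Finset.card_range] at this
      have hm : (0 : ℝ) < m (J + i) := by exact_mod_cast m_pos _
      have hA' : ((A (J + i)).card : ℝ) ≤ m (J + i) := by exact_mod_cast hA
      rw [sub_nonneg, div_le_one hm]
      exact hA'
    · intro i _
      have hm : (0 : ℝ) < m (J + i) := by exact_mod_cast m_pos _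
      have h1 := A_frac_ge (j := J + i) (by omega)
      have h2 : (1 / (23328 * (((J + i : ℕ) : ℝ) + 1))) ≤ ((A (J + i)).card : ℝ) / m (J + i) := by
        rw [le_div_iff₀ hm, mul_comm]
        exact h1
      have h3 := Real.add_one_le_exp (-(1 / 23328) * (1 / (((i + J : ℕ) : ℝ) + 1)))
      have e : (1 : ℝ) / (23328 * (((J + i : ℕ) : ℝ) + 1)) = (1 / 23328) * (1 / (((i + J : ℕ) : ℝ) + 1)) := by
        rw [add_comm J i]
        field_simp
      rw [e] at h2
      linarith
  have h0 : ∀ k, 0 ≤ ∏ i ∈ Finset.range k, (1 - ((A (J + i)).card : ℝ) / m (J + i)) := by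
    intro k
    apply Finset.prod_nonneg
    intro i _
    have hA : (A (J + i)).card ≤ m (J + i) := by
      have := Finset.card_le_card (A_sub (J + i))
      rwa [Finset.card_range] at this
    have hm : (0 : ℝ) < m (J + i) := by exact_mod_cast m_pos _
    have hA' : ((A (J + i)).card : ℝ) ≤ m (J + i) := by exact_mod_cast hA
    rw [sub_nonneg, div_le_one hm]
    exact hA'
  have hdiv : Tendsto (fun k => ∑ i ∈ Finset.range k, 1 / (((i + J : ℕ) : ℝ) + 1)) atTop atTop := by
    have h1 := Real.tendsto_sum_range_one_div_nat_succ_atTop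
    have h2 : ¬ Summable (fun i : ℕ => (1 : ℝ) / ((i : ℝ) + 1)) := by
      intro hs
      exact not_tendsto_nhds_of_tendsto_atTop h1 _ hs.hasSum.tendsto_sum_nat
    have h3 : ¬ Summable (fun i : ℕ => (1 : ℝ) / (((i + J : ℕ) : ℝ) + 1)) := by
      intro hs
      exact h2 ((summable_nat_add_iff (f := fun i : ℕ => (1 : ℝ) / ((i : ℝ) + 1)) J).mp hs)
    exact (not_summable_iff_tendsto_nat_atTop_of_nonneg (fun i => by positivity)).mp h3
  have hexp : Tendsto (fun k => Real.exp (-(1 / 23328) * ∑ i ∈ Finset.range k,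
      1 / (((i + J : ℕ) : ℝ) + 1))) atTop (𝓝 0) := by
    apply Real.tendsto_exp_atBot.comp
    exact hdiv.const_mul_atTop_of_neg (by norm_num)
  exact tendsto_of_tendsto_of_tendsto_of_le_of_le tendsto_const_nhds hexp h0 hle

lemma volume_Bad {J : ℕ} (hJ : 12000 ≤ J) : volume (Bad J) = 0 := by
  have h1 : Tendsto (fun k => ENNReal.ofReal (∏ i ∈ Finset.range k,
      (1 - ((A (J + i)).card : ℝ) / m (J + i)))) atTop (𝓝 0) := by
    have := ENNReal.tendsto_ofReal (prod_tendsto hJ)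
    rwa [ENNReal.ofReal_zero] at this
  have h2 := ge_of_tendsto' h1 (volume_Bad_le J)
  exact le_antisymm h2 (zero_le)

lemma fail (β : ℝ) (j : ℕ) (hdig : digit β j ∈ A j) :
    3 * (S (j + 1) : ℝ) ≤ (pc (fun n => a0 n * β) (S (j + 1)) (1 / (S (j + 1) : ℝ)) : ℝ) := by
  obtain ⟨he, q, hq1, hqQ, hq⟩ := mem_A.mp hdig
  have hm : (0 : ℝ) < m j := by exact_mod_cast m_pos j
  have hfr := Int.fract_nonneg ((d j : ℝ) * β)
  have hx1 : ((digit β j : ℕ) : ℝ) / m j ≤ Int.fract ((d j : ℝ) * β) := by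
    rw [div_le_iff₀ hm, mul_comm (Int.fract _)]
    exact Nat.floor_le (by positivity)
  have hx2 : Int.fract ((d j : ℝ) * β) < (((digit β j : ℕ) : ℝ) + 1) / m j := by
    rw [lt_div_iff₀ hm, mul_comm (Int.fract _)]
    exact Nat.lt_floor_add_one _
  have h1 := hq _ hx1 hx2
  have h2 : distInt (q * ((d j : ℝ) * β)) < del j := by
    have e : (q : ℝ) * ((d j : ℝ) * β) = q * Int.fract ((d j : ℝ) * β)
        + ((q * ⌊(d j : ℝ) * β⌋ : ℤ) : ℝ) := by
      rw [Int.fract]; push_cast; ring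
    rw [e, distInt_add_int]
    exact h1
  have hSpos : (0 : ℝ) < S (j + 1) := by exact_mod_cast S_succ_pos j
  have hTpos : (0 : ℝ) < T j := by exact_mod_cast T_pos j
  have hTQ := two_TQ_le j
  have hcard : T j * (b j - T j * Q j) ≤
      pc (fun n => a0 n * β) (S (j + 1)) (1 / (S (j + 1) : ℝ)) := by
    have e : T j * (b j - T j * Q j)
        = ((Finset.range (T j)) ×ˢ (Finset.range (b j - T j * Q j))).card := by
      rw [Finset.card_product, Finset.card_range, Finset.card_range]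
    rw [e]
    unfold pc
    apply Finset.card_le_card_of_injOn
      (fun p : ℕ × ℕ => (S j + (p.2 + (p.1 + 1) * q), S j + p.2))
    · rintro ⟨t, u⟩ hp
      simp only [Finset.coe_product, Finset.coe_range, Set.mem_prod, Set.mem_Iio] at hp
      obtain ⟨ht, hu⟩ := hp
      have htq : (t + 1) * q ≤ T j * Q j := Nat.mul_le_mul ht hqQ
      have htq0 : 0 < (t + 1) * q := Nat.mul_pos (by omega) hq1
      have hub : u < b j := by omega
      have hub' : u + (t + 1) * q < b j := by omega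
      simp only [Finset.coe_filter, Finset.mem_product, Finset.mem_range, Set.mem_ofPred_eq]
      refine ⟨⟨by rw [S_succ]; omega, by rw [S_succ]; omega⟩, by omega, ?_⟩
      rw [a0_add hub, a0_add hub']
      have e2 : ((((u + (t + 1) * q + 1) * d j : ℕ) : ℝ) * β - (((u + 1) * d j : ℕ) : ℝ) * β)
          = ((t + 1 : ℕ) : ℝ) * (q * ((d j : ℝ) * β)) := by push_cast; ring
      rw [e2]
      calc distInt (((t + 1 : ℕ) : ℝ) * (q * ((d j : ℝ) * β)))
          ≤ ((t + 1 : ℕ) : ℝ) * distInt (q * ((d j : ℝ) * β)) := distInt_natMul_le _ _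
        _ < ((t + 1 : ℕ) : ℝ) * del j := by
            apply mul_lt_mul_of_pos_left h2
            positivity
        _ ≤ (T j : ℝ) * del j := by
            apply mul_le_mul_of_nonneg_right _ (del_pos j).le
            exact_mod_cast ht
        _ = 1 / (S (j + 1) : ℝ) := by unfold del; field_simp
    · rintro ⟨t, u⟩ _ ⟨t', u'⟩ _ heq
      simp only [Prod.mk.injEq] at heq
      obtain ⟨h3, h4⟩ := heq
      have hu : u = u' := by omega
      subst hu
      have h5 : (t + 1) * q = (t' + 1) * q := by omega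
      have h6 : t + 1 = t' + 1 := Nat.eq_of_mul_eq_mul_right hq1 h5
      have h7 : t = t' := by omega
      rw [h7]
  have hcard' : (T j : ℝ) * ((b j : ℝ) - T j * Q j) ≤
      (pc (fun n => a0 n * β) (S (j + 1)) (1 / (S (j + 1) : ℝ)) : ℝ) := by
    have hle : T j * Q j ≤ b j := by
      have : T j * Q j ≤ 2 * T j * Q j := by nlinarith [Nat.zero_le (T j * Q j)]
      omega
    have e : ((T j * (b j - T j * Q j) : ℕ) : ℝ) = (T j : ℝ) * ((b j : ℝ) - T j * Q j) := by
      rw [Nat.cast_mul, Nat.cast_sub hle]; push_cast; ring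
    rw [← e]
    exact_mod_cast hcard
  refine le_trans ?_ hcard'
  have h3 : (2 : ℝ) * T j * Q j ≤ b j := by exact_mod_cast hTQ
  have h4 := S_lt_psi_b j
  have hT : (T j : ℝ) = 18 * psi j := by unfold T; push_cast; ring
  have hψ : (0 : ℝ) < psi j := by exact_mod_cast psi_pos j
  have h5 : (T j : ℝ) * ((b j : ℝ) / 2) ≤ (T j : ℝ) * ((b j : ℝ) - T j * Q j) := by
    apply mul_le_mul_of_nonneg_left _ hTpos.le
    nlinarith
  have h6 : 3 * (S (j + 1) : ℝ) ≤ (T j : ℝ) * ((b j : ℝ) / 2) := by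
    rw [hT]; nlinarith
  linarith

lemma pc_fract (β : ℝ) (N : ℕ) (h : ℝ) :
    pc (fun n => Int.fract ((a (n + 1) : ℝ) * β)) N h = pc (fun n => a0 n * β) N h := by
  unfold pc
  congr 1
  apply Finset.filter_congr
  intro p _
  rw [distInt_fract_sub]
  simp only [a_succ, Int.cast_natCast]

lemma hasPPC_iff (β : ℝ) : HasPPC (fun n => Int.fract ((a n : ℝ) * β)) ↔
    ∀ s : ℝ, 0 < s → Tendsto (fun N : ℕ => (pc (fun n => a0 n * β) N (s / N) : ℝ) / N)
      atTop (𝓝 (2 * s)) := by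
  unfold HasPPC
  simp only [card_shift (fun n => Int.fract ((a n : ℝ) * β)), pc_fract]

lemma eventually_not_good {β : ℝ} (h : HasPPC (fun n => Int.fract ((a n : ℝ) * β))) :
    ∃ J, ∀ j, J ≤ j → digit β j ∉ A j := by
  rw [hasPPC_iff] at h
  have h1 := h 1 one_pos
  have h2 : ∀ᶠ N : ℕ in atTop, (pc (fun n => a0 n * β) N (1 / N) : ℝ) / N < 3 :=
    h1.eventually_lt_const (by norm_num)
  have h3 : Tendsto (fun j => S (j + 1)) atTop atTop :=
    (tendsto_add_atTop_iff_nat 1).mpr S_strictMono.tendsto_atTop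
  have h4 := h3.eventually h2
  rw [eventually_atTop] at h4
  obtain ⟨J, hJ⟩ := h4
  refine ⟨J, fun j hj hdig => ?_⟩
  have h5 := hJ j hj
  have h6 := fail β j hdig
  have hSpos : (0 : ℝ) < S (j + 1) := by exact_mod_cast S_succ_pos j
  rw [div_lt_iff₀ hSpos] at h5
  linarith

lemma null_unit : volume {β : ℝ | (0 ≤ β ∧ β < 1) ∧ HasPPC (fun n => Int.fract ((a n : ℝ) * β))} = 0 := by
  have hsub : {β : ℝ | (0 ≤ β ∧ β < 1) ∧ HasPPC (fun n => Int.fract ((a n : ℝ) * β))}
      ⊆ ⋃ J : ℕ, Bad (J + 12000) := by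
    rintro β ⟨⟨h0, h1⟩, h2⟩
    obtain ⟨J, hJ⟩ := eventually_not_good h2
    exact Set.mem_iUnion.mpr ⟨J, h0, h1, fun j hj => hJ j (by omega)⟩
  apply measure_mono_null hsub
  rw [measure_iUnion_null_iff]
  intro J
  exact volume_Bad (by omega)

lemma hasPPC_periodic (β : ℝ) (k : ℤ) (h : HasPPC (fun n => Int.fract ((a n : ℝ) * β))) :
    HasPPC (fun n => Int.fract ((a n : ℝ) * (β + k))) := by
  have e : (fun n => Int.fract ((a n : ℝ) * (β + k))) = (fun n => Int.fract ((a n : ℝ) * β)) := by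
    funext n
    have : (a n : ℝ) * (β + k) = (a n : ℝ) * β + ((a n * k : ℤ) : ℝ) := by push_cast; ring
    rw [this, Int.fract_add_intCast]
  rw [e]
  exact h

lemma ae_not : ∀ᵐ β : ℝ ∂volume, ¬ HasPPC (fun n => Int.fract ((a n : ℝ) * β)) := by
  rw [ae_iff]
  simp only [not_not]
  have hsub : {β : ℝ | HasPPC (fun n => Int.fract ((a n : ℝ) * β))} ⊆
      ⋃ k : ℤ, (fun β : ℝ => β + k) ⁻¹'
        {β : ℝ | (0 ≤ β ∧ β < 1) ∧ HasPPC (fun n => Int.fract ((a n : ℝ) * β))} := by
    intro β hβ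
    refine Set.mem_iUnion.mpr ⟨-⌊β⌋, ?_⟩
    simp only [Set.mem_preimage, Set.mem_ofPred_eq]
    refine ⟨⟨?_, ?_⟩, hasPPC_periodic β _ hβ⟩
    · push_cast
      have := Int.floor_le β
      linarith
    · push_cast
      have := Int.lt_floor_add_one β
      linarith
  apply measure_mono_null hsub
  rw [measure_iUnion_null_iff]
  intro k
  rw [measure_preimage_add_right]
  exact null_unit

end Pool.Agent.H1.PP.AEx

namespace Pool.Agent.H1.PP

open Filter Topology Finset MeasureTheory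
open Pool.Agent.H53.PPC (distInt HasPPC)

variable [Slow] [Mult]

theorem ae_not_ppc : ∀ᵐ β : ℝ ∂volume, ¬ HasPPC (fun n => Int.fract ((a n : ℝ) * β)) :=
  AEx.ae_not

end Pool.Agent.H1.PP
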