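import Pool.Agent.H1.PP.Blk

/-!
# Module At: counting close pairs at `α`

Modification of H53/PPC/At.lean (copy it): `X α n = a0 n * α` instead of `X n = a0 n * alpha`; `Near j α` only for `j ≥ J0`.
For `j ≥ J0`: `EqB (b j) (eps j) (fun u => X α (S j + u))` (`a0_add`, `eqB_of`, `b j * eta j = eps j`), which replaces `X_block`; use
`EqB.cross_le` etc. instead of `cross_le` etc., and `EqB.self` (with `2 eps j ≤ 1/(2 b j)`) instead of `distInt_div_ge`.
Error terms: for `i < j < J`, `0 ≤ h ≤ 1/2`: `|crossB - 2 h b_i b_j| ≤ gJ J + 1 + w i j + z i j`, where `w i j = min ((1/2)^i b j) (b i)` if `J0 ≤ i`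
and `w i j = b i` otherwise, `z i j = b i * b j` if `j < J0` (trivial bound `0 ≤ crossB ≤ b i b j`), else `0`. For `i < J0 ≤ j` use `EqB.cross_le'`,
`EqB.le_cross'` (only the second block). Self pairs: `0` for `j ≥ J0`, `≤ (b j)^2` for `j < J0`.
Sums: `∑_{i,j<J} (w i j + w j i) ≤ 2 (W J + S J0 * J)`, `∑ z ≤ (S J0)^2`.
-/

set_option autoImplicit false

namespace Pool.Agent.H1.PP

open Filter Topology Finset
open Pool.Agent.H53.PPC (distInt cross)

variable [Slow]

/-- the points -/
noncomputable def X [Mult] (α : ℝ) (n : ℕ) : ℝ := a0 n * α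

/-- indicator of a close pair -/
noncomputable def ind [Mult] (α h : ℝ) (k l : ℕ) : ℕ :=
  if k ≠ l ∧ distInt (X α k - X α l) < h then 1 else 0

/-- number of close pairs among the first `N` terms -/
noncomputable def cnt [Mult] (α : ℝ) (N : ℕ) (h : ℝ) : ℕ :=
  ∑ k ∈ Finset.range N, ∑ l ∈ Finset.range N, ind α h k l

/-- total perturbation error -/
noncomputable def W (J : ℕ) : ℝ :=
  ∑ i ∈ Finset.range J, min ((1 / 2) ^ i * (S J : ℝ)) ((b i : ℝ) * J)

/-- total error -/
noncomputable def Err (J0 J : ℕ) : ℝ :=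
  (J : ℝ) ^ 2 * (gJ J + 1) + 2 * (W J + (S J0 : ℝ) * J) + (S J0 : ℝ) ^ 2

lemma Err_nonneg (J0 J : ℕ) : 0 ≤ Err J0 J := by
  have := gJ_nonneg J
  unfold Err W
  positivity

lemma sum_b_real (J : ℕ) : ∑ j ∈ Finset.range J, (b j : ℝ) = S J := by
  induction J with
  | zero => simp [S]
  | succ J ih => rw [Finset.sum_range_succ, ih, S_succ]; push_cast; ring

variable [Mult] {α : ℝ} {J0 : ℕ}

lemma cnt_mono {N N' : ℕ} (hN : N ≤ N') (h : ℝ) : cnt α N h ≤ cnt α N' h := by
  unfold cnt
  have hsub : Finset.range N ⊆ Finset.range N' := Finset.range_subset_range.mpr hN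
  calc ∑ k ∈ Finset.range N, ∑ l ∈ Finset.range N, ind α h k l
      ≤ ∑ k ∈ Finset.range N, ∑ l ∈ Finset.range N', ind α h k l :=
        Finset.sum_le_sum (fun k _ => Finset.sum_le_sum_of_subset hsub)
    _ ≤ ∑ k ∈ Finset.range N', ∑ l ∈ Finset.range N', ind α h k l :=
        Finset.sum_le_sum_of_subset hsub

omit [Mult] in
private lemma sum_range_S {M : Type*} [AddCommMonoid M] (F : ℕ → M) (J : ℕ) :
    ∑ k ∈ Finset.range (S J), F k = ∑ j ∈ Finset.range J, ∑ u ∈ Finset.range (b j), F (S j + u) := by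
  induction J with
  | zero => simp [S]
  | succ J ih => rw [S_succ, Finset.sum_range_add, ih, Finset.sum_range_succ]

/-- number of close pairs between two blocks -/
private noncomputable def crossB (α : ℝ) (i j : ℕ) (h : ℝ) : ℕ :=
  cross (b i) (b j) (fun u => X α (S i + u)) (fun v => X α (S j + v)) h

/-- number of close pairs within a block -/
private noncomputable def selfB (α : ℝ) (j : ℕ) (h : ℝ) : ℕ :=
  ∑ u ∈ Finset.range (b j), ∑ v ∈ Finset.range (b j), ind α h (S j + u) (S j + v)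

omit [Mult] in
private lemma ne_of_blocks {i j u v : ℕ} (hij : i ≠ j) (hu : u < b i) (hv : v < b j) :
    S i + u ≠ S j + v := by
  intro h
  have h1 := blk_add hu
  have h2 := blk_add hv
  rw [h] at h1
  exact hij (h1.symm.trans h2)

private lemma crossB_eq {i j : ℕ} (hij : i ≠ j) (h : ℝ) :
    ∑ u ∈ Finset.range (b i), ∑ v ∈ Finset.range (b j), ind α h (S i + u) (S j + v)
      = crossB α i j h := by
  unfold crossB cross
  rw [Finset.card_filter, Finset.sum_product]
  apply Finset.sum_congr rfl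
  intro u hu
  apply Finset.sum_congr rfl
  intro v hv
  unfold ind
  have := ne_of_blocks hij (Finset.mem_range.mp hu) (Finset.mem_range.mp hv)
  simp [this]

private lemma cnt_S (J : ℕ) (h : ℝ) :
    cnt α (S J) h = ∑ i ∈ Finset.range J, ∑ j ∈ Finset.range J,
      (if i = j then selfB α j h else crossB α i j h) := by
  unfold cnt
  rw [sum_range_S]
  apply Finset.sum_congr rfl
  intro i _
  calc ∑ u ∈ Finset.range (b i), ∑ l ∈ Finset.range (S J), ind α h (S i + u) l
      = ∑ u ∈ Finset.range (b i), ∑ j ∈ Finset.range J, ∑ v ∈ Finset.range (b j),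
          ind α h (S i + u) (S j + v) := by
        apply Finset.sum_congr rfl
        intro u _
        rw [sum_range_S]
    _ = ∑ j ∈ Finset.range J, ∑ u ∈ Finset.range (b i), ∑ v ∈ Finset.range (b j),
          ind α h (S i + u) (S j + v) := Finset.sum_comm
    _ = _ := by
        apply Finset.sum_congr rfl
        intro j _
        by_cases hij : i = j
        · subst hij
          rw [if_pos rfl]
          rfl
        · rw [if_neg hij, crossB_eq hij]

omit [Mult] in
private lemma two_eps_b_le (j : ℕ) {t : ℝ} (ht : t ≤ S (j + 1) + 1) :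
    2 * eps j * b j * t ≤ (1 / 2) ^ j := by
  refine le_trans ?_ (eps_bound j)
  apply mul_le_mul_of_nonneg_left ht
  have := (eps_pos j).le
  positivity

private lemma eqB {j : ℕ} (hj : Near j α) : EqB (b j) (eps j) (fun u => X α (S j + u)) := by
  obtain ⟨c, hc, hx⟩ := hj
  have hb : (0 : ℝ) < b j := by exact_mod_cast b_pos j
  have h1 := eqB_of (b_pos j) hc hx
  have h2 : (b j : ℝ) * eta j = eps j := by
    unfold eta
    field_simp
  rw [h2] at h1
  obtain ⟨σ, h3, h4, h5⟩ := h1
  refine ⟨σ, h3, h4, fun v hv => ?_⟩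
  have h6 := h5 v hv
  have h7 : X α (S j + σ v) = ((σ v : ℝ) + 1) * (d j * α) := by
    unfold X
    rw [a0_add (h3 v hv)]
    push_cast
    ring
  show distInt (X α (S j + σ v) - _) ≤ _
  rw [h7]
  exact h6

private lemma selfB_eq_zero {j : ℕ} (hj : Near j α) {h : ℝ} (hh : h ≤ 1 / (2 * b j)) :
    selfB α j h = 0 := by
  unfold selfB
  apply Finset.sum_eq_zero
  intro u hu
  apply Finset.sum_eq_zero
  intro v hv
  rw [Finset.mem_range] at hu hv
  unfold ind
  rw [if_neg]
  rintro ⟨hne, hlt⟩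
  have huv : u ≠ v := by rintro rfl; exact hne rfl
  have hb : (0 : ℝ) < b j := by exact_mod_cast b_pos j
  have h6 : 2 * eps j * b j * 2 ≤ (1 / 2) ^ j := by
    apply two_eps_b_le
    have : 1 ≤ S (j + 1) := le_trans (by omega) (le_S (j + 1))
    have : (1 : ℝ) ≤ S (j + 1) := by exact_mod_cast this
    linarith
  have h7 : ((1 : ℝ) / 2) ^ j ≤ 1 := pow_le_one₀ (by norm_num) (by norm_num)
  have h8 : 2 * eps j ≤ 1 / (2 * b j) := by
    rw [le_div_iff₀ (by positivity)]
    linarith
  have h9 : 1 / (b j : ℝ) = 1 / (2 * b j) + 1 / (2 * b j) := by field_simp; norm_num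
  exact (eqB hj).self (b_pos j) (by rw [h9]; linarith) hu hv huv hlt

private lemma selfB_le (j : ℕ) (h : ℝ) : (selfB α j h : ℝ) ≤ (b j : ℝ) * b j := by
  have h1 : selfB α j h ≤ b j * b j := by
    unfold selfB
    calc ∑ u ∈ Finset.range (b j), ∑ v ∈ Finset.range (b j), ind α h (S j + u) (S j + v)
        ≤ ∑ _u ∈ Finset.range (b j), ∑ _v ∈ Finset.range (b j), 1 := by
          refine Finset.sum_le_sum fun u _ => Finset.sum_le_sum fun v _ => ?_
          unfold ind
          split_ifs <;> simp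
      _ = b j * b j := by simp
  exact_mod_cast h1

private lemma crossB_le_mul (i j : ℕ) (h : ℝ) : (crossB α i j h : ℝ) ≤ (b i : ℝ) * b j := by
  have h1 : crossB α i j h ≤ b i * b j := by
    unfold crossB cross
    refine (Finset.card_filter_le _ _).trans ?_
    simp
  exact_mod_cast h1

/-- perturbation part of the error -/
private noncomputable def w0 (i j : ℕ) : ℝ := min ((1 / 2) ^ i * (b j : ℝ)) (b i)

/-- the part of the error from the bad blocks -/
private noncomputable def w1 (J0 i : ℕ) : ℝ := if i < J0 then (b i : ℝ) else 0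

/-- pairs of bad blocks -/
private noncomputable def zz (J0 i j : ℕ) : ℝ := w1 J0 i * w1 J0 j

omit [Mult] in
private lemma w0_nonneg (i j : ℕ) : 0 ≤ w0 i j := by unfold w0; positivity

omit [Mult] in
private lemma w1_nonneg (J0 i : ℕ) : 0 ≤ w1 J0 i := by
  unfold w1; split_ifs <;> positivity

omit [Mult] in
private lemma zz_nonneg (J0 i j : ℕ) : 0 ≤ zz J0 i j := mul_nonneg (w1_nonneg _ _) (w1_nonneg _ _)

omit [Mult] in
private lemma zz_of_lt {J0 i j : ℕ} (hi : i < J0) (hj : j < J0) : zz J0 i j = (b i : ℝ) * b j := by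
  unfold zz w1
  rw [if_pos hi, if_pos hj]

omit [Mult] in
private lemma eps_bi_bj {i j : ℕ} (hij : i < j) : 2 * eps j * (b i * b j) ≤ 1 := by
  have h1 : (b i : ℝ) ≤ S (j + 1) + 1 := by
    have h2 : b i ≤ S (j + 1) := le_trans (b_le_S i) (S_mono (by omega))
    have h3 : (b i : ℝ) ≤ S (j + 1) := by exact_mod_cast h2
    linarith
  have h4 := two_eps_b_le j h1
  have h7 : ((1 : ℝ) / 2) ^ j ≤ 1 := pow_le_one₀ (by norm_num) (by norm_num)
  calc 2 * eps j * (b i * b j) = 2 * eps j * b j * b i := by ring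
    _ ≤ (1 / 2) ^ j := h4
    _ ≤ 1 := h7

omit [Mult] in
private lemma eps_i {i j : ℕ} : 2 * eps i * (b i * b j) ≤ (1 / 2) ^ i * (b j : ℝ) := by
  have h4 := two_eps_b_le i (t := 1) (by
    have : (0 : ℝ) ≤ S (i + 1) := by positivity
    linarith)
  have : 2 * eps i * (b i * b j) = (2 * eps i * b i * 1) * b j := by ring
  rw [this]
  exact mul_le_mul_of_nonneg_right h4 (by positivity)

private lemma crossB_le_of_lt (hα : ∀ j, J0 ≤ j → Near j α) {i j J : ℕ} (hij : i < j) (hj : j < J)
    {h : ℝ} (hh : 0 ≤ h) :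
    (crossB α i j h : ℝ) ≤ 2 * h * (b i * b j) + (gJ J + 1) + (w0 i j + w1 J0 i) + zz J0 i j := by
  have h6 := gJ_nonneg J
  have hw0 := w0_nonneg i j
  have hw1 := w1_nonneg J0 i
  have hz := zz_nonneg J0 i j
  have hbb : (0 : ℝ) ≤ (b i : ℝ) * b j := by positivity
  rcases lt_or_ge j J0 with hjJ | hjJ
  · rw [zz_of_lt (hij.trans hjJ) hjJ]
    have h1 := crossB_le_mul (α := α) i j h
    have h2 : 0 ≤ 2 * h * ((b i : ℝ) * b j) := by positivity
    linarith
  · have hY := eqB (hα j hjJ)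
    have h2 := hY.cross_le' (b := b i) (X := fun u => X α (S i + u)) (b_pos j) (eps_pos j).le hh
    have h3 := eps_bi_bj hij
    rcases lt_or_ge i J0 with hi | hi
    · have h4 : w1 J0 i = b i := by unfold w1; rw [if_pos hi]
      rw [h4]
      have h5 : (crossB α i j h : ℝ) ≤ 2 * (h + eps j) * (b i * b j) + b i := h2
      nlinarith
    · have hX := eqB (hα i hi)
      have h1 := EqB.cross_le (b_pos i) (b_pos j) hX hY (eps_pos i).le (eps_pos j).le hh
      have h4 := eps_i (i := i) (j := j)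
      have h5 := gcd_le (lt_trans hij hj) hj hij.ne
      have h1' : (crossB α i j h : ℝ) ≤ 2 * (h + eps i + eps j) * (b i * b j) + Nat.gcd (b i) (b j) := h1
      have h2' : (crossB α i j h : ℝ) ≤ 2 * (h + eps j) * (b i * b j) + b i := h2
      rcases le_total ((1 / 2) ^ i * (b j : ℝ)) (b i) with hm | hm
      · have e : w0 i j = (1 / 2) ^ i * (b j : ℝ) := min_eq_left hm
        rw [e]
        unfold gJ at *
        nlinarith
      · have e : w0 i j = b i := min_eq_right hm
        rw [e]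
        nlinarith

private lemma le_crossB_of_lt (hα : ∀ j, J0 ≤ j → Near j α) {i j J : ℕ} (hij : i < j) (hj : j < J)
    {h : ℝ} (hh0 : 0 ≤ h) (hh : h ≤ 1 / 2) :
    2 * h * (b i * b j) - (gJ J + 1) - (w0 i j + w1 J0 i) - zz J0 i j ≤ (crossB α i j h : ℝ) := by
  have h6 := gJ_nonneg J
  have hw0 := w0_nonneg i j
  have hw1 := w1_nonneg J0 i
  have hz := zz_nonneg J0 i j
  have hbb : (0 : ℝ) ≤ (b i : ℝ) * b j := by positivity
  rcases lt_or_ge j J0 with hjJ | hjJ
  · rw [zz_of_lt (hij.trans hjJ) hjJ]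
    have h1 : (0 : ℝ) ≤ (crossB α i j h : ℝ) := by positivity
    have h2 : 2 * h * ((b i : ℝ) * b j) ≤ (b i : ℝ) * b j := by nlinarith
    linarith
  · have hY := eqB (hα j hjJ)
    have h2 := hY.le_cross' (b := b i) (X := fun u => X α (S i + u)) (b_pos j) (eps_pos j).le hh
    have h3 := eps_bi_bj hij
    rcases lt_or_ge i J0 with hi | hi
    · have h4 : w1 J0 i = b i := by unfold w1; rw [if_pos hi]
      rw [h4]
      have h5 : 2 * (h - eps j) * (b i * b j) - b i ≤ (crossB α i j h : ℝ) := h2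
      nlinarith
    · have hX := eqB (hα i hi)
      have h1 := EqB.le_cross (b_pos i) (b_pos j) hX hY (eps_pos i).le (eps_pos j).le hh
      have h4 := eps_i (i := i) (j := j)
      have h5 := gcd_le (lt_trans hij hj) hj hij.ne
      have h1' : 2 * (h - eps i - eps j) * (b i * b j) - Nat.gcd (b i) (b j) ≤ (crossB α i j h : ℝ) := h1
      have h2' : 2 * (h - eps j) * (b i * b j) - b i ≤ (crossB α i j h : ℝ) := h2
      rcases le_total ((1 / 2) ^ i * (b j : ℝ)) (b i) with hm | hm
      · have e : w0 i j = (1 / 2) ^ i * (b j : ℝ) := min_eq_left hm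
        rw [e]
        unfold gJ at *
        nlinarith
      · have e : w0 i j = b i := min_eq_right hm
        rw [e]
        nlinarith

private lemma crossB_symm (i j : ℕ) (h : ℝ) : crossB α i j h = crossB α j i h :=
  Pool.Agent.H53.PPC.cross_symm _ _ _ _ _

/-- symmetric error -/
private noncomputable def er (J0 i j : ℕ) : ℝ := (w0 i j + w1 J0 i) + (w0 j i + w1 J0 j)

private lemma crossB_le (hα : ∀ j, J0 ≤ j → Near j α) {i j J : ℕ} (hij : i ≠ j) (hi : i < J)
    (hj : j < J) {h : ℝ} (hh : 0 ≤ h) :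
    (crossB α i j h : ℝ) ≤ 2 * h * (b i * b j) + (gJ J + 1) + er J0 i j + zz J0 i j := by
  unfold er
  rcases lt_or_gt_of_ne hij with h1 | h1
  · have := crossB_le_of_lt hα h1 hj hh
    have := w0_nonneg j i
    have := w1_nonneg J0 j
    linarith
  · rw [crossB_symm]
    have := crossB_le_of_lt hα h1 hi hh
    have := w0_nonneg i j
    have := w1_nonneg J0 i
    have e : 2 * h * ((b j : ℝ) * b i) = 2 * h * (b i * b j) := by ring
    have e' : zz J0 j i = zz J0 i j := mul_comm _ _
    linarith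

private lemma le_crossB (hα : ∀ j, J0 ≤ j → Near j α) {i j J : ℕ} (hij : i ≠ j) (hi : i < J)
    (hj : j < J) {h : ℝ} (hh0 : 0 ≤ h) (hh : h ≤ 1 / 2) :
    2 * h * (b i * b j) - (gJ J + 1) - er J0 i j - zz J0 i j ≤ (crossB α i j h : ℝ) := by
  unfold er
  rcases lt_or_gt_of_ne hij with h1 | h1
  · have := le_crossB_of_lt hα h1 hj hh0 hh
    have := w0_nonneg j i
    have := w1_nonneg J0 j
    linarith
  · rw [crossB_symm]
    have := le_crossB_of_lt hα h1 hi hh0 hh
    have := w0_nonneg i j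
    have := w1_nonneg J0 i
    have e : 2 * h * ((b j : ℝ) * b i) = 2 * h * (b i * b j) := by ring
    have e' : zz J0 j i = zz J0 i j := mul_comm _ _
    linarith

omit [Mult] in
private lemma sum_w0_le (J : ℕ) :
    ∑ i ∈ Finset.range J, ∑ j ∈ Finset.range J, w0 i j ≤ W J := by
  unfold W
  apply Finset.sum_le_sum
  intro i _
  apply le_min
  · calc ∑ j ∈ Finset.range J, w0 i j ≤ ∑ j ∈ Finset.range J, (1 / 2) ^ i * (b j : ℝ) :=
        Finset.sum_le_sum (fun j _ => min_le_left _ _)
      _ = (1 / 2) ^ i * (S J : ℝ) := by rw [← Finset.mul_sum, sum_b_real]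
  · calc ∑ j ∈ Finset.range J, w0 i j ≤ ∑ j ∈ Finset.range J, (b i : ℝ) :=
        Finset.sum_le_sum (fun j _ => min_le_right _ _)
      _ = (b i : ℝ) * J := by rw [Finset.sum_const, Finset.card_range, nsmul_eq_mul, mul_comm]

omit [Mult] in
private lemma sum_w1_le (J0 J : ℕ) : ∑ i ∈ Finset.range J, w1 J0 i ≤ S J0 := by
  unfold w1
  rw [← Finset.sum_filter, ← sum_b_real]
  refine Finset.sum_le_sum_of_subset_of_nonneg ?_ fun i _ _ => by positivity
  intro i hi
  rw [Finset.mem_filter] at hi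
  exact Finset.mem_range.2 hi.2

omit [Mult] in
private lemma sum_er (J0 J : ℕ) :
    ∑ i ∈ Finset.range J, ∑ j ∈ Finset.range J, er J0 i j ≤ 2 * (W J + (S J0 : ℝ) * J) := by
  have h1 := sum_w0_le J
  have h2 := sum_w1_le J0 J
  have e1 : ∑ i ∈ Finset.range J, ∑ j ∈ Finset.range J, er J0 i j =
      (∑ i ∈ Finset.range J, ∑ j ∈ Finset.range J, (w0 i j + w1 J0 i)) +
        ∑ i ∈ Finset.range J, ∑ j ∈ Finset.range J, (w0 j i + w1 J0 j) := by
    rw [← Finset.sum_add_distrib]
    exact Finset.sum_congr rfl (fun i _ => Finset.sum_add_distrib)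
  have e2 : ∑ i ∈ Finset.range J, ∑ j ∈ Finset.range J, (w0 i j + w1 J0 i) =
      (∑ i ∈ Finset.range J, ∑ j ∈ Finset.range J, w0 i j) + J * ∑ i ∈ Finset.range J, w1 J0 i := by
    rw [Finset.mul_sum, ← Finset.sum_add_distrib]
    refine Finset.sum_congr rfl fun i _ => ?_
    rw [Finset.sum_add_distrib, Finset.sum_const, Finset.card_range, nsmul_eq_mul]
  rw [e1, Finset.sum_comm (f := fun i j => w0 j i + w1 J0 j), e2]
  have h3 : (J : ℝ) * ∑ i ∈ Finset.range J, w1 J0 i ≤ (J : ℝ) * S J0 :=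
    mul_le_mul_of_nonneg_left h2 (by positivity)
  nlinarith

omit [Mult] in
private lemma sum_zz (J0 J : ℕ) :
    ∑ i ∈ Finset.range J, ∑ j ∈ Finset.range J, zz J0 i j ≤ (S J0 : ℝ) ^ 2 := by
  have h2 := sum_w1_le J0 J
  have h3 : 0 ≤ ∑ i ∈ Finset.range J, w1 J0 i := Finset.sum_nonneg fun i _ => w1_nonneg J0 i
  have e : ∑ i ∈ Finset.range J, ∑ j ∈ Finset.range J, zz J0 i j =
      (∑ i ∈ Finset.range J, w1 J0 i) * ∑ j ∈ Finset.range J, w1 J0 j := by
    rw [Finset.sum_mul_sum]
    rfl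
  rw [e, sq]
  exact mul_le_mul h2 h2 h3 (by positivity)

omit [Mult] in
private lemma sum_bb (J : ℕ) (h : ℝ) :
    ∑ i ∈ Finset.range J, ∑ j ∈ Finset.range J, 2 * h * ((b i : ℝ) * b j)
      = 2 * h * (S J : ℝ) ^ 2 := by
  rw [sq, ← sum_b_real, Finset.sum_mul_sum, Finset.mul_sum]
  apply Finset.sum_congr rfl
  intro i _
  rw [Finset.mul_sum]

lemma cnt_S_le (hα : ∀ j, J0 ≤ j → Near j α) {J : ℕ} {h : ℝ} (hh : 0 ≤ h) (hh2 : h ≤ 1 / 2)
    (hself : ∀ j < J, h ≤ 1 / (2 * b j)) :
    (cnt α (S J) h : ℝ) ≤ 2 * h * (S J : ℝ) ^ 2 + Err J0 J := by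
  rw [cnt_S]
  simp only [Nat.cast_sum]
  have h1 : ∀ i ∈ Finset.range J, ∀ j ∈ Finset.range J,
      ((if i = j then selfB α j h else crossB α i j h : ℕ) : ℝ) ≤
        2 * h * (b i * b j) + (gJ J + 1) + er J0 i j + zz J0 i j := by
    intro i hi j hj
    rw [Finset.mem_range] at hi hj
    by_cases hij : i = j
    · subst hij
      have h2 := gJ_nonneg J
      have h3 : 0 ≤ er J0 i i := by
        have := w0_nonneg i i
        have := w1_nonneg J0 i
        unfold er
        linarith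
      have h4 : 0 ≤ 2 * h * ((b i : ℝ) * b i) := by positivity
      have h5 := zz_nonneg J0 i i
      rw [if_pos rfl]
      rcases lt_or_ge i J0 with hi0 | hi0
      · have h6 := selfB_le (α := α) i h
        rw [zz_of_lt hi0 hi0]
        linarith
      · rw [selfB_eq_zero (hα i hi0) (hself i hj)]
        push_cast
        linarith
    · rw [if_neg hij]
      exact crossB_le hα hij hi hj hh
  calc ∑ i ∈ Finset.range J, ∑ j ∈ Finset.range J,
        ((if i = j then selfB α j h else crossB α i j h : ℕ) : ℝ)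
      ≤ ∑ i ∈ Finset.range J, ∑ j ∈ Finset.range J,
        (2 * h * (b i * b j) + (gJ J + 1) + er J0 i j + zz J0 i j) :=
        Finset.sum_le_sum (fun i hi => Finset.sum_le_sum (fun j hj => h1 i hi j hj))
    _ = 2 * h * (S J : ℝ) ^ 2 + (J : ℝ) ^ 2 * (gJ J + 1)
        + ∑ i ∈ Finset.range J, ∑ j ∈ Finset.range J, er J0 i j
        + ∑ i ∈ Finset.range J, ∑ j ∈ Finset.range J, zz J0 i j := by
        simp only [Finset.sum_add_distrib]
        rw [sum_bb]
        simp only [Finset.sum_const, Finset.card_range, nsmul_eq_mul]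
        ring
    _ ≤ 2 * h * (S J : ℝ) ^ 2 + Err J0 J := by
        unfold Err
        have := sum_er J0 J
        have := sum_zz J0 J
        linarith

lemma le_cnt_S (hα : ∀ j, J0 ≤ j → Near j α) {J : ℕ} {h : ℝ} (hh0 : 0 ≤ h) (hh : h ≤ 1 / 2) :
    2 * h * ((S J : ℝ) ^ 2 - ∑ j ∈ Finset.range J, (b j : ℝ) ^ 2) - Err J0 J ≤
      (cnt α (S J) h : ℝ) := by
  rw [cnt_S]
  simp only [Nat.cast_sum]
  have h1 : ∀ i ∈ Finset.range J, ∀ j ∈ Finset.range J,
      2 * h * (b i * b j) - (if i = j then 2 * h * (b j : ℝ) ^ 2 else 0)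
        - (gJ J + 1) - er J0 i j - zz J0 i j ≤
      ((if i = j then selfB α j h else crossB α i j h : ℕ) : ℝ) := by
    intro i hi j hj
    rw [Finset.mem_range] at hi hj
    by_cases hij : i = j
    · subst hij
      rw [if_pos rfl, if_pos rfl]
      have h2 := gJ_nonneg J
      have h3 : 0 ≤ er J0 i i := by
        have := w0_nonneg i i
        have := w1_nonneg J0 i
        unfold er
        linarith
      have h5 := zz_nonneg J0 i i
      have h0 : (0 : ℝ) ≤ (selfB α i h : ℝ) := by positivity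
      nlinarith
    · rw [if_neg hij, if_neg hij, sub_zero]
      exact le_crossB hα hij hi hj hh0 hh
  refine le_trans ?_ (Finset.sum_le_sum (fun i hi => Finset.sum_le_sum (fun j hj => h1 i hi j hj)))
  have e2 : ∑ i ∈ Finset.range J, ∑ j ∈ Finset.range J,
      (if i = j then 2 * h * (b j : ℝ) ^ 2 else 0) = 2 * h * ∑ j ∈ Finset.range J, (b j : ℝ) ^ 2 := by
    rw [Finset.mul_sum]
    apply Finset.sum_congr rfl
    intro i hi
    rw [Finset.sum_ite_eq, if_pos hi]
  have e3 : ∑ i ∈ Finset.range J, ∑ j ∈ Finset.range J, (gJ J + 1) = (J : ℝ) ^ 2 * (gJ J + 1) := by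
    simp only [Finset.sum_const, Finset.card_range, nsmul_eq_mul]
    ring
  simp only [Finset.sum_sub_distrib]
  rw [sum_bb, e2, e3]
  have := sum_er J0 J
  have := sum_zz J0 J
  unfold Err
  linarith

end Pool.Agent.H1.PP
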