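import Pool.Agent.H1.PP.Seq

/-!
# Module Blk: permuted equally spaced blocks

`eqB_of`: with `c c' ≡ 1 (mod bb)` (`IsCoprime`), `σ v = ((v c' - 1) mod bb).toNat`, so `(σ v + 1) c ≡ v (mod bb)`; `σ v = σ v'` implies `v ≡ v'`;
`(σ v + 1) x - v / bb = (σ v + 1)(x - c / bb) + integer`, `distInt_natMul_le`, `σ v + 1 ≤ bb`.
Cross lemmas: `σ` is a bijection of `range bb`, `cross b b' (X ∘ σ) (Y ∘ σ') h = cross b b' X Y h` (`Finset.card_bij` or a sum over a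
permutation: `Finset.card_nbij`, injective + finite = surjective, `Finset.surj_on_of_inj_on_of_card_le` / `Finset.eq_of_subset_of_card_le`),
then `cross_le`, `le_cross`, `cross_le'`, `le_cross'` of H53/PPC/Cross.lean with `c = c' = 0`. (For the last two only `Y` is permuted.)
`EqB.self`: `u = σ u'`, `v = σ v'`, `u' ≠ v'`, `distInt (u'/bb - v'/bb) ≥ 1/bb` (`distInt_div_ge` in H53/PPC/At.lean: copy its proof).
-/

set_option autoImplicit false

namespace Pool.Agent.H1.PP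

open Filter Topology Finset
open Pool.Agent.H53.PPC

/-- the family `Y` of `bb` points is a permutation of an almost equally spaced one -/
def EqB (bb : ℕ) (ε : ℝ) (Y : ℕ → ℝ) : Prop :=
  ∃ σ : ℕ → ℕ, (∀ v < bb, σ v < bb) ∧ (∀ v < bb, ∀ v' < bb, σ v = σ v' → v = v') ∧
    ∀ v < bb, distInt (Y (σ v) - (v : ℝ) / bb) ≤ ε

lemma eqB_of {bb : ℕ} (hb : 0 < bb) {c : ℤ} (hc : IsCoprime c (bb : ℤ)) {x η : ℝ}
    (hx : distInt (x - c / bb) ≤ η) : EqB bb (bb * η) (fun u => ((u : ℝ) + 1) * x) := by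
  obtain ⟨p, q, hpq⟩ := hc
  have hbz : (0 : ℤ) < bb := by exact_mod_cast hb
  have hbr : (0 : ℝ) < bb := by exact_mod_cast hb
  have key : ∀ v : ℕ, ((((v * p - 1) % (bb : ℤ)).toNat : ℤ) + 1) * c - v =
      (bb : ℤ) * (-(v * q) - (v * p - 1) / (bb : ℤ) * c) := by
    intro v
    rw [Int.toNat_of_nonneg (Int.emod_nonneg _ hbz.ne')]
    have h1 := Int.emod_add_mul_ediv (v * p - 1) (bb : ℤ)
    have h2 : (v * p - 1) % (bb : ℤ) = v * p - 1 - (bb : ℤ) * ((v * p - 1) / (bb : ℤ)) := by linarith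
    rw [h2]
    linear_combination (v : ℤ) * hpq
  have lt : ∀ v : ℕ, ((v * p - 1) % (bb : ℤ)).toNat < bb := by
    intro v
    have h1 := Int.emod_lt_of_pos (v * p - 1) hbz
    have h2 := Int.emod_nonneg (v * p - 1) hbz.ne'
    omega
  refine ⟨fun v => ((v * p - 1) % (bb : ℤ)).toNat, fun v _ => lt v, ?_, ?_⟩
  · intro v hv v' hv' h
    have h1 := key v
    have h2 := key v'
    simp only at h
    rw [h] at h1
    have h3 : (bb : ℤ) ∣ (v : ℤ) - v' :=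
      ⟨(-(v' * q) - (v' * p - 1) / (bb : ℤ) * c) - (-(v * q) - (v * p - 1) / (bb : ℤ) * c), by
        rw [mul_sub, ← h1, ← h2]
        ring⟩
    have h4 : |(v : ℤ) - v'| < bb := by
      rw [abs_lt]
      constructor <;> omega
    have h5 := Int.eq_zero_of_abs_lt_dvd h3 h4
    omega
  · intro v _
    set w := ((v * p - 1) % (bb : ℤ)).toNat with hw
    have h1 : ((w : ℝ) + 1) * c - v = bb * (((-(v * q) - (v * p - 1) / (bb : ℤ) * c : ℤ)) : ℝ) := by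
      exact_mod_cast key v
    have e : ((w : ℝ) + 1) * x - (v : ℝ) / bb =
        ((w + 1 : ℕ) : ℝ) * (x - c / bb) + ((-(v * q) - (v * p - 1) / (bb : ℤ) * c : ℤ) : ℝ) := by
      have h2 : (((-(v * q) - (v * p - 1) / (bb : ℤ) * c : ℤ)) : ℝ) = (((w : ℝ) + 1) * c - v) / bb := by
        rw [h1]
        field_simp
      rw [h2]
      push_cast
      field_simp
      ring
    show distInt (((w : ℝ) + 1) * x - (v : ℝ) / bb) ≤ bb * η
    rw [e, distInt_add_int]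
    have h3 := distInt_natMul_le (w + 1) (x - c / bb)
    have h4 : ((w + 1 : ℕ) : ℝ) ≤ bb := by exact_mod_cast lt v
    calc distInt (((w + 1 : ℕ) : ℝ) * (x - c / bb)) ≤ ((w + 1 : ℕ) : ℝ) * distInt (x - c / bb) := h3
      _ ≤ bb * distInt (x - c / bb) := mul_le_mul_of_nonneg_right h4 (distInt_nonneg _)
      _ ≤ bb * η := mul_le_mul_of_nonneg_left hx hbr.le

private lemma perm_surj {b : ℕ} {σ : ℕ → ℕ} (h1 : ∀ v < b, σ v < b) (h2 : ∀ v < b, ∀ v' < b, σ v = σ v' → v = v') :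
    ∀ u < b, ∃ v < b, σ v = u := by
  intro u hu
  have h3 : (Finset.range b).image σ = Finset.range b := by
    apply Finset.eq_of_subset_of_card_le
    · intro x hx
      obtain ⟨v, hv, rfl⟩ := Finset.mem_image.1 hx
      exact Finset.mem_range.2 (h1 v (Finset.mem_range.1 hv))
    · rw [Finset.card_image_of_injOn]
      intro x hx y hy hxy
      exact h2 x (Finset.mem_range.1 hx) y (Finset.mem_range.1 hy) hxy
  have h4 : u ∈ (Finset.range b).image σ := by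
    rw [h3]
    exact Finset.mem_range.2 hu
  obtain ⟨v, hv, h5⟩ := Finset.mem_image.1 h4
  exact ⟨v, Finset.mem_range.1 hv, h5⟩

private lemma cross_perm {b b' : ℕ} {σ σ' : ℕ → ℕ} (h1 : ∀ v < b, σ v < b) (h2 : ∀ v < b, ∀ v' < b, σ v = σ v' → v = v')
    (h1' : ∀ v < b', σ' v < b') (h2' : ∀ v < b', ∀ v' < b', σ' v = σ' v' → v = v') (X Y : ℕ → ℝ) (h : ℝ) :
    cross b b' (fun u => X (σ u)) (fun v => Y (σ' v)) h = cross b b' X Y h := by
  unfold cross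
  apply Finset.card_bij (fun p _ => (σ p.1, σ' p.2))
  · intro p hp
    simp only [Finset.mem_filter, Finset.mem_product, Finset.mem_range] at hp ⊢
    exact ⟨⟨h1 _ hp.1.1, h1' _ hp.1.2⟩, hp.2⟩
  · rintro ⟨p1, p2⟩ hp ⟨q1, q2⟩ hq hpq
    simp only [Finset.mem_filter, Finset.mem_product, Finset.mem_range] at hp hq
    simp only [Prod.mk.injEq] at hpq ⊢
    exact ⟨h2 _ hp.1.1 _ hq.1.1 hpq.1, h2' _ hp.1.2 _ hq.1.2 hpq.2⟩
  · rintro ⟨p1, p2⟩ hp
    simp only [Finset.mem_filter, Finset.mem_product, Finset.mem_range] at hp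
    obtain ⟨u, hu, hu'⟩ := perm_surj h1 h2 p1 hp.1.1
    obtain ⟨v, hv, hv'⟩ := perm_surj h1' h2' p2 hp.1.2
    refine ⟨(u, v), ?_, by simp only [hu', hv']⟩
    simp only [Finset.mem_filter, Finset.mem_product, Finset.mem_range]
    refine ⟨⟨hu, hv⟩, ?_⟩
    rw [hu', hv']
    exact hp.2

lemma EqB.cross_le {b b' : ℕ} (hb : 0 < b) (hb' : 0 < b') {X Y : ℕ → ℝ} {ε ε' h : ℝ}
    (hX : EqB b ε X) (hY : EqB b' ε' Y) (hε : 0 ≤ ε) (hε' : 0 ≤ ε') (hh : 0 ≤ h) :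
    (cross b b' X Y h : ℝ) ≤ 2 * (h + ε + ε') * (b * b') + Nat.gcd b b' := by
  obtain ⟨σ, h1, h2, h3⟩ := hX
  obtain ⟨σ', h1', h2', h3'⟩ := hY
  rw [← cross_perm h1 h2 h1' h2' X Y h]
  exact Pool.Agent.H53.PPC.cross_le b b' hb hb' _ _ 0 0 ε ε' h (fun u hu => by rw [add_zero]; exact h3 u hu)
    (fun v hv => by rw [add_zero]; exact h3' v hv) hε hε' hh

lemma EqB.le_cross {b b' : ℕ} (hb : 0 < b) (hb' : 0 < b') {X Y : ℕ → ℝ} {ε ε' h : ℝ}
    (hX : EqB b ε X) (hY : EqB b' ε' Y) (hε : 0 ≤ ε) (hε' : 0 ≤ ε') (hh : h ≤ 1 / 2) :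
    2 * (h - ε - ε') * (b * b') - Nat.gcd b b' ≤ (cross b b' X Y h : ℝ) := by
  obtain ⟨σ, h1, h2, h3⟩ := hX
  obtain ⟨σ', h1', h2', h3'⟩ := hY
  rw [← cross_perm h1 h2 h1' h2' X Y h]
  exact Pool.Agent.H53.PPC.le_cross b b' hb hb' _ _ 0 0 ε ε' h (fun u hu => by rw [add_zero]; exact h3 u hu)
    (fun v hv => by rw [add_zero]; exact h3' v hv) hε hε' hh

lemma EqB.cross_le' {b b' : ℕ} (hb' : 0 < b') {X Y : ℕ → ℝ} {ε' h : ℝ}
    (hY : EqB b' ε' Y) (hε' : 0 ≤ ε') (hh : 0 ≤ h) :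
    (cross b b' X Y h : ℝ) ≤ 2 * (h + ε') * (b * b') + b := by
  obtain ⟨σ', h1', h2', h3'⟩ := hY
  rw [← cross_perm (σ := id) (fun v hv => hv) (fun v _ v' _ h => h) h1' h2' X Y h]
  exact Pool.Agent.H53.PPC.cross_le' b b' hb' _ _ 0 ε' h (fun v hv => by rw [add_zero]; exact h3' v hv) hε' hh

lemma EqB.le_cross' {b b' : ℕ} (hb' : 0 < b') {X Y : ℕ → ℝ} {ε' h : ℝ}
    (hY : EqB b' ε' Y) (hε' : 0 ≤ ε') (hh : h ≤ 1 / 2) :
    2 * (h - ε') * (b * b') - b ≤ (cross b b' X Y h : ℝ) := by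
  obtain ⟨σ', h1', h2', h3'⟩ := hY
  rw [← cross_perm (σ := id) (fun v hv => hv) (fun v _ v' _ h => h) h1' h2' X Y h]
  exact Pool.Agent.H53.PPC.le_cross' b b' hb' _ _ 0 ε' h (fun v hv => by rw [add_zero]; exact h3' v hv) hε' hh

private lemma div_ge {bb : ℕ} (hb : 0 < bb) {u v : ℕ} (hu : u < bb) (hv : v < bb) (huv : u ≠ v) :
    1 / (bb : ℝ) ≤ distInt ((u : ℝ) / bb - (v : ℝ) / bb) := by
  have hbr : (0 : ℝ) < bb := by exact_mod_cast hb
  by_contra hcon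
  push Not at hcon
  rw [distInt_lt_iff] at hcon
  obtain ⟨n, hn⟩ := hcon
  have e : (u : ℝ) / bb - (v : ℝ) / bb - n = (((u : ℤ) - v - n * bb : ℤ) : ℝ) / bb := by
    push_cast; field_simp
  rw [e, abs_div, abs_of_pos hbr, div_lt_div_iff_of_pos_right hbr] at hn
  have h1 : |(u : ℤ) - v - n * bb| < 1 := by exact_mod_cast hn
  have h2 : (u : ℤ) - v - n * bb = 0 := by
    rw [abs_lt] at h1; omega
  have h3 : (bb : ℤ) ∣ (u : ℤ) - v := ⟨n, by linarith⟩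
  have h4 : |(u : ℤ) - v| < bb := by
    rw [abs_lt]
    constructor <;> omega
  have h5 := Int.eq_zero_of_abs_lt_dvd h3 h4
  omega

lemma EqB.self {bb : ℕ} (hb : 0 < bb) {Y : ℕ → ℝ} {ε h : ℝ} (hY : EqB bb ε Y)
    (hh : h + 2 * ε ≤ 1 / bb) {u v : ℕ} (hu : u < bb) (hv : v < bb) (huv : u ≠ v) :
    ¬ distInt (Y u - Y v) < h := by
  intro hlt
  obtain ⟨σ, h1, h2, h3⟩ := hY
  obtain ⟨u', hu', e1⟩ := perm_surj h1 h2 u hu
  obtain ⟨v', hv', e2⟩ := perm_surj h1 h2 v hv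
  have hne : u' ≠ v' := by
    rintro rfl
    exact huv (e1.symm.trans e2)
  have h4 := div_ge hb hu' hv' hne
  have h5 := h3 u' hu'
  have h6 := h3 v' hv'
  rw [e1] at h5
  rw [e2] at h6
  have e : (u' : ℝ) / bb - (v' : ℝ) / bb = (Y u - Y v) - (Y u - (u' : ℝ) / bb) + (Y v - (v' : ℝ) / bb) := by ring
  rw [e] at h4
  have h7 := distInt_add_le ((Y u - Y v) - (Y u - (u' : ℝ) / bb)) (Y v - (v' : ℝ) / bb)
  have h8 := distInt_sub_le (Y u - Y v) (Y u - (u' : ℝ) / bb)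
  linarith

end Pool.Agent.H1.PP
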