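import Pool.Agent.H53.PPC.Defs

/-!
# Module Bohr: simultaneous approximation along a direction (Bohr's mean value argument)

Proof (a variant of Bohr's argument with the kernels `|∑_(l<N) z^l|^2` instead of powers of a sum). Put `e θ = exp (2 π i θ)`, `A i = D α_i`, `C i = c_i x`.
For words `v : Fin r → Fin N` put `S k = ∑_v e (k ∑ v_i A_i - ∑ v_i C_i) = ∏_i ∑_(l<N) e (k A_i - C_i) ^ l`. The mean of `|S k|^2` over `k = K, ..., K+M-1` tends to
`R = #{(v, v') : ∑ (v_i - v'_i) A_i ∈ ℤ}` (in these pairs `∑ (v_i - v'_i) C_i = 0` by `hc`; the other pairs are geometric sums). Let `S_i`, `R_i` be the same numbers for `A`, `C` with the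
`i`-th entries replaced by `0`. Then `R_i ≤ N R` (injection `(v, v') ↦ ((v, v'[i := v i]), v' i)`). If for every `k ≥ K` some `i` has `distInt (k A_i - C_i) > η` then
`|∑_(l<N) e (k A_i - C_i) ^ l| ≤ 2 / (4 η)`, so `|S k|^2 ≤ ∑_i |S_i k|^2 / (4 η^2 N^2)` and in the mean `R ≤ r N R / (4 η^2 N^2)`, that is `4 η^2 N ≤ r` (`R ≥ 1`), a contradiction for large `N`.
-/

set_option autoImplicit false

namespace Pool.Agent.H1.PP

open Filter Topology Finset
open Pool.Agent.H53.PPC (distInt)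

private noncomputable def ee (θ : ℝ) : ℂ := Complex.exp (Complex.I * ((2 * Real.pi * θ : ℝ) : ℂ))

private theorem ee_zero : ee 0 = 1 := by
  simp [ee]

private theorem ee_add (x y : ℝ) : ee (x + y) = ee x * ee y := by
  unfold ee
  rw [← Complex.exp_add]
  congr 1
  push_cast
  ring

private theorem ee_norm (x : ℝ) : ‖ee x‖ = 1 := by
  unfold ee
  rw [mul_comm]
  exact Complex.norm_exp_ofReal_mul_I _

private theorem ee_conj (x : ℝ) : (starRingEnd ℂ) (ee x) = ee (-x) := by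
  unfold ee
  rw [← Complex.exp_conj, map_mul, Complex.conj_I, Complex.conj_ofReal]
  congr 1
  push_cast
  ring

private theorem ee_int (z : ℤ) : ee (z : ℝ) = 1 := by
  unfold ee
  rw [Complex.exp_eq_one_iff]
  refine ⟨z, ?_⟩
  push_cast
  ring

private theorem ee_nat_mul (n : ℕ) (x : ℝ) : ee ((n : ℝ) * x) = ee x ^ n := by
  unfold ee
  rw [← Complex.exp_nat_mul]
  congr 1
  push_cast
  ring

private theorem ee_sum {ι : Type} (s : Finset ι) (f : ι → ℝ) : ee (∑ i ∈ s, f i) = ∏ i ∈ s, ee (f i) := by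
  classical
  induction s using Finset.induction_on with
  | empty => rw [Finset.sum_empty, Finset.prod_empty, ee_zero]
  | insert a s ha ih => rw [Finset.sum_insert ha, Finset.prod_insert ha, ee_add, ih]

private theorem ee_sub_int (x : ℝ) (z : ℤ) : ee (x - z) = ee x := by
  have h : x = (x - z) + z := by ring
  conv_rhs => rw [h, ee_add, ee_int, mul_one]

private theorem ee_ge (x : ℝ) : 4 * distInt x ≤ ‖ee x - 1‖ := by
  have h1 : ee x = ee (x - round x) := (ee_sub_int x _).symm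
  set t := x - round x with ht
  have hd : distInt x = |t| := rfl
  have h2 : |t| ≤ 1 / 2 := abs_sub_round x
  rw [h1, hd]
  unfold ee
  rw [Complex.norm_exp_I_mul_ofReal_sub_one, Real.norm_eq_abs, abs_mul]
  have h3 : 2 * Real.pi * t / 2 = Real.pi * t := by ring
  rw [h3]
  have h4 : |Real.pi * t| ≤ Real.pi / 2 := by
    rw [abs_mul, abs_of_pos Real.pi_pos]
    nlinarith [Real.pi_pos]
  have h5 := Real.mul_abs_le_abs_sin h4
  rw [abs_mul, abs_of_pos Real.pi_pos] at h5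
  have h6 : 2 / Real.pi * (Real.pi * |t|) = 2 * |t| := by
    field_simp
  rw [h6] at h5
  have h7 : |(2 : ℝ)| = 2 := abs_of_pos (by norm_num)
  rw [h7]
  linarith

private theorem geom_bd {z : ℂ} (hz : ‖z‖ = 1) (h1 : z ≠ 1) (M : ℕ) : ‖∑ k ∈ range M, z ^ k‖ ≤ 2 / ‖z - 1‖ := by
  rw [geom_sum_eq h1, norm_div]
  refine div_le_div_of_nonneg_right ?_ (norm_nonneg _)
  calc ‖z ^ M - 1‖ ≤ ‖z ^ M‖ + ‖(1 : ℂ)‖ := norm_sub_le _ _
    _ = 2 := by rw [norm_pow, hz, one_pow, norm_one]; norm_num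

private theorem mean_ee {β γ : ℝ} (h : ¬ ∃ z : ℤ, β = z) :
    Tendsto (fun M : ℕ => (∑ k ∈ range M, (ee ((k : ℝ) * β - γ)).re) / (M : ℝ)) atTop (𝓝 0) := by
  have h1 : 0 < distInt β := by
    rcases (abs_nonneg (β - round β)).eq_or_lt with h2 | h2
    · exfalso
      exact h ⟨round β, by have := abs_eq_zero.1 h2.symm; linarith⟩
    · exact h2
  have h2 : 0 < ‖ee β - 1‖ := lt_of_lt_of_le (by linarith) (ee_ge β)
  have h3 : ee β ≠ 1 := by
    intro h4
    rw [h4, sub_self, norm_zero] at h2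
    exact lt_irrefl _ h2
  have h4 : ∀ M : ℕ, |∑ k ∈ range M, (ee ((k : ℝ) * β - γ)).re| ≤ 2 / ‖ee β - 1‖ := by
    intro M
    have h5 : ∑ k ∈ range M, (ee ((k : ℝ) * β - γ)).re = (ee (-γ) * ∑ k ∈ range M, ee β ^ k).re := by
      rw [Finset.mul_sum, Complex.re_sum]
      refine Finset.sum_congr rfl fun k _ => ?_
      rw [sub_eq_add_neg, ee_add, ee_nat_mul, mul_comm]
    rw [h5]
    refine (Complex.abs_re_le_norm _).trans ?_
    rw [norm_mul, ee_norm, one_mul]
    exact geom_bd (ee_norm β) h3 M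
  refine squeeze_zero_norm (a := fun M : ℕ => (2 / ‖ee β - 1‖) / (M : ℝ)) (fun M => ?_) (tendsto_const_div_atTop_nhds_zero_nat _)
  rw [norm_div, Real.norm_natCast, Real.norm_eq_abs]
  exact div_le_div_of_nonneg_right (h4 M) (Nat.cast_nonneg _)

private theorem mean_one : Tendsto (fun M : ℕ => (∑ _k ∈ range M, (1 : ℝ)) / (M : ℝ)) atTop (𝓝 1) := by
  refine (tendsto_const_nhds (x := (1 : ℝ))).congr' ?_
  filter_upwards [eventually_ge_atTop 1] with M hM
  rw [Finset.sum_const, card_range, nsmul_eq_mul, mul_one, div_self]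
  exact_mod_cast (by omega : M ≠ 0)

open Classical in
private theorem mean_sq {ι : Type} [Fintype ι] (β γ : ι → ℝ) (h : ∀ p q, (∃ z : ℤ, β p - β q = z) → γ p = γ q) (K : ℕ) :
    Tendsto (fun M : ℕ => (∑ k ∈ range M, ‖∑ p, ee (((K + k : ℕ) : ℝ) * β p - γ p)‖ ^ 2) / (M : ℝ)) atTop
      (𝓝 (((univ : Finset (ι × ι)).filter (fun s : ι × ι => ∃ z : ℤ, β s.1 - β s.2 = z)).card : ℝ)) := by
  have h1 : ∀ k : ℕ, ‖∑ p, ee (((K + k : ℕ) : ℝ) * β p - γ p)‖ ^ 2 =
      ∑ s : ι × ι, (ee ((k : ℝ) * (β s.1 - β s.2) - ((γ s.1 - γ s.2) - (K : ℝ) * (β s.1 - β s.2)))).re := by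
    intro k
    have h2 : ∀ w : ℂ, ‖w‖ ^ 2 = (w * (starRingEnd ℂ) w).re := by
      intro w
      rw [Complex.mul_conj, Complex.ofReal_re, Complex.normSq_eq_norm_sq]
    rw [h2, map_sum, Finset.sum_mul_sum, Fintype.sum_prod_type, Complex.re_sum]
    refine Finset.sum_congr rfl fun p _ => ?_
    rw [Complex.re_sum]
    refine Finset.sum_congr rfl fun q _ => ?_
    rw [ee_conj, ← ee_add]
    congr 2
    push_cast
    ring
  have h3 : ∀ M : ℕ, (∑ k ∈ range M, ‖∑ p, ee (((K + k : ℕ) : ℝ) * β p - γ p)‖ ^ 2) / (M : ℝ) =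
      ∑ s : ι × ι, (∑ k ∈ range M, (ee ((k : ℝ) * (β s.1 - β s.2) - ((γ s.1 - γ s.2) - (K : ℝ) * (β s.1 - β s.2)))).re) / (M : ℝ) := by
    intro M
    rw [← Finset.sum_div, Finset.sum_comm]
    congr 1
    exact Finset.sum_congr rfl fun k _ => h1 k
  have h4 : (((univ : Finset (ι × ι)).filter (fun s : ι × ι => ∃ z : ℤ, β s.1 - β s.2 = z)).card : ℝ) =
      ∑ s : ι × ι, (if (∃ z : ℤ, β s.1 - β s.2 = z) then (1 : ℝ) else 0) := by
    rw [Finset.card_filter]
    push_cast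
    rfl
  rw [h4]
  simp_rw [h3]
  refine tendsto_finsetSum _ fun s _ => ?_
  by_cases hs : ∃ z : ℤ, β s.1 - β s.2 = z
  · rw [if_pos hs]
    refine mean_one.congr fun M => ?_
    congr 1
    refine Finset.sum_congr rfl fun k _ => ?_
    obtain ⟨z, hz⟩ := hs
    have hg := h s.1 s.2 ⟨z, hz⟩
    rw [hg, sub_self, hz]
    have e1 : (k : ℝ) * (z : ℝ) - (0 - (K : ℝ) * (z : ℝ)) = (((k + K : ℤ) * z : ℤ) : ℝ) := by
      push_cast
      ring
    rw [e1, ee_int, Complex.one_re]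
  · rw [if_neg hs]
    exact mean_ee hs

private noncomputable def SS {r : ℕ} (N : ℕ) (A C : Fin r → ℝ) (k : ℕ) : ℂ :=
  ∑ v : Fin r → Fin N, ee ((k : ℝ) * (∑ i, ((v i : ℕ) : ℝ) * A i) - ∑ i, ((v i : ℕ) : ℝ) * C i)

private theorem SS_eq {r : ℕ} (N : ℕ) (A C : Fin r → ℝ) (k : ℕ) :
    SS N A C k = ∏ i, ∑ l ∈ range N, ee ((k : ℝ) * A i - C i) ^ l := by
  have h1 : ∀ i, ∑ l ∈ range N, ee ((k : ℝ) * A i - C i) ^ l = ∑ l : Fin N, ee ((k : ℝ) * A i - C i) ^ (l : ℕ) := by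
    intro i
    rw [Finset.sum_range]
  simp_rw [h1]
  rw [Finset.prod_univ_sum, Fintype.piFinset_univ]
  unfold SS
  refine Finset.sum_congr rfl fun v _ => ?_
  rw [Finset.mul_sum, ← Finset.sum_sub_distrib, ee_sum]
  refine Finset.prod_congr rfl fun i _ => ?_
  rw [← ee_nat_mul]
  congr 1
  ring

open Classical in
private noncomputable def RR {r : ℕ} (N : ℕ) (A : Fin r → ℝ) : Finset ((Fin r → Fin N) × (Fin r → Fin N)) :=
  univ.filter (fun s => ∃ z : ℤ, ∑ i, ((s.1 i : ℕ) : ℝ) * A i - ∑ i, ((s.2 i : ℕ) : ℝ) * A i = z)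

private def Rel {r : ℕ} (A C : Fin r → ℝ) : Prop :=
  ∀ ν : Fin r → ℤ, (∃ z : ℤ, ∑ i, (ν i : ℝ) * A i = z) → ∑ i, (ν i : ℝ) * C i = 0

private theorem mean_SS {r : ℕ} (N : ℕ) (A C : Fin r → ℝ) (h : Rel A C) (K : ℕ) :
    Tendsto (fun M : ℕ => (∑ k ∈ range M, ‖SS N A C (K + k)‖ ^ 2) / (M : ℝ)) atTop (𝓝 ((RR N A).card : ℝ)) := by
  refine mean_sq (fun v : Fin r → Fin N => ∑ i, ((v i : ℕ) : ℝ) * A i) (fun v => ∑ i, ((v i : ℕ) : ℝ) * C i) ?_ K
  rintro p q ⟨z, hz⟩
  have h1 := h (fun i => ((p i : ℕ) : ℤ) - ((q i : ℕ) : ℤ)) ⟨z, by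
    rw [← hz, ← Finset.sum_sub_distrib]
    refine Finset.sum_congr rfl fun i _ => ?_
    push_cast
    ring⟩
  have h2 : ∑ i, ((((p i : ℕ) : ℤ) - ((q i : ℕ) : ℤ) : ℤ) : ℝ) * C i = ∑ i, ((p i : ℕ) : ℝ) * C i - ∑ i, ((q i : ℕ) : ℝ) * C i := by
    rw [← Finset.sum_sub_distrib]
    refine Finset.sum_congr rfl fun i _ => ?_
    push_cast
    ring
  have h3 : ∑ i, ((p i : ℕ) : ℝ) * C i - ∑ i, ((q i : ℕ) : ℝ) * C i = 0 := by
    rw [← h2]
    exact h1
  show ∑ i, ((p i : ℕ) : ℝ) * C i = ∑ i, ((q i : ℕ) : ℝ) * C i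
  linarith

private theorem sum_upd {r : ℕ} (w : Fin r → ℝ) (A : Fin r → ℝ) (i : Fin r) :
    ∑ j, w j * Function.update A i 0 j = ∑ j, w j * A j - w i * A i := by
  have h1 : ∀ j, w j * Function.update A i 0 j = w j * A j - (if j = i then w i * A i else 0) := by
    intro j
    by_cases hj : j = i
    · subst hj
      rw [Function.update_self, if_pos rfl]
      ring
    · rw [Function.update_of_ne hj, if_neg hj, sub_zero]
  simp_rw [h1]
  rw [Finset.sum_sub_distrib, Finset.sum_ite_eq' univ i, if_pos (Finset.mem_univ i)]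

private theorem Rel_upd {r : ℕ} {A C : Fin r → ℝ} (h : Rel A C) (i : Fin r) :
    Rel (Function.update A i 0) (Function.update C i 0) := by
  rintro ν ⟨z, hz⟩
  have h1 : ∀ B : Fin r → ℝ, ∑ j, ((Function.update ν i 0 j : ℤ) : ℝ) * B j = ∑ j, (ν j : ℝ) * Function.update B i 0 j := by
    intro B
    refine Finset.sum_congr rfl fun j _ => ?_
    by_cases hj : j = i
    · subst hj
      rw [Function.update_self, Function.update_self]
      simp
    · rw [Function.update_of_ne hj, Function.update_of_ne hj]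
  have h2 := h (Function.update ν i 0) ⟨z, by rw [h1 A, hz]⟩
  rw [h1 C] at h2
  exact h2

private theorem RR_upd {r N : ℕ} (A : Fin r → ℝ) (i : Fin r) :
    (RR N (Function.update A i 0)).card ≤ (RR N A).card * N := by
  classical
  have h1 : ((RR N A) ×ˢ (univ : Finset (Fin N))).card = (RR N A).card * N := by
    rw [Finset.card_product, Finset.card_univ, Fintype.card_fin]
  rw [← h1]
  refine Finset.card_le_card_of_injOn (fun s => ((s.1, Function.update s.2 i (s.1 i)), s.2 i)) ?_ ?_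
  · intro s hs
    have hs' : ∃ z : ℤ, ∑ j, ((s.1 j : ℕ) : ℝ) * Function.update A i 0 j - ∑ j, ((s.2 j : ℕ) : ℝ) * Function.update A i 0 j = z := by
      have := hs
      unfold RR at this
      simpa using this
    obtain ⟨z, hz⟩ := hs'
    have h2 : ((s.1, Function.update s.2 i (s.1 i)) : (Fin r → Fin N) × (Fin r → Fin N)) ∈ RR N A := by
      unfold RR
      rw [Finset.mem_filter]
      refine ⟨Finset.mem_univ _, z, ?_⟩
      rw [← hz, sum_upd, sum_upd]
      have h3 : ∀ j, ((Function.update s.2 i (s.1 i) j : ℕ) : ℝ) * A j =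
          ((s.2 j : ℕ) : ℝ) * A j + (if j = i then ((s.1 i : ℕ) : ℝ) * A i - ((s.2 i : ℕ) : ℝ) * A i else 0) := by
        intro j
        by_cases hj : j = i
        · subst hj
          rw [Function.update_self, if_pos rfl]
          ring
        · rw [Function.update_of_ne hj, if_neg hj, add_zero]
      show ∑ j, ((s.1 j : ℕ) : ℝ) * A j - ∑ j, ((Function.update s.2 i (s.1 i) j : ℕ) : ℝ) * A j = _
      simp_rw [h3]
      rw [Finset.sum_add_distrib, Finset.sum_ite_eq' univ i, if_pos (Finset.mem_univ i)]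
      ring
    exact Finset.mem_coe.2 (Finset.mem_product.2 ⟨h2, Finset.mem_univ _⟩)
  · intro s _ t _ hst
    have h2 : s.1 = t.1 := congrArg (fun w => w.1.1) hst
    have h3 : Function.update s.2 i (s.1 i) = Function.update t.2 i (t.1 i) := congrArg (fun w => w.1.2) hst
    have h4 : s.2 i = t.2 i := congrArg (fun w => w.2) hst
    refine Prod.ext h2 ?_
    funext j
    by_cases hj : j = i
    · subst hj
      exact h4
    · have h5 := congrFun h3 j
      rwa [Function.update_of_ne hj, Function.update_of_ne hj] at h5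

private theorem RR_pos {r N : ℕ} (A : Fin r → ℝ) (hN : 0 < N) : 0 < (RR N A).card := by
  classical
  rw [Finset.card_pos]
  refine ⟨(fun _ => ⟨0, hN⟩, fun _ => ⟨0, hN⟩), ?_⟩
  unfold RR
  rw [Finset.mem_filter]
  exact ⟨Finset.mem_univ _, 0, by simp⟩

private theorem SS_bd {r N : ℕ} (A C : Fin r → ℝ) {η : ℝ} (hη : 0 < η) (k : ℕ) (i : Fin r)
    (hi : η < distInt ((k : ℝ) * A i - C i)) :
    4 * η ^ 2 * (N : ℝ) ^ 2 * ‖SS N A C k‖ ^ 2 ≤ ‖SS N (Function.update A i 0) (Function.update C i 0) k‖ ^ 2 := by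
  rw [SS_eq, SS_eq, norm_prod, norm_prod]
  rw [← Finset.mul_prod_erase univ _ (Finset.mem_univ i), ← Finset.mul_prod_erase univ (fun j => ‖∑ l ∈ range N, ee ((k : ℝ) * Function.update A i 0 j - Function.update C i 0 j) ^ l‖) (Finset.mem_univ i)]
  have h1 : ∏ j ∈ univ.erase i, ‖∑ l ∈ range N, ee ((k : ℝ) * Function.update A i 0 j - Function.update C i 0 j) ^ l‖ =
      ∏ j ∈ univ.erase i, ‖∑ l ∈ range N, ee ((k : ℝ) * A j - C j) ^ l‖ := by
    refine Finset.prod_congr rfl fun j hj => ?_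
    have hj' := (Finset.mem_erase.1 hj).1
    rw [Function.update_of_ne hj', Function.update_of_ne hj']
  rw [h1]
  have h2 : ‖∑ l ∈ range N, ee ((k : ℝ) * Function.update A i 0 i - Function.update C i 0 i) ^ l‖ = N := by
    rw [Function.update_self, Function.update_self, mul_zero, sub_zero, ee_zero]
    simp
  rw [h2]
  set P := ∏ j ∈ univ.erase i, ‖∑ l ∈ range N, ee ((k : ℝ) * A j - C j) ^ l‖ with hP
  set a := ‖∑ l ∈ range N, ee ((k : ℝ) * A i - C i) ^ l‖ with ha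
  have h3 : 2 * η * a ≤ 1 := by
    have h4 := ee_ge ((k : ℝ) * A i - C i)
    have h5 : 4 * η < ‖ee ((k : ℝ) * A i - C i) - 1‖ := by linarith
    have h6 : ee ((k : ℝ) * A i - C i) ≠ 1 := by
      intro h7
      rw [h7, sub_self, norm_zero] at h5
      linarith
    have h7 : a ≤ 2 / ‖ee ((k : ℝ) * A i - C i) - 1‖ := geom_bd (ee_norm _) h6 N
    have h8 : 0 < ‖ee ((k : ℝ) * A i - C i) - 1‖ := by linarith
    rw [le_div_iff₀ h8] at h7
    have h9 : 0 ≤ a := norm_nonneg _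
    nlinarith
  have h4 : 0 ≤ a := norm_nonneg _
  have h5 : (2 * η * a) ^ 2 ≤ 1 := by
    have : 0 ≤ 2 * η * a := by positivity
    nlinarith
  have h6 : 0 ≤ ((N : ℝ) * P) ^ 2 := sq_nonneg _
  nlinarith

theorem bohr {r : ℕ} (α : Fin r → ℝ) (c : Fin r → ℤ)
    (hc : ∀ ν : Fin r → ℤ, (∃ q : ℚ, ∑ i, (ν i : ℝ) * α i = q) → ∑ i, ν i * c i = 0)
    (x : ℝ) (D K : ℕ) (hD : 0 < D) {η : ℝ} (hη : 0 < η) :
    ∃ k, K ≤ k ∧ ∀ i, distInt (((k * D : ℕ) : ℝ) * α i - c i * x) ≤ η := by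
  by_contra hcon
  push Not at hcon
  obtain ⟨N, hN⟩ := exists_nat_gt ((r : ℝ) / (4 * η ^ 2))
  have hη2 : 0 < 4 * η ^ 2 := by positivity
  have hN0 : 0 < N := by
    have h1 : (0 : ℝ) < N := lt_of_le_of_lt (by positivity) hN
    exact_mod_cast h1
  have hN' : (r : ℝ) < 4 * η ^ 2 * N := by
    rw [div_lt_iff₀ hη2] at hN
    linarith
  set A : Fin r → ℝ := fun i => (D : ℝ) * α i with hA
  set C : Fin r → ℝ := fun i => (c i : ℝ) * x with hC
  have hrel : Rel A C := by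
    rintro ν ⟨z, hz⟩
    have h1 : ∑ i, (ν i : ℝ) * α i = (((z : ℚ) / (D : ℚ) : ℚ) : ℝ) := by
      have hD' : (D : ℝ) ≠ 0 := by exact_mod_cast hD.ne'
      push_cast
      rw [eq_div_iff hD', ← hz, Finset.sum_mul]
      refine Finset.sum_congr rfl fun i _ => ?_
      rw [hA]
      ring
    have h2 := hc ν ⟨_, h1⟩
    have h3 : ∑ i, (ν i : ℝ) * C i = ((∑ i, ν i * c i : ℤ) : ℝ) * x := by
      push_cast
      rw [Finset.sum_mul]
      refine Finset.sum_congr rfl fun i _ => ?_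
      rw [hC]
      ring
    rw [h3, h2, Int.cast_zero, zero_mul]
  have hk : ∀ k : ℕ, 4 * η ^ 2 * (N : ℝ) ^ 2 * ‖SS N A C (K + k)‖ ^ 2 ≤
      ∑ i, ‖SS N (Function.update A i 0) (Function.update C i 0) (K + k)‖ ^ 2 := by
    intro k
    obtain ⟨i, hi⟩ := hcon (K + k) (Nat.le_add_right _ _)
    have h1 : η < distInt (((K + k : ℕ) : ℝ) * A i - C i) := by
      have e1 : ((K + k : ℕ) : ℝ) * A i - C i = (((K + k) * D : ℕ) : ℝ) * α i - c i * x := by
        rw [hA, hC]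
        push_cast
        ring
      rw [e1]
      exact hi
    refine (SS_bd A C hη (K + k) i h1).trans ?_
    exact Finset.single_le_sum (f := fun i => ‖SS N (Function.update A i 0) (Function.update C i 0) (K + k)‖ ^ 2)
      (fun _ _ => sq_nonneg _) (Finset.mem_univ i)
  have hM : ∀ M : ℕ, 4 * η ^ 2 * (N : ℝ) ^ 2 * ((∑ k ∈ range M, ‖SS N A C (K + k)‖ ^ 2) / (M : ℝ)) ≤
      ∑ i, (∑ k ∈ range M, ‖SS N (Function.update A i 0) (Function.update C i 0) (K + k)‖ ^ 2) / (M : ℝ) := by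
    intro M
    rw [← Finset.sum_div, mul_div_assoc', Finset.mul_sum, Finset.sum_comm]
    refine div_le_div_of_nonneg_right ?_ (Nat.cast_nonneg _)
    exact Finset.sum_le_sum fun k _ => hk k
  have t1 := (mean_SS N A C hrel K).const_mul (4 * η ^ 2 * (N : ℝ) ^ 2)
  have t2 := tendsto_finsetSum (univ : Finset (Fin r)) fun i _ => mean_SS N _ _ (Rel_upd hrel i) K
  have h1 := le_of_tendsto_of_tendsto' t1 t2 hM
  have h2 : ∑ i : Fin r, ((RR N (Function.update A i 0)).card : ℝ) ≤ r * ((RR N A).card * N) := by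
    calc ∑ i : Fin r, ((RR N (Function.update A i 0)).card : ℝ) ≤ ∑ _i : Fin r, ((RR N A).card : ℝ) * N := by
          refine Finset.sum_le_sum fun i _ => ?_
          exact_mod_cast RR_upd A i
      _ = r * ((RR N A).card * N) := by
          rw [Finset.sum_const, Finset.card_univ, Fintype.card_fin, nsmul_eq_mul]
  have hR : (0 : ℝ) < (RR N A).card := by exact_mod_cast RR_pos A hN0
  have hNr : (0 : ℝ) < N := by exact_mod_cast hN0
  have h3 : 4 * η ^ 2 * (N : ℝ) ^ 2 * (RR N A).card ≤ r * ((RR N A).card * N) := h1.trans h2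
  have h4 : (4 * η ^ 2 * N) * ((RR N A).card * N) ≤ r * ((RR N A).card * N) := by
    calc (4 * η ^ 2 * N) * ((RR N A).card * N) = 4 * η ^ 2 * (N : ℝ) ^ 2 * (RR N A).card := by ring
      _ ≤ _ := h3
  have h5 := le_of_mul_le_mul_right h4 (by positivity)
  linarith

end Pool.Agent.H1.PP
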