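import Mathlib

/-!
# Module Lin: a direction

`Q`-linear algebra. Let `V = ℝ ⧸ (ℚ ∙ (1 : ℝ))` as a `ℚ`-vector space (`Submodule.span ℚ {(1 : ℝ)}`), `x i` the class of `α i`; `x i ≠ 0` because `α i`
is irrational. There is a linear functional `f : V →ₗ[ℚ] ℚ` with `f (x i) ≠ 0` for all `i` (finitely many nonzero vectors over an infinite
field: e.g. `Module.exists_dual_forall_apply_ne_zero` / `Module.Dual.exists_forall_mem_ne_zero_of_forall_exists` in Mathlib, or finite unions of proper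
subspaces, `Subspace.biUnion_ne_univ_of_top_notMem`, applied to `Module.Dual ℚ V`, or a direct induction on `r`: if `f (x i) ≠ 0` for `i < r` and `g (x r) ≠ 0`, then
`f + q g` works for all but finitely many `q ∈ ℚ`). Multiply by a common denominator: `c i = N f (x i)`, a nonzero integer. If `∑ ν i α i` is rational,
then `∑ ν i x i = 0` and `∑ ν i c i = N f (∑ ν i x i) = 0`.
-/

set_option autoImplicit false

namespace Pool.Agent.H1.PP

theorem exists_dir {r : ℕ} (α : Fin r → ℝ) (hα : ∀ i, Irrational (α i)) :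
    ∃ c : Fin r → ℤ, (∀ i, c i ≠ 0) ∧
      ∀ ν : Fin r → ℤ, (∃ q : ℚ, ∑ i, (ν i : ℝ) * α i = q) → ∑ i, ν i * c i = 0 := by
  set S : Submodule ℚ ℝ := Submodule.span ℚ {(1 : ℝ)} with hS
  have hx : ∀ i, S.mkQ (α i) ≠ 0 := by
    intro i h
    rw [Submodule.mkQ_apply, Submodule.Quotient.mk_eq_zero, hS, Submodule.mem_span_singleton] at h
    obtain ⟨q, hq⟩ := h
    refine hα i ⟨q, ?_⟩
    rw [← hq, Rat.smul_def, mul_one]
  obtain ⟨f, hf⟩ := Module.exists_dual_forall_apply_ne_zero (K := ℚ) (fun i => S.mkQ (α i)) hx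
  set N : ℕ := ∏ i, (f (S.mkQ (α i))).den with hN
  have hN0 : N ≠ 0 := Finset.prod_ne_zero_iff.2 fun i _ => (f (S.mkQ (α i))).den_nz
  have hint : ∀ i, ∃ c : ℤ, (c : ℚ) = N * f (S.mkQ (α i)) := by
    intro i
    refine ⟨(∏ j ∈ Finset.univ.erase i, ((f (S.mkQ (α j))).den : ℤ)) * (f (S.mkQ (α i))).num, ?_⟩
    have h1 : (N : ℚ) = (∏ j ∈ Finset.univ.erase i, ((f (S.mkQ (α j))).den : ℚ)) *
        ((f (S.mkQ (α i))).den : ℚ) := by
      rw [hN]
      push_cast
      exact (Finset.prod_erase_mul _ _ (Finset.mem_univ i)).symm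
    rw [h1]
    push_cast
    rw [mul_assoc, mul_comm ((f (S.mkQ (α i))).den : ℚ), Rat.mul_den_eq_num]
  choose c hc using hint
  refine ⟨c, fun i h0 => ?_, fun ν ⟨q, hq⟩ => ?_⟩
  · have h1 := hc i
    rw [h0, Int.cast_zero] at h1
    rcases mul_eq_zero.1 h1.symm with h | h
    · exact hN0 (by exact_mod_cast h)
    · exact hf i h
  · have h1 : ∑ i, (ν i : ℚ) • S.mkQ (α i) = 0 := by
      have h2 : S.mkQ (∑ i, (ν i : ℚ) • α i) = ∑ i, (ν i : ℚ) • S.mkQ (α i) := by
        rw [map_sum]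
        exact Finset.sum_congr rfl fun i _ => map_smul _ _ _
      rw [← h2, Submodule.mkQ_apply, Submodule.Quotient.mk_eq_zero, hS, Submodule.mem_span_singleton]
      refine ⟨q, ?_⟩
      rw [Rat.smul_def, mul_one, ← hq]
      refine Finset.sum_congr rfl fun i _ => ?_
      rw [Rat.smul_def]
      push_cast
      rfl
    have h3 : ∑ i, (ν i : ℚ) * f (S.mkQ (α i)) = 0 := by
      have h4 := congrArg f h1
      rw [map_sum, map_zero] at h4
      rw [← h4]
      exact Finset.sum_congr rfl fun i _ => by rw [map_smul, smul_eq_mul]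
    have h5 : ((∑ i, ν i * c i : ℤ) : ℚ) = 0 := by
      push_cast
      calc ∑ i, (ν i : ℚ) * (c i : ℚ) = ∑ i, (N : ℚ) * ((ν i : ℚ) * f (S.mkQ (α i))) :=
            Finset.sum_congr rfl fun i _ => by rw [hc i]; ring
        _ = 0 := by rw [← Finset.mul_sum, h3, mul_zero]
    exact_mod_cast h5

end Pool.Agent.H1.PP
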