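import Pool.Agent.H1.PP.Seq
import Pool.Agent.H1.PP.Lin
import Pool.Agent.H1.PP.Bohr

/-!
# Module Choose: choice of the multipliers

For `r ∈ ℕ` let `c r : Fin r → ℤ` be the direction of `exists_dir` for `C 0, ..., C (r-1)` and `B r = ∑ i, |c r i|` (natural number). Let
`R j = Nat.findGreatest (fun r => B r ≤ rr j) j` (`B 0 = 0`); `R j → ∞` (`rr_tendsto`). For `j`, `D > 0` there is (`bohr` with `r = R (j+1)`, `x = 1 / b (j+1)`,
`D * Mj j`, `η = eta (j+1)`) a number `k = step j D ≥ K j + 1` with `distInt ((k * (D * Mj j)) * C i - c i / b (j+1)) ≤ eta (j+1)` for all `i < R (j+1)`.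
Define recursively `dd 0 = 1`, `dd (j+1) = dd j * (step j (dd j) * Mj j)`, and `m j = step j (dd j) * Mj j`; then `d = dd` for this instance of `Mult`
(`m j ≥ K j`, as `Mj j ≥ 1`). `Near (j+1) (C n)` for all `j` with `R (j+1) > n`: `c i ≠ 0`, `|c i| ≤ B ≤ rr (j+1)`, so no prime factor of `b (j+1)` divides `c i`
(`b_coprime`, a prime divisor of `c i ≠ 0` is `≤ |c i|`), i.e. `IsCoprime (c i) (b (j+1))` (`Int.isCoprime_iff_gcd_eq_one`, `Nat.Coprime`, `Nat.coprime_of_dvd`).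
-/

set_option autoImplicit false

namespace Pool.Agent.H1.PP

open Filter Topology Finset
open Pool.Agent.H53.PPC (distInt)

variable [Slow]

private lemma coprime_of_small {c : ℤ} {j : ℕ} (hc : c ≠ 0) (h : c.natAbs ≤ rr j) :
    IsCoprime c (b j : ℤ) := by
  rw [Int.isCoprime_iff_gcd_eq_one]
  have h1 : Nat.Coprime c.natAbs (b j) := by
    apply Nat.coprime_of_dvd
    intro p hp hpc hpb
    exact b_coprime hp (le_trans (Nat.le_of_dvd (Int.natAbs_pos.mpr hc) hpc) h) hpb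
  exact h1

theorem exists_mult (C : ℕ → ℝ) (hC : ∀ n, Irrational (C n)) (K : ℕ → ℕ) :
    ∃ M : Mult, (∀ j, K j ≤ M.m j) ∧ ∀ n, ∀ᶠ j in atTop, @Near _ M j (C n) := by
  classical
  have hdir : ∀ r : ℕ, ∃ c : Fin r → ℤ, (∀ i, c i ≠ 0) ∧
      ∀ ν : Fin r → ℤ, (∃ q : ℚ, ∑ i, (ν i : ℝ) * C i = q) → ∑ i, ν i * c i = 0 :=
    fun r => exists_dir (fun i : Fin r => C i) (fun i => hC i)
  choose dir hdir0 hdir1 using hdir
  obtain ⟨B, hB⟩ : ∃ B : ℕ → ℕ, ∀ r, B r = ∑ i, (dir r i).natAbs := ⟨_, fun _ => rfl⟩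
  obtain ⟨R, hR⟩ : ∃ R : ℕ → ℕ, ∀ j, R j = Nat.findGreatest (fun r => B r ≤ rr j) j :=
    ⟨_, fun _ => rfl⟩
  have hRspec : ∀ j, B (R j) ≤ rr j := by
    intro j
    rw [hR]
    exact Nat.findGreatest_spec (P := fun r => B r ≤ rr j) (Nat.zero_le j) (by rw [hB]; simp)
  have hRlarge : ∀ n, ∀ᶠ j in atTop, n < R j := by
    intro n
    filter_upwards [eventually_ge_atTop (n + 1), rr_tendsto.eventually_ge_atTop (B (n + 1))]
      with j hj1 hj2
    rw [hR]
    exact Nat.le_findGreatest hj1 hj2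
  have hstep : ∀ j D : ℕ, ∃ k : ℕ, K j + 1 ≤ k ∧ (0 < D → ∀ i : Fin (R (j + 1)),
      distInt (((k * (D * Mj j) : ℕ) : ℝ) * C i - dir (R (j + 1)) i * (1 / (b (j + 1) : ℝ))) ≤ eta (j + 1)) := by
    intro j D
    rcases Nat.eq_zero_or_pos D with h0 | hpos
    · exact ⟨K j + 1, le_rfl, fun h => by omega⟩
    · have hM : 0 < Mj j := by
        unfold Mj
        have := Nat.factorial_pos (S (j + 1))
        positivity
      obtain ⟨k, hk1, hk2⟩ := bohr (fun i : Fin (R (j + 1)) => C i) (dir (R (j + 1)))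
        (hdir1 (R (j + 1))) (1 / (b (j + 1) : ℝ)) (D * Mj j) (K j + 1) (Nat.mul_pos hpos hM)
        (eta_pos (j + 1))
      exact ⟨k, hk1, fun _ => hk2⟩
  choose step hstep1 hstep2 using hstep
  obtain ⟨dd, hdd0, hdd1⟩ : ∃ dd : ℕ → ℕ, dd 0 = 1 ∧
      ∀ j, dd (j + 1) = dd j * (step j (dd j) * Mj j) :=
    ⟨fun n => Nat.rec (motive := fun _ => ℕ) 1 (fun j x => x * (step j x * Mj j)) n, rfl, fun _ => rfl⟩
  have hMpos : ∀ j, 0 < Mj j := by
    intro j
    unfold Mj
    have := Nat.factorial_pos (S (j + 1))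
    positivity
  have hspos : ∀ j D, 0 < step j D := fun j D => by have := hstep1 j D; omega
  have hddpos : ∀ j, 0 < dd j := by
    intro j
    induction j with
    | zero => rw [hdd0]; exact one_pos
    | succ j ih => rw [hdd1]; exact Nat.mul_pos ih (Nat.mul_pos (hspos _ _) (hMpos _))
  let M : Mult := { m := fun j => step j (dd j) * Mj j
                    dvd_m := fun j => Dvd.intro_left _ rfl
                    m_pos := fun j => Nat.mul_pos (hspos _ _) (hMpos _) }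
  have hm : ∀ j, M.m j = step j (dd j) * Mj j := fun _ => rfl
  have hd : ∀ j, @d _ M j = dd j := by
    intro j
    induction j with
    | zero => rw [hdd0]; rfl
    | succ j ih => rw [hdd1, ← hm, ← ih]; rfl
  refine ⟨M, ?_, ?_⟩
  · intro j
    rw [hm]
    have h1 := hstep1 j (dd j)
    have h2 := hMpos j
    nlinarith
  · intro n
    filter_upwards [hRlarge n, eventually_ge_atTop 1] with j hj1 hj2
    obtain ⟨i, rfl⟩ : ∃ i, j = i + 1 := ⟨j - 1, by omega⟩
    refine ⟨dir (R (i + 1)) ⟨n, hj1⟩, ?_, ?_⟩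
    · apply coprime_of_small (hdir0 _ _)
      refine le_trans ?_ (hRspec (i + 1))
      rw [hB]
      exact Finset.single_le_sum (f := fun x => (dir (R (i + 1)) x).natAbs)
        (fun _ _ => Nat.zero_le _) (Finset.mem_univ _)
    · have h1 := hstep2 i (dd i) (hddpos i) ⟨n, hj1⟩
      rw [hd, hdd1]
      have e : ((dd i * (step i (dd i) * Mj i) : ℕ) : ℝ) = ((step i (dd i) * (dd i * Mj i) : ℕ) : ℝ) := by
        push_cast; ring
      rw [e]
      simpa [div_eq_mul_inv] using h1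

end Pool.Agent.H1.PP
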