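import Mathlib

/-!
# Module Dim: Hausdorff dimension of a set of expansions

`x j < n j` digits, points `A + ∑ x j / D j`. From `hsep`, `hn`: `D (j+1) ≥ 8 D j`, `n (j+1) / D (j+1) ≤ 1/(4 D j)`, so
`∑_{i>j} n i / D i ≤ 1/(2 D j)` and all series converge. Let `N j = ∏_{i<j} n i ≥ 2^j`, for `y ∈ [0,1)`: `cell y j = ⌊N j y⌋₊`, digits
`x y j = ⌊n j * fract (N j y)⌋₊ < n j`, `cell y (j+1) = cell y j * n j + x y j` (see `cell_succ` in H53/PPC/AE.lean), `g y = A + ∑' j, x y j / D j ∈ E`.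
Let `y < y'` in `[0,1)` and `j` the first index with `x y j ≠ x y' j` (exists: otherwise all cells agree and `|y - y'| < 1/N j` for all `j`); the cells
`cell y j = cell y' j` agree, `δ = x y' j - x y j ≥ 1` (monotonicity), `y' - y ≤ (δ+1)/N (j+1) ≤ 2 δ/N (j+1)`, and `g y' - g y ≥ δ/D j - 1/(2 D j) ≥ δ/(2 D j)`
(`Summable.sum_add_tsum_nat_add`). With `hgrow` for `s` and `δ ≤ n j`: `y' - y ≤ 2 δ/N (j+1) ≤ 4 C (g y' - g y)^s`, because
`(δ/(2 D j))^s ≥ δ n j^(s-1) / (2 D j^s)` and `D j^s ≤ C (N j) n j^s`. So `g` is injective on `[0,1)` and its inverse (`Function.invFunOn g (Set.Ico 0 1)`) is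
`HolderOnWith (4C) s` on `g '' [0,1)`: `HolderOnWith.dimH_image_le` (or the like) gives `1 = dimH [0,1) ≤ dimH (g '' [0,1)) / s ≤ dimH E / s`
(`Real.dimH_of_nonempty_interior`, `dimH_mono`). Let `s → 1`.
-/

set_option autoImplicit false

namespace Pool.Agent.H1.PP

open Filter Topology Finset

/-- the remainders of the expansion of `y` -/
private noncomputable def rm (n : ℕ → ℕ) (y : ℝ) : ℕ → ℝ
  | 0 => y
  | j + 1 => Int.fract ((n j : ℝ) * rm n y j)

/-- the digits of `y` -/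
private noncomputable def dg (n : ℕ → ℕ) (y : ℝ) (j : ℕ) : ℕ := ⌊(n j : ℝ) * rm n y j⌋₊

private theorem rm_mem (n : ℕ → ℕ) {y : ℝ} (hy : y ∈ Set.Ico (0 : ℝ) 1) (j : ℕ) : 0 ≤ rm n y j ∧ rm n y j < 1 := by
  cases j with
  | zero => exact ⟨hy.1, hy.2⟩
  | succ j => exact ⟨Int.fract_nonneg _, Int.fract_lt_one _⟩

private theorem dg_lt {n : ℕ → ℕ} (hn : ∀ j, 2 ≤ n j) {y : ℝ} (hy : y ∈ Set.Ico (0 : ℝ) 1) (j : ℕ) : dg n y j < n j := by
  have h1 := rm_mem n hy j
  have h2 : (0 : ℝ) < n j := by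
    have := hn j
    exact_mod_cast (by omega : 0 < n j)
  unfold dg
  rw [Nat.floor_lt (mul_nonneg h2.le h1.1)]
  nlinarith [h1.2]

private theorem rm_succ (n : ℕ → ℕ) {y : ℝ} (hy : y ∈ Set.Ico (0 : ℝ) 1) (j : ℕ) :
    (n j : ℝ) * rm n y j = dg n y j + rm n y (j + 1) := by
  have h1 := rm_mem n hy j
  have h2 : (0 : ℝ) ≤ (n j : ℝ) * rm n y j := mul_nonneg (Nat.cast_nonneg _) h1.1
  change (n j : ℝ) * rm n y j = (⌊(n j : ℝ) * rm n y j⌋₊ : ℝ) + Int.fract ((n j : ℝ) * rm n y j)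
  rw [natCast_floor_eq_intCast_floor h2, Int.floor_add_fract]

private theorem prod_pos' {n : ℕ → ℕ} (hn : ∀ j, 2 ≤ n j) (j : ℕ) : 0 < ∏ i ∈ Finset.range j, (n i : ℝ) :=
  Finset.prod_pos fun i _ => by
    have := hn i
    exact_mod_cast (by omega : 0 < n i)

private theorem expand {n : ℕ → ℕ} (hn : ∀ j, 2 ≤ n j) {y : ℝ} (hy : y ∈ Set.Ico (0 : ℝ) 1) (j : ℕ) :
    y = ∑ i ∈ Finset.range j, (dg n y i : ℝ) / (∏ k ∈ Finset.range (i + 1), (n k : ℝ)) +
      rm n y j / ∏ k ∈ Finset.range j, (n k : ℝ) := by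
  induction j with
  | zero => simp [rm]
  | succ j ih =>
    have h0 := (prod_pos' hn j).ne'
    have h1 := (prod_pos' hn (j + 1)).ne'
    have hnj : (n j : ℝ) ≠ 0 := by
      have := hn j
      exact_mod_cast (by omega : n j ≠ 0)
    have h2 := rm_succ n hy j
    have h3 : rm n y j / ∏ k ∈ Finset.range j, (n k : ℝ) =
        (dg n y j : ℝ) / (∏ k ∈ Finset.range (j + 1), (n k : ℝ)) + rm n y (j + 1) / ∏ k ∈ Finset.range (j + 1), (n k : ℝ) := by
      rw [← add_div, ← h2, Finset.prod_range_succ]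
      field_simp
    rw [Finset.sum_range_succ, add_assoc, ← h3]
    exact ih

private theorem two_pow_le {n : ℕ → ℕ} (hn : ∀ j, 2 ≤ n j) (j : ℕ) : (2 : ℝ) ^ j ≤ ∏ i ∈ Finset.range j, (n i : ℝ) := by
  induction j with
  | zero => simp
  | succ j ih =>
    rw [pow_succ, Finset.prod_range_succ]
    have h : (2 : ℝ) ≤ n j := by exact_mod_cast hn j
    exact mul_le_mul ih h (by norm_num) (prod_pos' hn j).le

section tails

variable {D n : ℕ → ℕ}

private theorem D_real (hD : ∀ j, 0 < D j) (j : ℕ) : (0 : ℝ) < D j := by exact_mod_cast hD j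

private theorem n_div (hsep : ∀ j, 2 * (n (j + 1) : ℝ) / D (j + 1) ≤ 1 / (2 * D j)) (hD : ∀ j, 0 < D j) (j : ℕ) :
    (n (j + 1) : ℝ) / D (j + 1) ≤ 1 / (4 * D j) := by
  have h := hsep j
  have h1 : 2 * (n (j + 1) : ℝ) / D (j + 1) = 2 * ((n (j + 1) : ℝ) / D (j + 1)) := by ring
  have h2 : 1 / (2 * (D j : ℝ)) = 2 * (1 / (4 * (D j : ℝ))) := by
    have := D_real hD j
    field_simp
    norm_num
  rw [h1, h2] at h
  linarith

private theorem inv_D (hsep : ∀ j, 2 * (n (j + 1) : ℝ) / D (j + 1) ≤ 1 / (2 * D j)) (hD : ∀ j, 0 < D j) (hn : ∀ j, 2 ≤ n j)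
    (j i : ℕ) : 1 / (D (j + i) : ℝ) ≤ 1 / D j * (1 / 2) ^ i := by
  induction i with
  | zero => simp
  | succ i ih =>
    have h1 := n_div hsep hD (j + i)
    have h2 : (2 : ℝ) ≤ n (j + i + 1) := by exact_mod_cast hn _
    have h3 := D_real hD (j + i + 1)
    have h4 := D_real hD (j + i)
    have h5 : 2 / (D (j + i + 1) : ℝ) ≤ 1 / (4 * D (j + i)) :=
      (div_le_div_of_nonneg_right h2 h3.le).trans h1
    have h6 : 1 / (4 * (D (j + i) : ℝ)) = 1 / 4 * (1 / D (j + i)) := by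
      field_simp
    have h7 : 2 / (D (j + i + 1) : ℝ) = 2 * (1 / D (j + i + 1)) := by ring
    have h8 : 0 < 1 / (D (j + i) : ℝ) := by positivity
    rw [h6, h7] at h5
    rw [← add_assoc, pow_succ]
    nlinarith

private theorem term_le (hsep : ∀ j, 2 * (n (j + 1) : ℝ) / D (j + 1) ≤ 1 / (2 * D j)) (hD : ∀ j, 0 < D j) (hn : ∀ j, 2 ≤ n j)
    (j i : ℕ) : (n (j + 1 + i) : ℝ) / D (j + 1 + i) ≤ 1 / (4 * D j) * (1 / 2) ^ i := by
  have h1 := n_div hsep hD (j + i)
  have h2 := inv_D hsep hD hn j i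
  have h4 := D_real hD (j + i)
  have h5 := D_real hD j
  have h6 : 1 / (4 * (D (j + i) : ℝ)) = 1 / 4 * (1 / D (j + i)) := by field_simp
  have h7 : 1 / (4 * (D j : ℝ)) = 1 / 4 * (1 / D j) := by field_simp
  have h8 : j + 1 + i = j + i + 1 := by ring
  rw [h8, h7]
  rw [h6] at h1
  nlinarith

private theorem tail_sum (hsep : ∀ j, 2 * (n (j + 1) : ℝ) / D (j + 1) ≤ 1 / (2 * D j)) (hD : ∀ j, 0 < D j) (hn : ∀ j, 2 ≤ n j)
    (z : ℕ → ℝ) (hz : ∀ i, |z i| ≤ n i) (j : ℕ) :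
    Summable (fun i => z (j + 1 + i) / D (j + 1 + i)) ∧ |∑' i, z (j + 1 + i) / D (j + 1 + i)| ≤ 1 / (2 * D j) := by
  have h0 : ∀ i, ‖z (j + 1 + i) / D (j + 1 + i)‖ ≤ 1 / (4 * D j) * (1 / 2) ^ i := by
    intro i
    rw [Real.norm_eq_abs, abs_div, abs_of_pos (D_real hD _)]
    exact (div_le_div_of_nonneg_right (hz _) (D_real hD _).le).trans (term_le hsep hD hn j i)
  have hg : HasSum (fun i : ℕ => 1 / (4 * (D j : ℝ)) * (1 / 2) ^ i) (1 / (4 * D j) * 2) :=
    hasSum_geometric_two.mul_left _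
  refine ⟨Summable.of_norm_bounded hg.summable h0, ?_⟩
  have h1 := tsum_of_norm_bounded hg h0
  rw [Real.norm_eq_abs] at h1
  refine h1.trans (le_of_eq ?_)
  have := D_real hD j
  field_simp
  norm_num

private theorem summ (hsep : ∀ j, 2 * (n (j + 1) : ℝ) / D (j + 1) ≤ 1 / (2 * D j)) (hD : ∀ j, 0 < D j) (hn : ∀ j, 2 ≤ n j)
    (z : ℕ → ℝ) (hz : ∀ i, |z i| ≤ n i) : Summable (fun i => z i / D i) := by
  have h := (tail_sum hsep hD hn z hz 0).1
  have h1 : (fun i => z (0 + 1 + i) / (D (0 + 1 + i) : ℝ)) = fun i => (fun i => z i / (D i : ℝ)) (i + 1) := by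
    funext i
    have : 0 + 1 + i = i + 1 := by ring
    simp only [this]
  rw [h1] at h
  exact (summable_nat_add_iff 1).1 h

/-- the lower bound: the first difference is at `j` -/
private theorem lower (hsep : ∀ j, 2 * (n (j + 1) : ℝ) / D (j + 1) ≤ 1 / (2 * D j)) (hD : ∀ j, 0 < D j) (hn : ∀ j, 2 ≤ n j)
    (z : ℕ → ℝ) (hz : ∀ i, |z i| ≤ n i) (j : ℕ) (h0 : ∀ i < j, z i = 0) :
    |z j| / D j - 1 / (2 * D j) ≤ |∑' i, z i / D i| := by
  have hs := summ hsep hD hn z hz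
  have h1 := hs.sum_add_tsum_nat_add (j + 1)
  have h2 : ∑ i ∈ Finset.range (j + 1), z i / (D i : ℝ) = z j / D j := by
    rw [Finset.sum_range_succ, Finset.sum_eq_zero, zero_add]
    intro i hi
    rw [h0 i (Finset.mem_range.1 hi), zero_div]
  have h3 : (fun i => z (i + (j + 1)) / (D (i + (j + 1)) : ℝ)) = fun i => z (j + 1 + i) / (D (j + 1 + i) : ℝ) := by
    funext i
    rw [add_comm i (j + 1)]
  rw [h2, h3] at h1
  have h4 := (tail_sum hsep hD hn z hz j).2
  have h5 : |z j / D j| = |z j| / D j := by rw [abs_div, abs_of_pos (D_real hD j)]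
  rw [← h5, ← h1]
  set T := ∑' i, z (j + 1 + i) / (D (j + 1 + i) : ℝ)
  have h6 : |z j / (D j : ℝ)| ≤ |z j / D j + T| + |T| := by
    have := abs_sub_abs_le_abs_sub (z j / (D j : ℝ)) (-T)
    rw [abs_neg, sub_neg_eq_add] at this
    linarith
  linarith

end tails

private theorem holder {D n : ℕ → ℕ} (hsep : ∀ j, 2 * (n (j + 1) : ℝ) / D (j + 1) ≤ 1 / (2 * D j)) (hD : ∀ j, 0 < D j)
    (hn : ∀ j, 2 ≤ n j) (A : ℝ) {s C : ℝ} (hs : 0 < s) (hs1 : s < 1) (hC : 0 < C)
    (hg : ∀ j, (D j : ℝ) ^ s ≤ C * (∏ i ∈ Finset.range j, (n i : ℝ)) * (n j : ℝ) ^ s) {y y' : ℝ}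
    (hy : y ∈ Set.Ico (0 : ℝ) 1) (hy' : y' ∈ Set.Ico (0 : ℝ) 1) :
    |y - y'| ≤ 4 * C * |(A + ∑' j, (dg n y j : ℝ) / D j) - (A + ∑' j, (dg n y' j : ℝ) / D j)| ^ s := by
  by_cases hall : ∀ j, dg n y j = dg n y' j
  · -- all digits agree
    have h1 : |y - y'| ≤ 0 := by
      refine le_of_forall_pos_lt_add fun ε hε => ?_
      obtain ⟨j, hj⟩ := exists_pow_lt_of_lt_one hε (by norm_num : (1 / 2 : ℝ) < 1)
      have e1 := expand hn hy j
      have e2 := expand hn hy' j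
      have e3 : ∑ i ∈ Finset.range j, (dg n y i : ℝ) / (∏ k ∈ Finset.range (i + 1), (n k : ℝ)) =
          ∑ i ∈ Finset.range j, (dg n y' i : ℝ) / (∏ k ∈ Finset.range (i + 1), (n k : ℝ)) :=
        Finset.sum_congr rfl fun i _ => by rw [hall i]
      have e4 : y - y' = (rm n y j - rm n y' j) / ∏ k ∈ Finset.range j, (n k : ℝ) := by
        rw [sub_div]
        linarith
      have hP := prod_pos' hn j
      have h2 := rm_mem n hy j
      have h3 := rm_mem n hy' j
      rw [e4, abs_div, abs_of_pos hP]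
      have h4 : |rm n y j - rm n y' j| ≤ 1 := by
        rw [abs_le]
        constructor <;> linarith [h2.1, h2.2, h3.1, h3.2]
      have h5 : |rm n y j - rm n y' j| / ∏ k ∈ Finset.range j, (n k : ℝ) ≤ 1 / 2 ^ j :=
        div_le_div₀ (by norm_num) h4 (by positivity) (two_pow_le hn j)
      have h6 : (1 / 2 : ℝ) ^ j = 1 / 2 ^ j := by rw [div_pow, one_pow]
      rw [h6] at hj
      linarith
    exact h1.trans (by positivity)
  · push Not at hall
    classical
    obtain ⟨hj1, hj2⟩ : dg n y (Nat.find hall) ≠ dg n y' (Nat.find hall) ∧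
        ∀ i < Nat.find hall, dg n y i = dg n y' i :=
      ⟨Nat.find_spec hall, fun i hi => by_contra fun h => Nat.find_min hall hi h⟩
    set j := Nat.find hall
    set z : ℕ → ℝ := fun i => (dg n y i : ℝ) - dg n y' i with hz
    have hzb : ∀ i, |z i| ≤ n i := by
      intro i
      have h1 : ((dg n y i : ℕ) : ℝ) < n i := by exact_mod_cast dg_lt hn hy i
      have h2 : ((dg n y' i : ℕ) : ℝ) < n i := by exact_mod_cast dg_lt hn hy' i
      have h3 : (0 : ℝ) ≤ dg n y i := Nat.cast_nonneg _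
      have h4 : (0 : ℝ) ≤ dg n y' i := Nat.cast_nonneg _
      rw [abs_le]
      constructor <;> simp only [hz] <;> linarith
    have hz0 : ∀ i < j, z i = 0 := fun i hi => by simp only [hz, hj2 i hi, sub_self]
    have hzj : 1 ≤ |z j| := by
      have h1 : ((dg n y j : ℤ) - dg n y' j) ≠ 0 := by
        intro h
        apply hj1
        omega
      have h2 : (1 : ℤ) ≤ |(dg n y j : ℤ) - dg n y' j| := Int.one_le_abs h1
      have h3 : |z j| = ((|(dg n y j : ℤ) - dg n y' j| : ℤ) : ℝ) := by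
        simp only [hz]
        push_cast
        rfl
      rw [h3]
      exact_mod_cast h2
    have hDj := D_real hD j
    have hPj := prod_pos' hn j
    have hPj' := prod_pos' hn (j + 1)
    have hnj : (0 : ℝ) < n j := by
      have := hn j
      exact_mod_cast (by omega : 0 < n j)
    -- the difference of the images
    have hdiff : (A + ∑' j, (dg n y j : ℝ) / D j) - (A + ∑' j, (dg n y' j : ℝ) / D j) = ∑' i, z i / D i := by
      have s1 : Summable fun i => (dg n y i : ℝ) / D i := summ hsep hD hn (fun i => (dg n y i : ℝ)) fun i => by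
        rw [abs_of_nonneg (Nat.cast_nonneg _)]
        exact_mod_cast (dg_lt hn hy i).le
      have s2 : Summable fun i => (dg n y' i : ℝ) / D i := summ hsep hD hn (fun i => (dg n y' i : ℝ)) fun i => by
        rw [abs_of_nonneg (Nat.cast_nonneg _)]
        exact_mod_cast (dg_lt hn hy' i).le
      rw [add_sub_add_left_eq_sub, ← s1.tsum_sub s2]
      refine tsum_congr fun i => ?_
      simp only [hz]
      ring
    have hlow : |z j| / (2 * D j) ≤ |∑' i, z i / D i| := by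
      refine le_trans ?_ (lower hsep hD hn z hzb j hz0)
      have h1 : 1 / (2 * (D j : ℝ)) ≤ |z j| / (2 * D j) := div_le_div_of_nonneg_right hzj (by positivity)
      have h2 : |z j| / (D j : ℝ) = 2 * (|z j| / (2 * D j)) := by
        field_simp
      linarith
    -- the difference of the arguments
    have hup : |y - y'| ≤ 2 * |z j| / (∏ k ∈ Finset.range (j + 1), (n k : ℝ)) := by
      have e1 := expand hn hy (j + 1)
      have e2 := expand hn hy' (j + 1)
      rw [Finset.sum_range_succ] at e1 e2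
      have e3 : ∑ i ∈ Finset.range j, (dg n y i : ℝ) / (∏ k ∈ Finset.range (i + 1), (n k : ℝ)) =
          ∑ i ∈ Finset.range j, (dg n y' i : ℝ) / (∏ k ∈ Finset.range (i + 1), (n k : ℝ)) :=
        Finset.sum_congr rfl fun i hi => by rw [hj2 i (Finset.mem_range.1 hi)]
      have e4 : y - y' = (z j + (rm n y (j + 1) - rm n y' (j + 1))) / ∏ k ∈ Finset.range (j + 1), (n k : ℝ) := by
        simp only [hz]
        rw [add_div, sub_div, sub_div]
        linarith
      have h2 := rm_mem n hy (j + 1)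
      have h3 := rm_mem n hy' (j + 1)
      rw [e4, abs_div, abs_of_pos hPj']
      refine div_le_div_of_nonneg_right ?_ hPj'.le
      have h4 : |rm n y (j + 1) - rm n y' (j + 1)| ≤ 1 := by
        rw [abs_le]
        constructor <;> linarith [h2.1, h2.2, h3.1, h3.2]
      have h5 := abs_add_le (z j) (rm n y (j + 1) - rm n y' (j + 1))
      linarith
    rw [hdiff]
    refine hup.trans ?_
    have h1 : (|z j| / (2 * D j)) ^ s ≤ |∑' i, z i / D i| ^ s :=
      Real.rpow_le_rpow (by positivity) hlow hs.le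
    refine le_trans ?_ (mul_le_mul_of_nonneg_left h1 (by positivity))
    have hzp : 0 < |z j| := by linarith
    rw [Real.div_rpow hzp.le (by positivity), Real.mul_rpow (by norm_num) hDj.le, Finset.prod_range_succ]
    set P := ∏ k ∈ Finset.range j, (n k : ℝ)
    have h2s : (2 : ℝ) ^ s ≤ 2 := by
      calc (2 : ℝ) ^ s ≤ 2 ^ (1 : ℝ) := Real.rpow_le_rpow_of_exponent_le (by norm_num) hs1.le
        _ = 2 := Real.rpow_one 2
    have h2s0 : 0 < (2 : ℝ) ^ s := by positivity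
    have hDs : 0 < (D j : ℝ) ^ s := by positivity
    -- `δ = δ ^ s * δ ^ (1 - s)`
    have hδ : |z j| = |z j| ^ s * |z j| ^ (1 - s) := by
      rw [← Real.rpow_add hzp]
      ring_nf
      rw [Real.rpow_one]
    have hnn : (n j : ℝ) = (n j : ℝ) ^ s * (n j : ℝ) ^ (1 - s) := by
      rw [← Real.rpow_add hnj]
      ring_nf
      rw [Real.rpow_one]
    have hle : |z j| ^ (1 - s) ≤ (n j : ℝ) ^ (1 - s) :=
      Real.rpow_le_rpow hzp.le (hzb j) (by linarith)
    have hzs : 0 < |z j| ^ s := by positivity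
    have hns : 0 < (n j : ℝ) ^ s := by positivity
    have hn1 : 0 < (n j : ℝ) ^ (1 - s) := by positivity
    rw [div_le_iff₀ (by positivity), ← mul_div_assoc, div_mul_eq_mul_div, le_div_iff₀ (by positivity)]
    calc 2 * |z j| * (2 ^ s * (D j : ℝ) ^ s) = 2 * (|z j| ^ s * |z j| ^ (1 - s)) * (2 ^ s * (D j : ℝ) ^ s) := by
          rw [← hδ]
      _ ≤ 2 * (|z j| ^ s * (n j : ℝ) ^ (1 - s)) * (2 * (C * P * (n j : ℝ) ^ s)) := by
          gcongr
          exact hg j
      _ = 4 * C * |z j| ^ s * (P * ((n j : ℝ) ^ s * (n j : ℝ) ^ (1 - s))) := by ring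
      _ = 4 * C * |z j| ^ s * (P * (n j : ℝ)) := by rw [← hnn]

theorem dim_digits (D n : ℕ → ℕ) (A : ℝ) (E : Set ℝ) (hD : ∀ j, 0 < D j) (hn : ∀ j, 2 ≤ n j)
    (hsep : ∀ j, 2 * (n (j + 1) : ℝ) / D (j + 1) ≤ 1 / (2 * D j))
    (hgrow : ∀ s : ℝ, 0 < s → s < 1 → ∃ C : ℝ, 0 < C ∧ ∀ j,
      (D j : ℝ) ^ s ≤ C * (∏ i ∈ Finset.range j, (n i : ℝ)) * (n j : ℝ) ^ s)
    (hE : ∀ x : ℕ → ℕ, (∀ j, x j < n j) → A + ∑' j, (x j : ℝ) / D j ∈ E) : 1 ≤ dimH E := by
  set g : ℝ → ℝ := fun y => A + ∑' j, (dg n y j : ℝ) / D j with hgdef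
  have hgE : g '' Set.Ico (0 : ℝ) 1 ⊆ E := by
    rintro _ ⟨y, hy, rfl⟩
    exact hE _ fun j => dg_lt hn hy j
  have key : ∀ s : ℝ, 0 < s → s < 1 → ENNReal.ofReal s ≤ dimH E := by
    intro s hs hs1
    obtain ⟨C, hC, hg⟩ := hgrow s hs hs1
    have hhol : ∀ y ∈ Set.Ico (0 : ℝ) 1, ∀ y' ∈ Set.Ico (0 : ℝ) 1, |y - y'| ≤ 4 * C * |g y - g y'| ^ s :=
      fun y hy y' hy' => holder hsep hD hn A hs hs1 hC hg hy hy'
    set f : ℝ → ℝ := Function.invFunOn g (Set.Ico (0 : ℝ) 1) with hf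
    have hf1 : ∀ z ∈ g '' Set.Ico (0 : ℝ) 1, f z ∈ Set.Ico (0 : ℝ) 1 ∧ g (f z) = z := by
      intro z hz
      exact ⟨Function.invFunOn_mem hz, Function.invFunOn_eq hz⟩
    have hf2 : f '' (g '' Set.Ico (0 : ℝ) 1) = Set.Ico (0 : ℝ) 1 := by
      apply Set.Subset.antisymm
      · rintro _ ⟨z, hz, rfl⟩
        exact (hf1 z hz).1
      · intro y hy
        have hz : g y ∈ g '' Set.Ico (0 : ℝ) 1 := ⟨y, hy, rfl⟩
        refine ⟨g y, hz, ?_⟩
        have h1 := hhol _ (hf1 _ hz).1 y hy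
        rw [(hf1 _ hz).2, sub_self, abs_zero, Real.zero_rpow hs.ne', mul_zero] at h1
        have h2 := abs_nonneg (f (g y) - y)
        have h3 : |f (g y) - y| = 0 := le_antisymm h1 h2
        linarith [abs_eq_zero.1 h3]
    have hH : HolderOnWith (Real.toNNReal (4 * C)) (Real.toNNReal s) f (g '' Set.Ico (0 : ℝ) 1) := by
      intro z hz z' hz'
      have h1 := hhol _ (hf1 z hz).1 _ (hf1 z' hz').1
      rw [(hf1 z hz).2, (hf1 z' hz').2] at h1
      rw [edist_dist, edist_dist, Real.dist_eq, Real.dist_eq, Real.coe_toNNReal s hs.le,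
        ENNReal.ofReal_rpow_of_nonneg (abs_nonneg _) hs.le]
      change ENNReal.ofReal |f z - f z'| ≤ ENNReal.ofReal (4 * C) * ENNReal.ofReal (|z - z'| ^ s)
      rw [← ENNReal.ofReal_mul (by positivity)]
      exact ENNReal.ofReal_le_ofReal h1
    have hs0 : 0 < Real.toNNReal s := Real.toNNReal_pos.2 hs
    have h1 := hH.dimH_image_le hs0
    rw [hf2] at h1
    have h2 : dimH (Set.Ico (0 : ℝ) 1) = 1 := by
      have h3 := Real.dimH_of_nonempty_interior (s := Set.Ico (0 : ℝ) 1) (by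
        rw [interior_Ico]
        exact Set.nonempty_Ioo.2 one_pos)
      simpa using h3
    rw [h2] at h1
    have h4 : (1 : ENNReal) ≤ dimH E / (Real.toNNReal s : NNReal) :=
      h1.trans (ENNReal.div_le_div_right (dimH_mono hgE) _)
    have h5 := (ENNReal.le_div_iff_mul_le (Or.inl (by exact_mod_cast hs0.ne')) (Or.inl ENNReal.coe_ne_top)).1 h4
    rw [one_mul] at h5
    exact h5
  refine le_of_forall_lt fun c hc => ?_
  have hc1 : c ≠ ⊤ := hc.ne_top
  set t := c.toReal with ht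
  have ht0 : 0 ≤ t := ENNReal.toReal_nonneg
  have ht1 : t < 1 := by
    have := (ENNReal.toReal_lt_toReal hc1 ENNReal.one_ne_top).2 hc
    simpa using this
  have hk := key ((1 + t) / 2) (by linarith) (by linarith)
  refine lt_of_lt_of_le ?_ hk
  rw [← ENNReal.ofReal_toReal hc1]
  exact (ENNReal.ofReal_lt_ofReal_iff (by linarith)).2 (by linarith)

end Pool.Agent.H1.PP
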