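import Pool.Agent.H1.PP.Seq
import Pool.Agent.H1.PP.Dim

/-!
# Module DimE: the set of `α` with `Near j α` for all large `j` has dimension 1 in every interval

`KK j ≥ 16 / eta j` and `KK j ≥ (∏_{l ≤ j+1} 16 / eta l)^(j+1)`. Given `x < y`, choose `J0` with `4 / d J0 < y - x` (`two_pow_le_d`), `z = ⌊x d J0⌋ + 1`,
`D j = d (J0 + j + 1)`, `n j = ⌊m i * eta i / 2⌋₊`, `i = J0 + j` (so `m i eta i / 4 ≤ n j ≤ m i eta i / 2`, as `m i eta i ≥ 16`),
`A = z / d J0 + ∑' j, (m i / b i) / d (i + 1)` (`b i ∣ m i`). For digits `x j < n j` put `α = A + ∑' x j / D j`. For `i ≥ J0`: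
`d i α = integer + 1 / b i + x / m i + tail` where the integer comes from `z` and the terms of index `< i` (`d i / d (l+1)` is an integer for `l < i`),
`0 ≤ x / m i ≤ eta i / 2`, `0 ≤ tail ≤ d i ∑_{l>i} (1 / b l + eta l / 2) / d l ≤ 3 / m i ≤ eta i / 2`. So `distInt (d i α - 1 / b i) ≤ eta i` and `Near i α` with `c = 1`.
`x < z / d J0 ≤ α ≤ z / d J0 + 3 / d J0 < y`. `hsep`: `eta ≤ 1/4`. `hgrow`: with `e l = eta l / 4`, `∏_{l<j} n l ≥ (d i / d J0) ∏ e`, `n j^s ≥ m i^s e i`,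
`D j^s = d i^s m i^s`,
so it is enough that `d i^(1-s) ≥ (d J0 / C) ∏_{l ≤ i} 1 / e l`, true with `C = d J0` for `i ≥ 1/(1-s)`, `i ≥ 1`, by `d i ≥ m (i-1) ≥ KK (i-1)`, and for the
finitely many other `i` by taking `C` large. Upper bound: `dimH_mono`, `Real.dimH_univ`.
-/

set_option autoImplicit false

namespace Pool.Agent.H1.PP

open Filter Topology Finset
open Pool.Agent.H53.PPC (distInt)

variable [Slow]

/-- required size of the multipliers -/
noncomputable def KK (j : ℕ) : ℕ := (∏ l ∈ Finset.range (j + 2), ⌈16 / eta l⌉₊) ^ (j + 1)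

private theorem b_real (j : ℕ) : (1 : ℝ) ≤ b j := by exact_mod_cast b_pos j

private theorem S_real (j : ℕ) : (1 : ℝ) ≤ S (j + 1) := by exact_mod_cast S_succ_pos j

private theorem eta_le (j : ℕ) : eta j ≤ 1 / 4 := by
  have h1 := b_real j
  have h2 := S_real j
  have h3 : ((1 : ℝ) / 2) ^ j ≤ 1 := pow_le_one₀ (by norm_num) (by norm_num)
  unfold eta eps
  rw [div_div]
  apply div_le_div₀ (by norm_num) h3 (by norm_num)
  nlinarith [mul_nonneg (sub_nonneg.2 h1) (sub_nonneg.2 h1), mul_nonneg (sub_nonneg.2 h1) (sub_nonneg.2 h2),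
    mul_nonneg (mul_nonneg (sub_nonneg.2 h1) (sub_nonneg.2 h2)) (sub_nonneg.2 h1)]

private noncomputable def cl (l : ℕ) : ℕ := ⌈16 / eta l⌉₊

private theorem cl_ge (l : ℕ) : 16 / eta l ≤ cl l := Nat.le_ceil _

private theorem cl_ge' (l : ℕ) : (64 : ℝ) ≤ cl l := by
  refine le_trans ?_ (cl_ge l)
  rw [le_div_iff₀ (eta_pos l)]
  linarith [eta_le l]

private theorem cl_one (l : ℕ) : 1 ≤ cl l := by
  have h := cl_ge' l
  have : (1 : ℝ) ≤ cl l := by linarith
  exact_mod_cast this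

private noncomputable def QQ (j : ℕ) : ℕ := ∏ l ∈ Finset.range j, cl l

private theorem QQ_one (j : ℕ) : 1 ≤ QQ j := Finset.one_le_prod' fun i _ => cl_one i

private theorem QQ_mono {i j : ℕ} (h : i ≤ j) : QQ i ≤ QQ j :=
  Finset.prod_le_prod_of_subset_of_one_le' (Finset.range_mono h) fun l _ _ => cl_one l

private theorem cl_le_QQ {l j : ℕ} (h : l < j) : cl l ≤ QQ j :=
  Finset.single_le_prod' (fun l _ => cl_one l) (Finset.mem_range.2 h)

private theorem KK_eq (j : ℕ) : KK j = QQ (j + 2) ^ (j + 1) := rfl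

private theorem m_eta [Mult] (hK : ∀ j, KK j ≤ m j) (j : ℕ) : (16 : ℝ) ≤ m j * eta j := by
  have h1 : cl j ≤ m j := by
    refine le_trans ?_ (hK j)
    rw [KK_eq]
    exact le_trans (cl_le_QQ (by omega)) (Nat.le_self_pow (by omega) _)
  have h2 : (cl j : ℝ) ≤ m j := by exact_mod_cast h1
  have h3 := le_trans (cl_ge j) h2
  rwa [div_le_iff₀ (eta_pos j)] at h3

private theorem d_real [Mult] (j : ℕ) : (0 : ℝ) < d j := by exact_mod_cast d_pos j

private theorem m_real [Mult] (j : ℕ) : (2 : ℝ) ≤ m j := by exact_mod_cast two_le_m j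

private theorem d_succ' [Mult] (j : ℕ) : (d (j + 1) : ℝ) = d j * m j := by rw [d_succ]; push_cast; ring

/-- number of digits -/
private noncomputable def nn [Mult] (J0 j : ℕ) : ℕ := ⌊m (J0 + j) * eta (J0 + j) / 2⌋₊

private theorem nn_le [Mult] (J0 j : ℕ) : (nn J0 j : ℝ) ≤ m (J0 + j) * eta (J0 + j) / 2 := by
  have h1 := m_real (J0 + j)
  have h2 := eta_pos (J0 + j)
  exact Nat.floor_le (by positivity)

private theorem nn_ge [Mult] (hK : ∀ j, KK j ≤ m j) (J0 j : ℕ) : m (J0 + j) * eta (J0 + j) / 4 ≤ (nn J0 j : ℝ) := by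
  have h1 := m_eta hK (J0 + j)
  have h2 := Nat.lt_floor_add_one (m (J0 + j) * eta (J0 + j) / 2 : ℝ)
  unfold nn
  linarith

private theorem nn_two [Mult] (hK : ∀ j, KK j ≤ m j) (J0 j : ℕ) : 2 ≤ nn J0 j := by
  have h1 := nn_ge hK J0 j
  have h2 := m_eta hK (J0 + j)
  have h3 : (2 : ℝ) ≤ nn J0 j := by linarith
  exact_mod_cast h3

private theorem dvd_d [Mult] (i j : ℕ) : d i ∣ d (i + j) := by
  induction j with
  | zero => exact dvd_rfl
  | succ j ih =>
    rw [← add_assoc, d_succ]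
    exact Dvd.dvd.mul_right ih _

private theorem d_ge [Mult] (i j : ℕ) : (2 : ℝ) ^ j * d i ≤ d (i + j) := by
  induction j with
  | zero => simp
  | succ j ih =>
    rw [← add_assoc, d_succ', pow_succ]
    have h1 := m_real (i + j)
    have h2 := d_real (i + j)
    calc (2 : ℝ) ^ j * 2 * d i = 2 * (2 ^ j * d i) := by ring
      _ ≤ m (i + j) * d (i + j) := mul_le_mul h1 ih (by have := d_real i; positivity) (by linarith)
      _ = d (i + j) * m (i + j) := by ring

/-- the full digits -/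
private noncomputable def ww [Mult] (J0 : ℕ) (x : ℕ → ℕ) (j : ℕ) : ℕ := m (J0 + j) / b (J0 + j) + x j

private theorem ww_real [Mult] (J0 : ℕ) (x : ℕ → ℕ) (j : ℕ) :
    (ww J0 x j : ℝ) = m (J0 + j) / b (J0 + j) + x j := by
  unfold ww
  have hb : (b (J0 + j) : ℝ) ≠ 0 := by have := b_real (J0 + j); positivity
  rw [Nat.cast_add, Nat.cast_div (b_dvd_m _) hb]

private theorem ww_le [Mult] (J0 : ℕ) {x : ℕ → ℕ} (hx : ∀ j, x j < nn J0 j) (j : ℕ) :
    (ww J0 x j : ℝ) / d (J0 + j + 1) ≤ (9 / 8) / d J0 * (1 / 2) ^ j := by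
  have h1 : (x j : ℝ) ≤ nn J0 j := by exact_mod_cast (hx j).le
  have h2 := nn_le J0 j
  have h3 := eta_le (J0 + j)
  have h4 := m_real (J0 + j)
  have h5 : (m (J0 + j) : ℝ) / b (J0 + j) ≤ m (J0 + j) := div_le_self (by linarith) (b_real _)
  have h6 : (ww J0 x j : ℝ) ≤ 9 / 8 * m (J0 + j) := by
    rw [ww_real]
    nlinarith
  have h7 := d_real (J0 + j)
  have h8 := d_real J0
  rw [d_succ', div_le_iff₀ (by positivity)]
  have h9 := d_ge J0 j
  have h10 : (9 / 8) / (d J0 : ℝ) * (1 / 2) ^ j * (2 ^ j * d J0 * m (J0 + j)) = 9 / 8 * m (J0 + j) := by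
    have : ((1 : ℝ) / 2) ^ j * 2 ^ j = 1 := by rw [← mul_pow]; norm_num
    calc (9 / 8) / (d J0 : ℝ) * (1 / 2) ^ j * (2 ^ j * d J0 * m (J0 + j)) =
        (9 / 8) * (((1 / 2) ^ j * 2 ^ j) * (d J0 / d J0)) * m (J0 + j) := by ring
      _ = 9 / 8 * m (J0 + j) := by rw [this, div_self h8.ne']; ring
  refine le_trans h6 (le_trans (le_of_eq h10.symm) ?_)
  gcongr

omit [Slow] in
private theorem geo (c : ℝ) : Summable fun j : ℕ => c * (1 / 2 : ℝ) ^ j :=
  (summable_geometric_of_lt_one (by norm_num) (by norm_num)).mul_left c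

omit [Slow] in
private theorem geo_sum (c : ℝ) : ∑' j : ℕ, c * (1 / 2 : ℝ) ^ j = 2 * c := by
  rw [tsum_mul_left, tsum_geometric_of_lt_one (by norm_num) (by norm_num)]
  norm_num
  ring

private theorem ww_nonneg [Mult] (J0 : ℕ) (x : ℕ → ℕ) (j : ℕ) : 0 ≤ (ww J0 x j : ℝ) / d (J0 + j + 1) := by
  positivity

private theorem ww_summable [Mult] (J0 : ℕ) {x : ℕ → ℕ} (hx : ∀ j, x j < nn J0 j) :
    Summable fun j => (ww J0 x j : ℝ) / d (J0 + j + 1) :=
  Summable.of_nonneg_of_le (ww_nonneg J0 x) (ww_le J0 hx) (geo _)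

private theorem ww_tsum [Mult] (J0 : ℕ) {x : ℕ → ℕ} (hx : ∀ j, x j < nn J0 j) :
    ∑' j, (ww J0 x j : ℝ) / d (J0 + j + 1) ≤ 3 / d J0 := by
  refine le_trans (Summable.tsum_le_tsum (ww_le J0 hx) (ww_summable J0 hx) (geo _)) ?_
  rw [geo_sum]
  have h8 := d_real J0
  rw [← mul_div_assoc]
  gcongr
  norm_num

/-- the common starting point -/
private noncomputable def AA [Mult] (J0 : ℕ) (z : ℤ) : ℝ :=
  z / d J0 + ∑' j, ((m (J0 + j) : ℝ) / b (J0 + j)) / d (J0 + j + 1)

private theorem point_eq [Mult] (J0 : ℕ) (z : ℤ) {x : ℕ → ℕ} (hx : ∀ j, x j < nn J0 j) :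
    AA J0 z + ∑' j, (x j : ℝ) / d (J0 + j + 1) = z / d J0 + ∑' j, (ww J0 x j : ℝ) / d (J0 + j + 1) := by
  have h1 := ww_summable J0 hx
  have h2 : Summable fun j => ((m (J0 + j) : ℝ) / b (J0 + j)) / d (J0 + j + 1) := by
    refine Summable.of_nonneg_of_le (fun j => by positivity) (fun j => ?_) h1
    rw [ww_real]
    gcongr
    simp
  have h3 : Summable fun j => (x j : ℝ) / d (J0 + j + 1) := by
    refine Summable.of_nonneg_of_le (fun j => by positivity) (fun j => ?_) h1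
    rw [ww_real]
    gcongr
    have : (0 : ℝ) ≤ m (J0 + j) / b (J0 + j) := by positivity
    linarith
  unfold AA
  rw [add_assoc, ← h2.tsum_add h3]
  congr 1
  apply tsum_congr
  intro j
  rw [ww_real]
  ring

private theorem near_all [Mult] (hK : ∀ j, KK j ≤ m j) (J0 : ℕ) (z : ℤ) {x : ℕ → ℕ} (hx : ∀ j, x j < nn J0 j) (K : ℕ) :
    Near (J0 + K) (z / d J0 + ∑' j, (ww J0 x j : ℝ) / d (J0 + j + 1)) := by
  refine ⟨1, isCoprime_one_left, ?_⟩
  set i := J0 + K with hi
  have hs := ww_summable J0 hx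
  have hsplit := hs.sum_add_tsum_nat_add (K + 1)
  set T : ℝ := ∑' j, (ww J0 x (j + (K + 1)) : ℝ) / d (J0 + (j + (K + 1)) + 1) with hT
  have hd := d_real i
  have hT0 : 0 ≤ T := tsum_nonneg fun j => ww_nonneg J0 x _
  have hm := m_real i
  have hT1 : T ≤ 3 / (d i * m i) := by
    have h1 := ww_tsum (i + 1) (x := fun j => x (j + (K + 1))) (fun j => by
      have := hx (j + (K + 1))
      have e : J0 + (j + (K + 1)) = i + 1 + j := by omega
      unfold nn at this ⊢
      rwa [e] at this)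
    rw [← d_succ']
    refine le_trans (le_of_eq ?_) h1
    rw [hT]
    apply tsum_congr
    intro j
    have e : J0 + (j + (K + 1)) = i + 1 + j := by omega
    unfold ww
    rw [e]
  -- the integer part
  have hint : ∃ M : ℤ, (d i : ℝ) * (z / d J0 + ∑ j ∈ Finset.range K, (ww J0 x j : ℝ) / d (J0 + j + 1)) = M := by
    obtain ⟨q, hq⟩ := dvd_d J0 K
    have hq' : (d i : ℝ) = d J0 * q := by rw [hi, hq]; push_cast; ring
    have h0 := d_real J0
    have hsum : ∃ N : ℤ, (d i : ℝ) * ∑ j ∈ Finset.range K, (ww J0 x j : ℝ) / d (J0 + j + 1) = N := by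
      choose q2 hq2 using fun j : ℕ => dvd_d (J0 + j + 1) (K - j - 1)
      refine ⟨∑ j ∈ Finset.range K, (ww J0 x j : ℤ) * (q2 j : ℤ), ?_⟩
      rw [Finset.mul_sum]
      push_cast
      apply Finset.sum_congr rfl
      intro j hj
      have hjK := Finset.mem_range.1 hj
      have e : J0 + j + 1 + (K - j - 1) = i := by omega
      have h3 := hq2 j
      rw [e] at h3
      have h4 : (d i : ℝ) = d (J0 + j + 1) * q2 j := by rw [h3]; push_cast; ring
      have h5 := d_real (J0 + j + 1)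
      rw [h4]
      field_simp
    obtain ⟨N, hN⟩ := hsum
    refine ⟨z * q + N, ?_⟩
    rw [mul_add, hN, hq']
    push_cast
    field_simp
  obtain ⟨M, hM⟩ := hint
  rw [← hsplit, Finset.sum_range_succ]
  have hkey : (d i : ℝ) * (z / d J0 + ((∑ j ∈ Finset.range K, (ww J0 x j : ℝ) / d (J0 + j + 1)) +
      (ww J0 x K : ℝ) / d (J0 + K + 1) + T)) - ((1 : ℤ) : ℝ) / b i = M + (x K / m i + d i * T) := by
    have e1 : (ww J0 x K : ℝ) / d (J0 + K + 1) = (1 / b i + x K / m i) / d i := by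
      rw [d_succ', ww_real, ← hi]
      have hb : (b i : ℝ) ≠ 0 := by have := b_real i; positivity
      have hm0 : (m i : ℝ) ≠ 0 := by positivity
      field_simp
    rw [e1, ← hM]
    push_cast
    field_simp
    ring
  rw [hkey]
  have hx1 : (x K : ℝ) / m i ≤ eta i / 2 := by
    rw [div_le_iff₀ (by positivity)]
    have h1 : (x K : ℝ) ≤ nn J0 K := by exact_mod_cast (hx K).le
    have h2 := nn_le J0 K
    rw [← hi] at h2
    linarith
  have hx0 : 0 ≤ (x K : ℝ) / m i := by positivity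
  have ht1 : d i * T ≤ eta i / 2 := by
    have h1 : d i * T ≤ d i * (3 / (d i * m i)) := mul_le_mul_of_nonneg_left hT1 hd.le
    have h2 : (d i : ℝ) * (3 / (d i * m i)) = 3 / m i := by field_simp
    have h3 : (3 : ℝ) / m i ≤ eta i / 2 := by
      rw [div_le_iff₀ (by positivity)]
      have := m_eta hK i
      linarith
    linarith
  have ht0 : 0 ≤ d i * T := mul_nonneg hd.le hT0
  have hfin : distInt ((M : ℝ) + (x K / m i + d i * T)) ≤ |x K / m i + d i * T| := by
    rw [add_comm, Pool.Agent.H53.PPC.distInt_add_int]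
    exact Pool.Agent.H53.PPC.distInt_le_abs _
  refine le_trans hfin ?_
  rw [abs_of_nonneg (by linarith)]
  linarith

private theorem grow [Mult] (hK : ∀ j, KK j ≤ m j) (J0 : ℕ) (s : ℝ) (hs : 0 < s) (hs1 : s < 1) :
    ∃ C : ℝ, 0 < C ∧ ∀ j, (d (J0 + j + 1) : ℝ) ^ s ≤ C * (∏ i ∈ Finset.range j, (nn J0 i : ℝ)) * (nn J0 j : ℝ) ^ s := by
  obtain ⟨N, hN⟩ := exists_nat_ge (1 / (1 - s))
  have hs2 : 0 < 1 - s := by linarith
  have hd0 := d_real J0
  have hQN : (1 : ℝ) ≤ QQ (N + 1) := by exact_mod_cast QQ_one _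
  refine ⟨d J0 * QQ (N + 1), by positivity, fun j => ?_⟩
  set i := J0 + j with hi
  have hd := d_real i
  have hm := m_real i
  have hd1 : (1 : ℝ) ≤ d i := by exact_mod_cast d_pos i
  -- product of the multipliers
  have hprod : ∀ j : ℕ, (d (J0 + j) : ℝ) ≤ d J0 * QQ (J0 + j) * ∏ i ∈ Finset.range j, (nn J0 i : ℝ) := by
    intro j
    induction j with
    | zero =>
      simp only [add_zero, Finset.range_zero, Finset.prod_empty, mul_one]
      have : (1 : ℝ) ≤ QQ J0 := by exact_mod_cast QQ_one _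
      nlinarith
    | succ j ih =>
      rw [← add_assoc, d_succ', Finset.prod_range_succ]
      have h1 : (m (J0 + j) : ℝ) ≤ cl (J0 + j) * nn J0 j := by
        have h2 := nn_ge hK J0 j
        have h3 := cl_ge (J0 + j)
        have h4 := eta_pos (J0 + j)
        rw [div_le_iff₀ h4] at h3
        have h5 := m_real (J0 + j)
        have h6 : (0 : ℝ) ≤ cl (J0 + j) := by positivity
        calc (m (J0 + j) : ℝ) ≤ m (J0 + j) * (cl (J0 + j) * eta (J0 + j) / 4) :=
              le_mul_of_one_le_right (by linarith) (by linarith)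
          _ = cl (J0 + j) * (m (J0 + j) * eta (J0 + j) / 4) := by ring
          _ ≤ cl (J0 + j) * nn J0 j := mul_le_mul_of_nonneg_left h2 h6
      have h2 : (QQ (J0 + j + 1) : ℝ) = QQ (J0 + j) * cl (J0 + j) := by
        unfold QQ
        rw [Finset.prod_range_succ]
        push_cast
        ring
      rw [h2]
      calc (d (J0 + j) : ℝ) * m (J0 + j) ≤
          (d J0 * QQ (J0 + j) * ∏ i ∈ Finset.range j, (nn J0 i : ℝ)) * (cl (J0 + j) * nn J0 j) :=
            mul_le_mul ih h1 (by positivity) (by positivity)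
        _ = d J0 * (QQ (J0 + j) * cl (J0 + j)) * ((∏ i ∈ Finset.range j, (nn J0 i : ℝ)) * nn J0 j) := by ring
  have hp := hprod j
  rw [← hi] at hp
  set P : ℝ := ∏ i ∈ Finset.range j, (nn J0 i : ℝ) with hP
  have hP0 : 0 ≤ P := Finset.prod_nonneg fun i _ => Nat.cast_nonneg _
  -- the last factor
  have hlast : (m i : ℝ) ^ s ≤ cl i * (nn J0 j : ℝ) ^ s := by
    have h2 := nn_ge hK J0 j
    rw [← hi] at h2
    have h3 := cl_ge i
    have h4 := eta_pos i
    rw [div_le_iff₀ h4] at h3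
    have h6 : (1 : ℝ) ≤ cl i := by exact_mod_cast cl_one i
    have h1 : (m i : ℝ) ≤ cl i * nn J0 j := by
      calc (m i : ℝ) ≤ m i * (cl i * eta i / 4) := le_mul_of_one_le_right (by linarith) (by linarith)
        _ = cl i * (m i * eta i / 4) := by ring
        _ ≤ cl i * nn J0 j := mul_le_mul_of_nonneg_left h2 (by linarith)
    calc (m i : ℝ) ^ s ≤ (cl i * nn J0 j : ℝ) ^ s := Real.rpow_le_rpow (by positivity) h1 hs.le
      _ = (cl i : ℝ) ^ s * (nn J0 j : ℝ) ^ s := Real.mul_rpow (by positivity) (by positivity)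
      _ ≤ cl i * (nn J0 j : ℝ) ^ s := by
          apply mul_le_mul_of_nonneg_right _ (by positivity)
          calc (cl i : ℝ) ^ s ≤ (cl i : ℝ) ^ (1 : ℝ) := Real.rpow_le_rpow_of_exponent_le h6 hs1.le
            _ = cl i := Real.rpow_one _
  have hQi : (QQ (i + 1) : ℝ) = QQ i * cl i := by
    unfold QQ
    rw [Finset.prod_range_succ]
    push_cast
    ring
  -- growth of `d`
  have hgr : (QQ (i + 1) : ℝ) ≤ QQ (N + 1) * (d i : ℝ) ^ (1 - s) := by
    rcases lt_or_ge i N with h | h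
    · have h1 : (QQ (i + 1) : ℝ) ≤ QQ (N + 1) := by exact_mod_cast QQ_mono (by omega)
      have h2 : (1 : ℝ) ≤ (d i : ℝ) ^ (1 - s) := Real.one_le_rpow hd1 hs2.le
      nlinarith
    · have hN1 : (1 : ℝ) ≤ N * (1 - s) := by
        rwa [div_le_iff₀ hs2] at hN
      have hi1 : (1 : ℝ) ≤ i * (1 - s) := by
        have : (N : ℝ) ≤ i := by exact_mod_cast h
        nlinarith
      obtain ⟨k, hk⟩ : ∃ k, i = k + 1 := by
        rcases Nat.eq_zero_or_pos i with h0 | h0
        · rw [h0] at hi1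
          norm_num at hi1
        · exact ⟨i - 1, by omega⟩
      have h1 : QQ (i + 1) ^ i ≤ d i := by
        have h2 := hK k
        rw [KK_eq] at h2
        have e1 : k + 2 = i + 1 := by omega
        rw [e1, ← hk] at h2
        refine le_trans h2 ?_
        rw [hk, d_succ]
        exact Nat.le_mul_of_pos_left _ (d_pos k)
      have h2 : ((QQ (i + 1) : ℝ)) ^ i ≤ d i := by exact_mod_cast h1
      have hQ1 : (1 : ℝ) ≤ QQ (i + 1) := by exact_mod_cast QQ_one _
      have h3 : (QQ (i + 1) : ℝ) ≤ (d i : ℝ) ^ (1 - s) := by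
        calc (QQ (i + 1) : ℝ) = (QQ (i + 1) : ℝ) ^ (1 : ℝ) := (Real.rpow_one _).symm
          _ ≤ (QQ (i + 1) : ℝ) ^ ((i : ℝ) * (1 - s)) := Real.rpow_le_rpow_of_exponent_le hQ1 hi1
          _ = ((QQ (i + 1) : ℝ) ^ i) ^ (1 - s) := by
              rw [Real.rpow_mul (by linarith), Real.rpow_natCast]
          _ ≤ (d i : ℝ) ^ (1 - s) := Real.rpow_le_rpow (by positivity) h2 hs2.le
      have h4 : (0 : ℝ) ≤ (d i : ℝ) ^ (1 - s) := by positivity
      nlinarith
  have hdd : (d i : ℝ) = (d i : ℝ) ^ s * (d i : ℝ) ^ (1 - s) := by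
    rw [← Real.rpow_add hd]
    simp
  have hpos : 0 < (d i : ℝ) ^ (1 - s) := by positivity
  -- combine
  have hcomb : (d i : ℝ) ^ s * (d i : ℝ) ^ (1 - s) * cl i ≤ d J0 * QQ (N + 1) * P * (d i : ℝ) ^ (1 - s) := by
    rw [← hdd]
    calc (d i : ℝ) * cl i ≤ (d J0 * QQ i * P) * cl i := mul_le_mul_of_nonneg_right hp (Nat.cast_nonneg _)
      _ = (d J0 * P) * (QQ i * cl i) := by ring
      _ = (d J0 * P) * QQ (i + 1) := by rw [hQi]
      _ ≤ (d J0 * P) * (QQ (N + 1) * (d i : ℝ) ^ (1 - s)) := mul_le_mul_of_nonneg_left hgr (by positivity)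
      _ = d J0 * QQ (N + 1) * P * (d i : ℝ) ^ (1 - s) := by ring
  have hcomb' : (d i : ℝ) ^ s * cl i ≤ d J0 * QQ (N + 1) * P := by
    have : ((d i : ℝ) ^ s * cl i) * (d i : ℝ) ^ (1 - s) ≤ (d J0 * QQ (N + 1) * P) * (d i : ℝ) ^ (1 - s) := by
      linarith
    exact le_of_mul_le_mul_right this hpos
  rw [d_succ', Real.mul_rpow hd.le (by positivity)]
  calc (d i : ℝ) ^ s * (m i : ℝ) ^ s ≤ (d i : ℝ) ^ s * (cl i * (nn J0 j : ℝ) ^ s) :=
        mul_le_mul_of_nonneg_left hlast (by positivity)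
    _ = ((d i : ℝ) ^ s * cl i) * (nn J0 j : ℝ) ^ s := by ring
    _ ≤ (d J0 * QQ (N + 1) * P) * (nn J0 j : ℝ) ^ s := mul_le_mul_of_nonneg_right hcomb' (by positivity)

theorem dim_near [Mult] (hK : ∀ j, KK j ≤ m j) {x y : ℝ} (hxy : x < y) :
    dimH {α : ℝ | α ∈ Set.Ioo x y ∧ ∀ᶠ j in atTop, Near j α} = 1 := by
  apply le_antisymm
  · rw [← Real.dimH_univ]
    exact dimH_mono (Set.subset_univ _)
  · obtain ⟨J0, hJ0⟩ : ∃ J0 : ℕ, 4 / (y - x) < d J0 := by
      obtain ⟨J0, hJ0⟩ := pow_unbounded_of_one_lt (4 / (y - x)) (by norm_num : (1 : ℝ) < 2)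
      refine ⟨J0, lt_of_lt_of_le hJ0 ?_⟩
      exact_mod_cast two_pow_le_d J0
    have hd0 := d_real J0
    have hyx : 0 < y - x := by linarith
    have h4 : 4 / (d J0 : ℝ) < y - x := by
      rw [div_lt_iff₀ hyx] at hJ0
      rw [div_lt_iff₀ hd0]
      linarith
    refine dim_digits (fun j => d (J0 + j + 1)) (nn J0) (AA J0 (⌊x * d J0⌋ + 1)) _ (fun j => d_pos _) (nn_two hK J0) ?_ ?_ ?_
    · intro j
      have h1 := nn_le J0 (j + 1)
      have h2 := eta_le (J0 + (j + 1))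
      have h3 := d_real (J0 + j + 1)
      have h5 := m_real (J0 + (j + 1))
      have e : J0 + (j + 1) = J0 + j + 1 := by omega
      rw [e] at h1 h2 h5
      change 2 * (nn J0 (j + 1) : ℝ) / d (J0 + (j + 1) + 1) ≤ 1 / (2 * d (J0 + j + 1))
      rw [e, d_succ' (J0 + j + 1), div_le_div_iff₀ (by positivity) (by positivity)]
      have h6 : (nn J0 (j + 1) : ℝ) ≤ m (J0 + j + 1) / 8 := by nlinarith
      nlinarith
    · intro s hs hs1
      exact grow hK J0 s hs hs1
    · intro w hw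
      have hpt := point_eq J0 (⌊x * d J0⌋ + 1) hw
      rw [hpt]
      have hT0 : 0 ≤ ∑' j, (ww J0 w j : ℝ) / d (J0 + j + 1) := tsum_nonneg fun j => ww_nonneg J0 w j
      have hT1 := ww_tsum J0 hw
      have hz1 : x < ((⌊x * d J0⌋ + 1 : ℤ) : ℝ) / d J0 := by
        rw [lt_div_iff₀ hd0]
        push_cast
        exact Int.lt_floor_add_one _
      have hz2 : ((⌊x * d J0⌋ + 1 : ℤ) : ℝ) / d J0 ≤ x + 1 / d J0 := by
        rw [div_le_iff₀ hd0]
        push_cast
        have := Int.floor_le (x * d J0)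
        have h1 : (x + 1 / (d J0 : ℝ)) * d J0 = x * d J0 + 1 := by field_simp
        linarith
      refine ⟨⟨by linarith, ?_⟩, ?_⟩
      · have e : (4 : ℝ) / d J0 = 1 / d J0 + 3 / d J0 := by ring
        linarith
      · filter_upwards [eventually_ge_atTop J0] with i hi
        obtain ⟨K, rfl⟩ := Nat.exists_eq_add_of_le hi
        exact near_all hK J0 _ hw K

end Pool.Agent.H1.PP
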