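import Pool.Agent.H1.PP.Seq

/-!
# Module Energy: the additive energy is large, and slowly growing functions

`exists_slow`: `psi j = max 1 (Nat.findGreatest (fun k => k^4 ≤ j + 1 ∧ ∀ n ≥ j, B k^3 ≤ ψ n) (j + 1))` (classical).
`energy_ge`: `N ≥ S 1` large, `J = blk N ≥ 2`, `j = J - 1`, `S J ≤ N < S (J+1)`. Block `j` consists of the indices `S j + 1, ..., S j + b j ≤ S J ≤ N` (indexed
from one) with values `a (S j + 1 + u) = (u + 1) d j`. For `x, y, h < b j / 2` the quadruple of indices with `u`-values `(x, y + h, x + h, y)` satisfies the equation, these are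
different: `energy a N ≥ (b j / 2)^3` (natural division), `b j / 2 ≥ (b j : ℝ) / 4` for `b j ≥ 2`. `b j > S j / psi j`, and `N < S (j + 2) ≤ 16 S j` for large `j` (`b_div_S`:
`b j ≤ 3 S j` eventually). So `energy ≥ (S j / (4 psi j))^3 ≥ (N / (64 psi j))^3 = N^3 / (262144 psi j^3) ≥ N^3 / ψ N` because `N ≥ S J ≥ j`.
-/

set_option autoImplicit false

namespace Pool.Agent.H1.PP

open Filter Topology Finset

/-- the additive energy of `a 1, ..., a N` -/
def energy (a : ℕ → ℤ) (N : ℕ) : ℕ :=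
  ((Finset.Icc 1 N ×ˢ Finset.Icc 1 N ×ˢ Finset.Icc 1 N ×ˢ Finset.Icc 1 N).filter
    (fun p : ℕ × ℕ × ℕ × ℕ => a p.1 + a p.2.1 = a p.2.2.1 + a p.2.2.2)).card

theorem exists_slow (ψ : ℕ → ℝ) (hψ : Tendsto ψ atTop atTop) (B : ℝ) :
    ∃ s : Slow, ∀ᶠ j in atTop, ∀ n, j ≤ n → B * (s.psi j : ℝ) ^ 3 ≤ ψ n := by
  classical
  let P : ℕ → ℕ → Prop := fun j k => k ^ 4 ≤ j + 1 ∧ ∀ n, j ≤ n → B * (k : ℝ) ^ 3 ≤ ψ n
  have hP : ∀ K : ℕ, ∀ᶠ j in atTop, P j K := by
    intro K
    obtain ⟨N, hN⟩ := eventually_atTop.1 (hψ.eventually_ge_atTop (B * (K : ℝ) ^ 3))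
    filter_upwards [eventually_ge_atTop N, eventually_ge_atTop (K ^ 4)] with j h1 h2
    exact ⟨by omega, fun n hn => hN n (h1.trans hn)⟩
  let g : ℕ → ℕ := fun j => Nat.findGreatest (P j) (j + 1)
  have hg : ∀ j, g j ≠ 0 → P j (g j) := fun j h => Nat.findGreatest_of_ne_zero rfl h
  have hgK : ∀ K : ℕ, ∀ᶠ j in atTop, K ≤ g j := by
    intro K
    filter_upwards [hP K, eventually_ge_atTop K] with j h1 h2
    exact Nat.le_findGreatest (by omega) h1
  have hpow : ∀ j, (max 1 (g j)) ^ 4 ≤ j + 1 := by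
    intro j
    rcases Nat.eq_zero_or_pos (g j) with h | h
    · rw [h]
      simp
    · rw [max_eq_right h]
      exact (hg j h.ne').1
  refine ⟨⟨fun j => max 1 (g j), fun j => lt_of_lt_of_le one_pos (le_max_left _ _), hpow, ?_⟩, ?_⟩
  · rw [tendsto_atTop]
    intro K
    filter_upwards [hgK K] with j hj
    exact hj.trans (le_max_right _ _)
  · filter_upwards [hgK 1] with j hj n hn
    have h1 : max 1 (g j) = g j := max_eq_right hj
    show B * ((max 1 (g j) : ℕ) : ℝ) ^ 3 ≤ ψ n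
    rw [h1]
    exact (hg j (by omega)).2 n hn

/-- the quadruples inside one block -/
private lemma energy_block [Slow] [Mult] {N j : ℕ} (h : S (j + 1) ≤ N) :
    (b j / 2) ^ 3 ≤ energy a N := by
  have hS : S (j + 1) = S j + b j := S_succ j
  have ha : ∀ u, u < b j → a (S j + 1 + u) = (((u + 1) * d j : ℕ) : ℤ) := by
    intro u hu
    have e : S j + 1 + u = (S j + u) + 1 := by omega
    rw [e, a_succ, a0_add hu]
  have hcard : ((range (b j / 2) ×ˢ range (b j / 2) ×ˢ range (b j / 2) :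
      Finset (ℕ × ℕ × ℕ))).card = (b j / 2) ^ 3 := by
    rw [card_product, card_product, card_range]
    ring
  rw [← hcard]
  unfold energy
  refine card_le_card_of_injOn
    (fun q : ℕ × ℕ × ℕ => (S j + 1 + q.1, S j + 1 + (q.2.1 + q.2.2), S j + 1 + (q.1 + q.2.2),
      S j + 1 + q.2.1)) ?_ ?_
  · rintro ⟨x, y, h'⟩ hq
    simp only [coe_product, Set.mem_prod, coe_range, Set.mem_Iio] at hq
    obtain ⟨hx, hy, hh⟩ := hq
    have h2 : 2 * (b j / 2) ≤ b j := Nat.mul_div_le _ _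
    simp only [coe_filter, Set.mem_ofPred_eq, mem_product, mem_Icc]
    refine ⟨⟨⟨by omega, by omega⟩, ⟨by omega, by omega⟩, ⟨by omega, by omega⟩, by omega, by omega⟩, ?_⟩
    rw [ha x (by omega), ha (y + h') (by omega), ha (x + h') (by omega), ha y (by omega)]
    push_cast
    ring
  · rintro ⟨x, y, h'⟩ _ ⟨x', y', h''⟩ _ hq
    simp only [Prod.mk.injEq] at hq
    obtain ⟨h1, h2, h3, h4⟩ := hq
    have e1 : x = x' := by omega
    have e2 : y = y' := by omega
    have e3 : h' = h'' := by omega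
    rw [e1, e2, e3]

theorem energy_ge [Slow] [Mult] {ψ : ℕ → ℝ} (hψ : Tendsto ψ atTop atTop)
    (h : ∀ᶠ j in atTop, ∀ n, j ≤ n → 262144 * (psi j : ℝ) ^ 3 ≤ ψ n) :
    ∀ᶠ N : ℕ in atTop, (N : ℝ) ^ 3 / ψ N ≤ energy a N := by
  have h3 : ∀ᶠ j in atTop, (b j : ℝ) ≤ 3 * S j := by
    have h1 := (b_div_S).eventually (Iio_mem_nhds (by norm_num : (0 : ℝ) < 3))
    filter_upwards [h1, eventually_ge_atTop 1] with j hj hj1
    have hS : (0 : ℝ) < S j := by exact_mod_cast (lt_of_lt_of_le hj1 (le_S j))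
    have h2 : (b j : ℝ) / S j < 3 := hj
    rw [div_lt_iff₀ hS] at h2
    exact h2.le
  have h4 : ∀ᶠ j in atTop, (S (j + 2) : ℝ) ≤ 16 * S j := by
    filter_upwards [h3, (tendsto_add_atTop_nat 1).eventually h3] with j h1 h2
    have e1 : (S (j + 1) : ℝ) = S j + b j := by
      rw [S_succ]
      push_cast
      ring
    have e2 : (S (j + 2) : ℝ) = S (j + 1) + b (j + 1) := by
      rw [S_succ]
      push_cast
      ring
    linarith
  have hall : ∀ᶠ j in atTop, (S (j + 2) : ℝ) ≤ 16 * S j ∧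
      (∀ n, j ≤ n → 262144 * (psi j : ℝ) ^ 3 ≤ ψ n) ∧ 1 ≤ j := by
    filter_upwards [h4, h, eventually_ge_atTop 1] with j h1 h2 h5
    exact ⟨h1, h2, h5⟩
  have hblk : Tendsto (fun N => blk N - 1) atTop atTop :=
    (tendsto_sub_atTop_nat 1).comp blk_tendsto
  filter_upwards [hblk.eventually hall] with N hN
  obtain ⟨j, hj⟩ : ∃ j, j = blk N - 1 := ⟨_, rfl⟩
  rw [← hj] at hN
  obtain ⟨h5, h6, h7⟩ := hN
  have hJ : blk N = j + 1 := by omega
  have h8 : S (j + 1) ≤ N := by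
    rw [← hJ]
    exact S_blk_le N
  have h9 : N < S (j + 2) := by
    have := lt_S_blk N
    rwa [hJ] at this
  have hjN : j ≤ N := by
    have := le_S (j + 1)
    omega
  have hψN := h6 N hjN
  have hψ0 : (0 : ℝ) < psi j := by exact_mod_cast psi_pos j
  have hE : ((b j / 2 : ℕ) : ℝ) ^ 3 ≤ energy a N := by exact_mod_cast energy_block h8
  have hb2 : 2 ≤ b j := by
    have := two_mul_le_b j
    omega
  have hfloor : (b j : ℝ) / 4 ≤ ((b j / 2 : ℕ) : ℝ) := by
    have h10 : b j ≤ 4 * (b j / 2) := by omega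
    have h11 : (b j : ℝ) ≤ 4 * ((b j / 2 : ℕ) : ℝ) := by exact_mod_cast h10
    linarith
  have hN16 : (N : ℝ) ≤ 16 * S j := by
    have : (N : ℝ) ≤ S (j + 2) := by exact_mod_cast h9.le
    linarith
  have hbS := b_gt j
  have hlow : (N : ℝ) / (64 * psi j) ≤ ((b j / 2 : ℕ) : ℝ) := by
    refine le_trans ?_ hfloor
    rw [div_le_div_iff₀ (by positivity) (by norm_num)]
    rw [div_lt_iff₀ hψ0] at hbS
    linarith
  have hcube : ((N : ℝ) / (64 * psi j)) ^ 3 ≤ energy a N :=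
    (pow_le_pow_left₀ (by positivity) hlow 3).trans hE
  refine le_trans ?_ hcube
  have e : ((N : ℝ) / (64 * psi j)) ^ 3 = (N : ℝ) ^ 3 / (262144 * (psi j : ℝ) ^ 3) := by
    rw [div_pow, mul_pow]
    norm_num
  rw [e]
  exact div_le_div_of_nonneg_left (by positivity) (by positivity) hψN

end Pool.Agent.H1.PP
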