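import Mathlib

/-!
# Block lengths

`psi` is any slowly growing function (class `Slow`). The block lengths are `b j = 2 ^ LL j + t j` with `LL j = log2 (S j / psi j) + 1`,
`S j = b 0 + ... + b (j-1)`, and `t j` odd, strictly increasing, between `j (j+2)` and `(j+1) (j+2)`, chosen so that `b j` has no prime
factor `≤ rr j` (`rr j` tends to infinity). A generalisation of H53/PPC/Growth.lean.
-/

set_option autoImplicit false

namespace Pool.Agent.H1.PP

open Filter Topology Finset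

/-- a slowly growing function -/
class Slow where
  /-- the function -/
  psi : ℕ → ℕ
  psi_pos : ∀ j, 0 < psi j
  psi_pow_le : ∀ j, psi j ^ 4 ≤ j + 1
  psi_tendsto : Tendsto psi atTop atTop

export Slow (psi psi_pos psi_pow_le psi_tendsto)

/-- the largest `r` with `r! ≤ j + 2` -/
def rr (j : ℕ) : ℕ := Nat.findGreatest (fun r => r.factorial ≤ j + 2) (j + 2)

/-- modulus -/
def P (j : ℕ) : ℕ := (rr j).factorial

/-- small odd summand -/
def tt (L j : ℕ) : ℕ := j * (j + 2) + (P j + 1 - (2 ^ L + j * (j + 2)) % P j) % P j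

lemma rr_spec (j : ℕ) : P j ≤ j + 2 := by
  unfold P rr
  exact Nat.findGreatest_spec (P := fun r => r.factorial ≤ j + 2) (Nat.zero_le (j + 2))
    (by simp)

lemma le_rr {r j : ℕ} (h : r.factorial ≤ j + 2) : r ≤ rr j := by
  unfold rr
  exact Nat.le_findGreatest (le_trans (Nat.self_le_factorial r) h) h

lemma two_le_rr (j : ℕ) : 2 ≤ rr j := le_rr (by simp [Nat.factorial])

lemma rr_tendsto : Tendsto rr atTop atTop := by
  rw [tendsto_atTop]
  intro n
  filter_upwards [eventually_ge_atTop n.factorial] with j hj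
  exact le_rr (by omega)

lemma P_pos (j : ℕ) : 0 < P j := Nat.factorial_pos _

lemma tt_lt (L j : ℕ) : tt L j < (j + 1) * (j + 2) := by
  unfold tt
  have h1 := Nat.mod_lt (P j + 1 - (2 ^ L + j * (j + 2)) % P j) (P_pos j)
  have h2 := rr_spec j
  nlinarith

lemma le_tt (L j : ℕ) : j * (j + 2) ≤ tt L j := Nat.le_add_right _ _

lemma tt_mod (L j : ℕ) : 2 ^ L + tt L j ≡ 1 [MOD P j] := by
  unfold tt
  have h1 := Nat.mod_lt (2 ^ L + j * (j + 2)) (P_pos j)
  generalize hx : 2 ^ L + j * (j + 2) = x at h1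
  rw [← add_assoc, hx]
  have h2 : (P j + 1 - x % P j) % P j ≡ P j + 1 - x % P j [MOD P j] := Nat.mod_modEq _ _
  have h3 : x ≡ x % P j [MOD P j] := (Nat.mod_modEq x (P j)).symm
  have h4 := h3.add h2
  have h5 : x % P j + (P j + 1 - x % P j) = P j + 1 := by omega
  rw [h5] at h4
  exact h4.trans (by simp [Nat.ModEq])

lemma two_dvd_P (j : ℕ) : 2 ∣ P j := Nat.dvd_factorial (by norm_num) (two_le_rr j)

lemma tt_odd {L : ℕ} (hL : 1 ≤ L) (j : ℕ) : tt L j % 2 = 1 := by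
  have h := (tt_mod L j).of_dvd (two_dvd_P j)
  unfold Nat.ModEq at h
  obtain ⟨k, rfl⟩ : ∃ k, L = k + 1 := ⟨L - 1, by omega⟩
  rw [pow_succ] at h
  omega

variable [Slow]

/-- partial sums of block lengths -/
def S : ℕ → ℕ
  | 0 => 0
  | (j + 1) => S j + (2 ^ (Nat.log 2 (S j / psi j) + 1) + tt (Nat.log 2 (S j / psi j) + 1) j)

/-- exponents -/
def LL (j : ℕ) : ℕ := Nat.log 2 (S j / psi j) + 1

/-- odd summands -/
def t (j : ℕ) : ℕ := tt (LL j) j

/-- block lengths -/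
def b (j : ℕ) : ℕ := 2 ^ LL j + t j

lemma S_succ (j : ℕ) : S (j + 1) = S j + b j := rfl

lemma t_odd (j : ℕ) : t j % 2 = 1 := tt_odd (by unfold LL; omega) j

lemma t_lt (j : ℕ) : t j < (j + 1) * (j + 2) := tt_lt _ _

lemma le_t (j : ℕ) : j * (j + 2) ≤ t j := le_tt _ _

lemma t_strictMono : StrictMono t := by
  refine strictMono_nat_of_lt_succ fun j => ?_
  have h1 := t_lt j
  have h2 := le_t (j + 1)
  nlinarith

/-- `b j` has no prime factor `≤ rr j` -/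
lemma b_coprime {j p : ℕ} (hp : p.Prime) (hpr : p ≤ rr j) : ¬ p ∣ b j := by
  intro h
  have h1 := (tt_mod (LL j) j).of_dvd (Nat.dvd_factorial hp.pos hpr : p ∣ P j)
  have h2 : b j ≡ 0 [MOD p] := (Nat.modEq_zero_iff_dvd).2 h
  have h3 : (0 : ℕ) ≡ 1 [MOD p] := h2.symm.trans h1
  have h4 : p ∣ 1 := by
    have := (Nat.modEq_iff_dvd' (by norm_num : 0 ≤ 1)).1 h3
    simpa using this
  exact hp.one_lt.ne' (Nat.dvd_one.1 h4)

lemma b_pos (j : ℕ) : 0 < b j := by unfold b; positivity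

lemma S_mono : Monotone S := monotone_nat_of_le_succ (fun n => by rw [S_succ]; omega)

lemma S_strictMono : StrictMono S :=
  strictMono_nat_of_lt_succ (fun n => by rw [S_succ]; have := b_pos n; omega)

lemma two_mul_le_b (j : ℕ) : 2 * j + 1 ≤ b j := by
  have h1 := le_t j
  have h2 : 1 ≤ 2 ^ LL j := Nat.one_le_two_pow
  unfold b
  nlinarith

lemma sq_le_S (j : ℕ) : j ^ 2 ≤ S j := by
  induction j with
  | zero => simp
  | succ j ih =>
    rw [S_succ]
    have := two_mul_le_b j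
    calc (j + 1) ^ 2 = j ^ 2 + (2 * j + 1) := by ring
      _ ≤ S j + b j := by omega

lemma le_S (j : ℕ) : j ≤ S j := le_trans (by nlinarith) (sq_le_S j)

lemma b_gt (j : ℕ) : (S j : ℝ) / psi j < b j := by
  have hψ : (0 : ℝ) < psi j := by exact_mod_cast psi_pos j
  have h1 : S j / psi j < 2 ^ LL j := Nat.lt_pow_succ_log_self (by norm_num) _
  have h2 : S j < psi j * 2 ^ LL j := by
    have := Nat.lt_mul_of_div_lt h1 (psi_pos j)
    rw [mul_comm] at this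
    exact this
  have h3 : (S j : ℝ) < psi j * 2 ^ LL j := by exact_mod_cast h2
  rw [div_lt_iff₀ (by positivity)]
  have h4 : (b j : ℝ) = 2 ^ LL j + t j := by unfold b; push_cast; ring
  rw [h4]
  have h5 : (0 : ℝ) ≤ t j * psi j := by positivity
  nlinarith

lemma pow_log_le (j : ℕ) : 2 ^ LL j ≤ 2 * (S j / psi j) + 2 := by
  unfold LL
  rw [pow_succ]
  rcases Nat.eq_zero_or_pos (S j / psi j) with h | h
  · rw [h]; simp
  · have := Nat.pow_log_le_self 2 h.ne'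
    omega

lemma b_le (j : ℕ) : (b j : ℝ) ≤ 2 * ((S j : ℝ) / psi j) + ((j : ℝ) + 2) ^ 2 := by
  have h1 := pow_log_le j
  have h0 := t_lt j
  have h2 : b j ≤ 2 * (S j / psi j) + (j + 2) ^ 2 := by unfold b; nlinarith
  have h3 : (b j : ℝ) ≤ 2 * ((S j / psi j : ℕ) : ℝ) + ((j : ℝ) + 2) ^ 2 := by exact_mod_cast h2
  have h4 : ((S j / psi j : ℕ) : ℝ) ≤ (S j : ℝ) / psi j := Nat.cast_div_le
  linarith

lemma S_tendsto : Tendsto (fun j => (S j : ℝ)) atTop atTop :=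
  tendsto_natCast_atTop_atTop.comp S_strictMono.tendsto_atTop

lemma psi_small {j : ℕ} (hj : 12000 ≤ j) : 511 * psi j ≤ j := by
  by_contra hcon
  push Not at hcon
  have h1 := psi_pow_le j
  have h2 : psi j ^ 4 ≤ 511 * psi j := by omega
  have h3 : psi j ^ 3 ≤ 511 := by
    have hpos := psi_pos j
    have : psi j * psi j ^ 3 ≤ psi j * 511 := by
      calc psi j * psi j ^ 3 = psi j ^ 4 := by ring
        _ ≤ 511 * psi j := h2
        _ = psi j * 511 := by ring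
    exact Nat.le_of_mul_le_mul_left this hpos
  have h4 : psi j ≤ 7 := by
    by_contra h
    push Not at h
    have : 8 ^ 3 ≤ psi j ^ 3 := Nat.pow_le_pow_left h 3
    omega
  omega

lemma S_ratio_mono {j : ℕ} (hj : 12000 ≤ j) :
    (S j : ℝ) / (j : ℝ) ^ 9 ≤ (S (j + 1) : ℝ) / ((j + 1 : ℕ) : ℝ) ^ 9 := by
  have hj' : (12000 : ℝ) ≤ j := by exact_mod_cast hj
  have hψ : (0 : ℝ) < psi j := by exact_mod_cast psi_pos j
  have h1 : (511 : ℝ) * psi j ≤ j := by exact_mod_cast psi_small hj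
  have hS : (0 : ℝ) ≤ S j := by positivity
  rw [div_le_div_iff₀ (by positivity) (by positivity)]
  have hb := b_gt j
  rw [S_succ]
  push_cast
  have h2 : ((j : ℝ) + 1) ^ 9 ≤ (j : ℝ) ^ 9 * (1 + 511 / j) := by
    have e : ((j : ℝ) + 1) ^ 9 = (j : ℝ) ^ 9 * (1 + 1 / j) ^ 9 := by
      rw [← mul_pow]; congr 1; field_simp
    rw [e]
    apply mul_le_mul_of_nonneg_left _ (by positivity)
    set x : ℝ := 1 / j with hx
    have hx0 : 0 ≤ x := by positivity
    have hx1 : x ≤ 1 := by rw [hx, div_le_one (by positivity)]; linarith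
    have e2 : (511 : ℝ) / j = 511 * x := by rw [hx]; ring
    rw [e2]
    have hp : ∀ k : ℕ, x ^ (k + 1) ≤ x := fun k => by
      rw [pow_succ]
      exact mul_le_of_le_one_left hx0 (pow_le_one₀ hx0 hx1)
    have e3 : (1 + x) ^ 9 = 1 + 9 * x + 36 * x ^ 2 + 84 * x ^ 3 + 126 * x ^ 4 + 126 * x ^ 5 +
      84 * x ^ 6 + 36 * x ^ 7 + 9 * x ^ 8 + x ^ 9 := by ring
    rw [e3]
    have q2 : x ^ 2 ≤ x := hp 1
    have q3 : x ^ 3 ≤ x := hp 2
    have q4 : x ^ 4 ≤ x := hp 3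
    have q5 : x ^ 5 ≤ x := hp 4
    have q6 : x ^ 6 ≤ x := hp 5
    have q7 : x ^ 7 ≤ x := hp 6
    have q8 : x ^ 8 ≤ x := hp 7
    have q9 : x ^ 9 ≤ x := hp 8
    linarith
  have h3 : (511 : ℝ) / j ≤ 1 / psi j := by
    rw [div_le_div_iff₀ (by positivity) (by positivity)]
    linarith
  have h4 : (1 : ℝ) + 511 / j ≤ 1 + 1 / psi j := by linarith
  calc (S j : ℝ) * ((j : ℝ) + 1) ^ 9 ≤ S j * ((j : ℝ) ^ 9 * (1 + 511 / j)) :=
        mul_le_mul_of_nonneg_left h2 hS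
    _ ≤ S j * ((j : ℝ) ^ 9 * (1 + 1 / psi j)) := by
        apply mul_le_mul_of_nonneg_left _ hS
        apply mul_le_mul_of_nonneg_left h4 (by positivity)
    _ = (S j + S j / psi j) * (j : ℝ) ^ 9 := by ring
    _ ≤ (S j + b j) * (j : ℝ) ^ 9 := by
        apply mul_le_mul_of_nonneg_right _ (by positivity)
        linarith

lemma S_growth_aux (j0 : ℕ) (h0 : 12000 ≤ j0) (j : ℕ) (hj : j0 ≤ j) :
    (S j0 : ℝ) / (j0 : ℝ) ^ 9 ≤ (S j : ℝ) / (j : ℝ) ^ 9 := by
  induction j, hj using Nat.le_induction with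
  | base => exact le_rfl
  | succ j hj ih => exact le_trans ih (S_ratio_mono (le_trans h0 hj))

/-- growth of degree 9 -/
lemma S_growth : ∃ c : ℝ, 0 < c ∧ ∀ j : ℕ, 12000 ≤ j → c * (j : ℝ) ^ 9 ≤ S j := by
  obtain ⟨j0, hj0⟩ : ∃ j0 : ℕ, j0 = 12000 := ⟨_, rfl⟩
  refine ⟨(S j0 : ℝ) / (j0 : ℝ) ^ 9, ?_, ?_⟩
  · have h1 : (j0 : ℝ) ^ 2 ≤ S j0 := by exact_mod_cast sq_le_S j0
    have h2 : (0 : ℝ) < j0 := by rw [hj0]; norm_num
    have h3 : (0 : ℝ) < S j0 := lt_of_lt_of_le (by positivity) h1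
    positivity
  · intro j hj
    have h := S_growth_aux j0 (by omega) j (by omega)
    have hj' : (12000 : ℝ) ≤ j := by exact_mod_cast hj
    rwa [le_div_iff₀ (by positivity)] at h

/-- `b j / S j → 0` -/
lemma b_div_S : Tendsto (fun j => (b j : ℝ) / S j) atTop (𝓝 0) := by
  obtain ⟨c, hc, hcS⟩ := S_growth
  have hψ : Tendsto (fun j => (2 : ℝ) / (psi j : ℝ)) atTop (𝓝 0) :=
    tendsto_const_nhds.div_atTop (tendsto_natCast_atTop_atTop.comp psi_tendsto)
  have h4 : Tendsto (fun j : ℕ => (9 / c : ℝ) / (j : ℝ)) atTop (𝓝 0) :=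
    tendsto_const_nhds.div_atTop tendsto_natCast_atTop_atTop
  have hsum : Tendsto (fun j : ℕ => (2 : ℝ) / (psi j : ℝ) + (9 / c) / (j : ℝ)) atTop (𝓝 0) := by
    simpa using hψ.add h4
  refine tendsto_of_tendsto_of_tendsto_of_le_of_le' tendsto_const_nhds hsum ?_ ?_
  · exact Eventually.of_forall (fun j => by positivity)
  · filter_upwards [eventually_ge_atTop 12000] with j hj
    have hj' : (12000 : ℝ) ≤ j := by exact_mod_cast hj
    have h1 := hcS j hj
    have hSpos : (0 : ℝ) < S j := lt_of_lt_of_le (by positivity) h1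
    have hψ : (0 : ℝ) < psi j := by exact_mod_cast psi_pos j
    rw [div_le_iff₀ hSpos]
    have h2 := b_le j
    have h3 : ((j : ℝ) + 2) ^ 2 ≤ (9 / c) / j * S j := by
      have h5 : (9 / c) / j * (c * (j : ℝ) ^ 9) ≤ (9 / c) / j * S j :=
        mul_le_mul_of_nonneg_left h1 (by positivity)
      have h6 : (9 / c) / j * (c * (j : ℝ) ^ 9) = 9 * (j : ℝ) ^ 8 := by
        field_simp
      rw [h6] at h5
      refine le_trans ?_ h5
      have h7 : (j : ℝ) ^ 2 ≤ (j : ℝ) ^ 8 := pow_le_pow_right₀ (by linarith) (by norm_num)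
      nlinarith
    calc (b j : ℝ) ≤ 2 * ((S j : ℝ) / psi j) + ((j : ℝ) + 2) ^ 2 := h2
      _ ≤ 2 * ((S j : ℝ) / psi j) + (9 / c) / j * S j := by linarith
      _ = (2 / psi j + (9 / c) / j) * S j := by ring

/-- the greatest common divisor of two different block lengths is small -/
lemma gcd_sq_le_aux (p q c c' J : ℕ) (hpq : q ≤ p) (hc : c < J) (hc' : c' < J) (hne : c ≠ c')
    (ho : c % 2 = 1) (ho' : c' % 2 = 1) :
    (Nat.gcd (2 ^ p + c) (2 ^ q + c')) ^ 2 ≤ 2 ^ p * (2 * J + 1) ^ 2 := by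
  set g := Nat.gcd (2 ^ p + c) (2 ^ q + c') with hg
  have h1 : (g : ℤ) ∣ ((2 ^ p + c : ℕ) : ℤ) := by exact_mod_cast Nat.gcd_dvd_left _ _
  have h2 : (g : ℤ) ∣ ((2 ^ q + c' : ℕ) : ℤ) := by exact_mod_cast Nat.gcd_dvd_right _ _
  obtain ⟨r, rfl⟩ := Nat.exists_eq_add_of_le hpq
  have h3 : (g : ℤ) ∣ 2 ^ r * c' - c := by
    have e : (2 : ℤ) ^ r * c' - c
        = 2 ^ r * ((2 ^ q + c' : ℕ) : ℤ) - ((2 ^ (q + r) + c : ℕ) : ℤ) := by
      push_cast; ring
    rw [e]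
    exact dvd_sub (Dvd.dvd.mul_left h2 _) h1
  have h4 : (2 : ℤ) ^ r * c' - c ≠ 0 := by
    rcases Nat.eq_zero_or_pos r with hr | hr
    · subst hr
      simp only [pow_zero, one_mul]
      omega
    · obtain ⟨r', rfl⟩ := Nat.exists_eq_succ_of_ne_zero hr.ne'
      intro h
      have : (2 : ℤ) ^ (r' + 1) * c' = 2 * (2 ^ r' * c') := by ring
      rw [Nat.succ_eq_add_one, this] at h
      omega
  have hJ : (1 : ℤ) ≤ J := by omega
  have h2r : (1 : ℤ) ≤ 2 ^ r := one_le_pow₀ (by norm_num)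
  have hc1 : (c : ℤ) + 1 ≤ J := by exact_mod_cast hc
  have hc1' : (c' : ℤ) + 1 ≤ J := by exact_mod_cast hc'
  have hc0 : (0 : ℤ) ≤ c := by positivity
  have hc0' : (0 : ℤ) ≤ c' := by positivity
  have h5 : (g : ℤ) ≤ 2 ^ r * (2 * J) := by
    have h6 := Int.le_of_dvd (abs_pos.mpr h4) ((dvd_abs _ _).mpr h3)
    refine le_trans h6 ?_
    rw [abs_le]
    constructor
    · nlinarith
    · nlinarith
  have h7 : (g : ℤ) ≤ 2 ^ q * (2 * J + 1) := by
    have h8 : g ≤ 2 ^ q + c' := Nat.le_of_dvd (by positivity) (Nat.gcd_dvd_right _ _)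
    have h9 : (g : ℤ) ≤ 2 ^ q + c' := by exact_mod_cast h8
    have h2q : (1 : ℤ) ≤ 2 ^ q := one_le_pow₀ (by norm_num)
    nlinarith
  have hg0 : (0 : ℤ) ≤ g := by positivity
  have h10 : ((g : ℤ)) ^ 2 ≤ 2 ^ (q + r) * (2 * J + 1) ^ 2 := by
    calc (g : ℤ) ^ 2 = g * g := by ring
      _ ≤ (2 ^ r * (2 * J)) * (2 ^ q * (2 * J + 1)) := mul_le_mul h5 h7 hg0 (by positivity)
      _ ≤ (2 ^ r * (2 * J + 1)) * (2 ^ q * (2 * J + 1)) := by
          apply mul_le_mul_of_nonneg_right _ (by positivity)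
          nlinarith
      _ = 2 ^ (q + r) * (2 * J + 1) ^ 2 := by ring
  exact_mod_cast h10

lemma pow_log_le_S {i J : ℕ} (hi : i < J) : 2 ^ LL i ≤ S J := by
  have h1 : S (i + 1) ≤ S J := S_mono hi
  rw [S_succ] at h1
  have h2 : 2 ^ LL i ≤ b i := Nat.le_add_right _ _
  omega

lemma t_lt_J {i J : ℕ} (hi : i < J) : t i < (J + 1) ^ 2 := by
  have h1 := t_lt i
  nlinarith

lemma gcd_sq_le {i j J : ℕ} (hi : i < J) (hj : j < J) (hne : i ≠ j) :
    (Nat.gcd (b i) (b j)) ^ 2 ≤ S J * (2 * (J + 1) ^ 2 + 1) ^ 2 := by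
  rcases le_total (LL j) (LL i) with h | h
  · refine le_trans (gcd_sq_le_aux _ _ (t i) (t j) ((J + 1) ^ 2) h (t_lt_J hi) (t_lt_J hj)
      (t_strictMono.injective.ne hne) (t_odd i) (t_odd j)) ?_
    exact Nat.mul_le_mul_right _ (pow_log_le_S hi)
  · rw [Nat.gcd_comm]
    refine le_trans (gcd_sq_le_aux _ _ (t j) (t i) ((J + 1) ^ 2) h (t_lt_J hj) (t_lt_J hi)
      (t_strictMono.injective.ne hne.symm) (t_odd j) (t_odd i)) ?_
    exact Nat.mul_le_mul_right _ (pow_log_le_S hj)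

/-- the gcd part of the error -/
noncomputable def gJ (J : ℕ) : ℝ := Real.sqrt (S J) * (2 * ((J : ℝ) + 1) ^ 2 + 1)

lemma gJ_nonneg (J : ℕ) : 0 ≤ gJ J := by unfold gJ; positivity

lemma gcd_le {i j J : ℕ} (hi : i < J) (hj : j < J) (hne : i ≠ j) :
    (Nat.gcd (b i) (b j) : ℝ) ≤ gJ J := by
  have h1 : ((Nat.gcd (b i) (b j) : ℝ)) ^ 2 ≤ S J * (2 * ((J : ℝ) + 1) ^ 2 + 1) ^ 2 := by
    exact_mod_cast gcd_sq_le hi hj hne
  have h2 : (0 : ℝ) ≤ Nat.gcd (b i) (b j) := by positivity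
  have h3 := Real.sqrt_le_sqrt h1
  rw [Real.sqrt_sq h2, Real.sqrt_mul (by positivity), Real.sqrt_sq (by positivity)] at h3
  exact h3

/-- total gcd error -/
lemma gcd_err_tendsto : Tendsto (fun J : ℕ => ((J : ℝ) ^ 2 * gJ J) / S J) atTop (𝓝 0) := by
  obtain ⟨c, hc, hcS⟩ := S_growth
  have h4 : Tendsto (fun J : ℕ => (9 / Real.sqrt c) * (1 / Real.sqrt (J : ℝ))) atTop (𝓝 0) := by
    rw [← mul_zero (9 / Real.sqrt c)]
    apply Tendsto.const_mul
    apply Tendsto.div_atTop tendsto_const_nhds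
    exact Real.tendsto_sqrt_atTop.comp tendsto_natCast_atTop_atTop
  refine tendsto_of_tendsto_of_tendsto_of_le_of_le' tendsto_const_nhds h4 ?_ ?_
  · exact Eventually.of_forall (fun j => by have := gJ_nonneg j; positivity)
  · filter_upwards [eventually_ge_atTop 12000] with j hj
    have hj' : (12000 : ℝ) ≤ j := by exact_mod_cast hj
    have h1 := hcS j hj
    have hSpos : (0 : ℝ) < S j := lt_of_lt_of_le (by positivity) h1
    have hs : 0 < Real.sqrt (S j) := Real.sqrt_pos.mpr hSpos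
    have h2 : Real.sqrt c * ((j : ℝ) ^ 4 * Real.sqrt j) ≤ Real.sqrt (S j) := by
      have := Real.sqrt_le_sqrt h1
      refine le_trans (le_of_eq ?_) this
      rw [Real.sqrt_mul hc.le]
      congr 1
      rw [show (j : ℝ) ^ 9 = ((j : ℝ) ^ 4) ^ 2 * j by ring, Real.sqrt_mul (by positivity),
        Real.sqrt_sq (by positivity)]
    have hsc : 0 < Real.sqrt c := Real.sqrt_pos.mpr hc
    have hsj : 0 < Real.sqrt (j : ℝ) := Real.sqrt_pos.mpr (by linarith)
    have e1 : (j : ℝ) ^ 2 * gJ j / S j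
        = (j : ℝ) ^ 2 * (2 * ((j : ℝ) + 1) ^ 2 + 1) / Real.sqrt (S j) := by
      rw [div_eq_div_iff hSpos.ne' hs.ne']
      have : Real.sqrt (S j) * Real.sqrt (S j) = S j := Real.mul_self_sqrt hSpos.le
      unfold gJ
      calc (j : ℝ) ^ 2 * (Real.sqrt (S j) * (2 * ((j : ℝ) + 1) ^ 2 + 1)) * Real.sqrt (S j)
          = (j : ℝ) ^ 2 * (2 * ((j : ℝ) + 1) ^ 2 + 1) * (Real.sqrt (S j) * Real.sqrt (S j)) := by ring
        _ = (j : ℝ) ^ 2 * (2 * ((j : ℝ) + 1) ^ 2 + 1) * S j := by rw [this]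
    rw [e1, div_le_iff₀ hs]
    have h9 : 2 * ((j : ℝ) + 1) ^ 2 + 1 ≤ 9 * (j : ℝ) ^ 2 := by nlinarith
    calc (j : ℝ) ^ 2 * (2 * ((j : ℝ) + 1) ^ 2 + 1) ≤ (j : ℝ) ^ 2 * (9 * (j : ℝ) ^ 2) :=
          mul_le_mul_of_nonneg_left h9 (by positivity)
      _ = 9 / Real.sqrt c * (1 / Real.sqrt j) * (Real.sqrt c * ((j : ℝ) ^ 4 * Real.sqrt j)) := by
          field_simp
      _ ≤ 9 / Real.sqrt c * (1 / Real.sqrt j) * Real.sqrt (S j) :=
          mul_le_mul_of_nonneg_left h2 (by positivity)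

end Pool.Agent.H1.PP
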