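import Pool.Agent.H1.PP.At
import Pool.Agent.H53.PPC.Final

/-!
# Module Lim: Poissonian pair correlations at `α`

Modification of H53/PPC/Lim.lean and of the end of H53/PPC/Final.lean (copy them): `Err J0 J / S J → 0` (`gcd_err_tendsto`; `W J / S J → 0` as
there; `S J0 * J / S J → 0` and `(S J0)^2 / S J → 0` from `sq_le_S` / `S_growth`), `U`, `L` with `Err J0`, `ppc_alpha` for `cnt α`, then
`hasPPC_iff`, `cnt_eq_pc` (`pc`, `card_shift`, `distInt_fract_sub` of H53/PPC/Final.lean may be imported: `open Pool.Agent.H53.PPC (pc card_shift distInt_fract_sub)`).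
-/

set_option autoImplicit false

namespace Pool.Agent.H1.PP

open Filter Topology Finset
open Pool.Agent.H53.PPC (distInt HasPPC pc card_shift distInt_fract_sub)

variable [Slow]

lemma J_div_S : Tendsto (fun J : ℕ => (J : ℝ) / S J) atTop (𝓝 0) := by
  have h4 : Tendsto (fun J : ℕ => (1 : ℝ) / (J : ℝ)) atTop (𝓝 0) :=
    tendsto_const_nhds.div_atTop tendsto_natCast_atTop_atTop
  refine tendsto_of_tendsto_of_tendsto_of_le_of_le' tendsto_const_nhds h4 ?_ ?_
  · exact Eventually.of_forall (fun j => by positivity)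
  · filter_upwards [eventually_ge_atTop 1] with j hj
    have hj' : (1 : ℝ) ≤ j := by exact_mod_cast hj
    have hS : (j : ℝ) ^ 2 ≤ S j := by exact_mod_cast sq_le_S j
    have hSpos : (0 : ℝ) < S j := by nlinarith
    rw [div_le_div_iff₀ hSpos (by positivity)]
    nlinarith

lemma W_div_S : Tendsto (fun J : ℕ => W J / S J) atTop (𝓝 0) := by
  have hT : Tendsto (fun J : ℕ => ∑' i : ℕ, min (((1 : ℝ) / 2) ^ i) ((b i : ℝ) * (J / S J)))
      atTop (𝓝 (∑' _ : ℕ, (0 : ℝ))) := by
    apply tendsto_tsum_of_dominated_convergence (bound := fun i => ((1 : ℝ) / 2) ^ i)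
    · exact summable_geometric_two
    · intro i
      have h1 : Tendsto (fun J : ℕ => (b i : ℝ) * (J / S J)) atTop (𝓝 ((b i : ℝ) * 0)) :=
        J_div_S.const_mul _
      rw [mul_zero] at h1
      refine tendsto_of_tendsto_of_tendsto_of_le_of_le tendsto_const_nhds h1 ?_ ?_
      · intro J
        positivity
      · intro J
        exact min_le_right _ _
    · refine Eventually.of_forall (fun J i => ?_)
      rw [Real.norm_eq_abs, abs_of_nonneg (by positivity)]
      exact min_le_left _ _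
  rw [tsum_zero] at hT
  refine tendsto_of_tendsto_of_tendsto_of_le_of_le' tendsto_const_nhds hT ?_ ?_
  · refine Eventually.of_forall (fun J => ?_)
    unfold W
    positivity
  · filter_upwards [eventually_ge_atTop 1] with J hJ
    have hS : 1 ≤ S J := le_trans hJ (le_S J)
    have hSpos : (0 : ℝ) < S J := by exact_mod_cast hS
    have hsum : Summable (fun i : ℕ => min (((1 : ℝ) / 2) ^ i) ((b i : ℝ) * (J / S J))) := by
      apply Summable.of_nonneg_of_le _ _ summable_geometric_two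
      · intro i; positivity
      · intro i; exact min_le_left _ _
    refine le_trans (le_of_eq ?_) (hsum.sum_le_tsum (Finset.range J) (fun i _ => by positivity))
    unfold W
    rw [Finset.sum_div]
    apply Finset.sum_congr rfl
    intro i _
    rw [← min_div_div_right hSpos.le]
    congr 1
    · field_simp
    · field_simp

lemma Err_div_S (J0 : ℕ) : Tendsto (fun J : ℕ => Err J0 J / S J) atTop (𝓝 0) := by
  have h1 := gcd_err_tendsto
  have h2 := W_div_S.const_mul 2
  have h3 : Tendsto (fun J : ℕ => ((J : ℝ) ^ 2) / S J) atTop (𝓝 0) := by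
    refine tendsto_of_tendsto_of_tendsto_of_le_of_le' tendsto_const_nhds h1 ?_ ?_
    · exact Eventually.of_forall (fun j => by positivity)
    · filter_upwards [eventually_ge_atTop 1] with J hJ
      have hS : 1 ≤ S J := le_trans hJ (le_S J)
      have hSr : (1 : ℝ) ≤ S J := by exact_mod_cast hS
      apply div_le_div_of_nonneg_right _ (by linarith)
      have hs : 1 ≤ Real.sqrt (S J) := by
        rw [Real.one_le_sqrt]; exact hSr
      have hJ0 : (0 : ℝ) ≤ J := by positivity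
      have h5 : 1 ≤ gJ J := by
        unfold gJ
        nlinarith [sq_nonneg ((J : ℝ) + 1)]
      nlinarith [pow_nonneg hJ0 2]
  have h4 : Tendsto (fun J : ℕ => 2 * (S J0 : ℝ) * ((J : ℝ) / S J)) atTop (𝓝 0) := by
    have := J_div_S.const_mul (2 * (S J0 : ℝ))
    rwa [mul_zero] at this
  have h5 : Tendsto (fun J : ℕ => ((S J0 : ℝ) ^ 2) / S J) atTop (𝓝 0) :=
    tendsto_const_nhds.div_atTop S_tendsto
  have h6 := (((h1.add h3).add h2).add h4).add h5
  simp only [mul_zero, add_zero] at h6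
  refine h6.congr (fun J => ?_)
  unfold Err
  ring

lemma b_uniform {ε : ℝ} (hε : 0 < ε) : ∀ᶠ J in atTop, ∀ j ≤ J, (b j : ℝ) ≤ ε * S J := by
  have h1 : ∀ᶠ j in atTop, (b j : ℝ) / S j < ε := (b_div_S).eventually_lt_const hε
  rw [eventually_atTop] at h1
  obtain ⟨j0, hj0⟩ := h1
  have h2 : ∀ᶠ J in atTop, (S (j0 + 1) : ℝ) / ε ≤ S J := S_tendsto.eventually_ge_atTop _
  filter_upwards [h2, eventually_ge_atTop 1] with J hJ hJ1 j hj
  rcases Nat.lt_or_ge j (j0 + 1) with h | h
  · have h3 : (b j : ℝ) ≤ S (j0 + 1) := by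
      exact_mod_cast le_trans (b_le_S j) (S_mono (by omega))
    rw [div_le_iff₀ hε] at hJ
    linarith
  · have h3 := hj0 j (by omega)
    have hSj : 1 ≤ S j := le_trans (by omega) (le_S j)
    have hSpos : (0 : ℝ) < S j := by exact_mod_cast hSj
    rw [div_lt_iff₀ hSpos] at h3
    have h4 : (S j : ℝ) ≤ S J := by exact_mod_cast S_mono hj
    nlinarith

lemma S_ratio : Tendsto (fun J : ℕ => (S (J + 1) : ℝ) / S J) atTop (𝓝 1) := by
  have h1 := b_div_S.const_add 1
  rw [add_zero] at h1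
  refine h1.congr' ?_
  filter_upwards [eventually_ge_atTop 1] with J hJ
  have hS : 1 ≤ S J := le_trans hJ (le_S J)
  have hSpos : (0 : ℝ) < S J := by exact_mod_cast hS
  rw [S_succ]
  push_cast
  field_simp

lemma S_ratio' : Tendsto (fun J : ℕ => (S J : ℝ) / S (J + 1)) atTop (𝓝 1) := by
  have h := S_ratio.inv₀ one_ne_zero
  rw [inv_one] at h
  refine h.congr (fun J => ?_)
  rw [inv_div]

lemma Q_div : Tendsto (fun J : ℕ => (∑ j ∈ Finset.range J, (b j : ℝ) ^ 2) / (S J : ℝ) ^ 2)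
    atTop (𝓝 0) := by
  rw [Metric.tendsto_atTop]
  intro ε hε
  have h1 := b_uniform (half_pos hε)
  rw [eventually_atTop] at h1
  obtain ⟨J0, hJ0⟩ := h1
  refine ⟨max J0 1, fun J hJ => ?_⟩
  have hJ1 : 1 ≤ J := le_trans (le_max_right _ _) hJ
  have hb := hJ0 J (le_trans (le_max_left _ _) hJ)
  have hS : 1 ≤ S J := le_trans hJ1 (le_S J)
  have hSpos : (0 : ℝ) < S J := by exact_mod_cast hS
  rw [Real.dist_eq, sub_zero, abs_of_nonneg (by positivity), div_lt_iff₀ (by positivity)]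
  calc ∑ j ∈ Finset.range J, (b j : ℝ) ^ 2
      ≤ ∑ j ∈ Finset.range J, (ε / 2 * S J) * (b j : ℝ) := by
        apply Finset.sum_le_sum
        intro j hj
        rw [Finset.mem_range] at hj
        rw [sq]
        exact mul_le_mul_of_nonneg_right (hb j hj.le) (by positivity)
    _ = ε / 2 * (S J : ℝ) ^ 2 := by rw [← Finset.mul_sum, sum_b_real]; ring
    _ < ε * (S J : ℝ) ^ 2 := by nlinarith [pow_pos hSpos 2]

/-- upper comparison function -/
noncomputable def U (J0 : ℕ) (s : ℝ) (J : ℕ) : ℝ :=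
  2 * s * ((S (J + 1) : ℝ) / S J) ^ 2 + (Err J0 (J + 1) / S (J + 1)) * ((S (J + 1) : ℝ) / S J)

/-- lower comparison function -/
noncomputable def L (J0 : ℕ) (s : ℝ) (J : ℕ) : ℝ :=
  2 * s * ((1 - (∑ j ∈ Finset.range J, (b j : ℝ) ^ 2) / (S J : ℝ) ^ 2)
    * ((S J : ℝ) / S (J + 1)) ^ 2) - Err J0 J / S J

lemma U_tendsto (J0 : ℕ) (s : ℝ) : Tendsto (U J0 s) atTop (𝓝 (2 * s)) := by
  have h1 := (S_ratio.pow 2).const_mul (2 * s)
  have h2 := ((tendsto_add_atTop_iff_nat 1).mpr (Err_div_S J0)).mul S_ratio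
  have h3 := h1.add h2
  rw [one_pow, mul_one, zero_mul, add_zero] at h3
  exact h3

lemma L_tendsto (J0 : ℕ) (s : ℝ) : Tendsto (L J0 s) atTop (𝓝 (2 * s)) := by
  have h1 := (Q_div.const_sub 1).mul (S_ratio'.pow 2)
  have h2 := (h1.const_mul (2 * s)).sub (Err_div_S J0)
  rw [one_pow, mul_one, sub_zero, sub_zero, mul_one] at h2
  exact h2

theorem ppc_alpha [Mult] {α : ℝ} {J0 : ℕ} (hα : ∀ j, J0 ≤ j → Near j α) (s : ℝ) (hs : 0 < s) :
    Tendsto (fun N : ℕ => (cnt α N (s / N) : ℝ) / N) atTop (𝓝 (2 * s)) := by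
  have hU := (U_tendsto J0 s).comp blk_tendsto
  have hL := (L_tendsto J0 s).comp blk_tendsto
  have hbu := blk_tendsto.eventually (b_uniform (ε := 1 / (2 * s)) (by positivity))
  have h2s : ∀ᶠ N : ℕ in atTop, 2 * s ≤ N := tendsto_natCast_atTop_atTop.eventually_ge_atTop _
  have hblk1 := blk_tendsto.eventually_ge_atTop 1
  refine tendsto_of_tendsto_of_tendsto_of_le_of_le' hL hU ?_ ?_
  · filter_upwards [h2s, hblk1] with N hN hJ1
    simp only [Function.comp]
    have hSN := S_blk_le N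
    have hNS := lt_S_blk N
    generalize blk N = J at *
    have hS : 1 ≤ S J := le_trans hJ1 (le_S J)
    have hSpos : (0 : ℝ) < S J := by exact_mod_cast hS
    have hSN' : (S J : ℝ) ≤ N := by exact_mod_cast hSN
    have hNS' : (N : ℝ) ≤ S (J + 1) := by exact_mod_cast hNS.le
    have hNpos : (0 : ℝ) < N := lt_of_lt_of_le hSpos hSN'
    have hh : s / N ≤ 1 / 2 := by rw [div_le_div_iff₀ hNpos (by norm_num)]; linarith
    have hh0 : 0 ≤ s / N := by positivity
    have h1 := le_cnt_S hα (J := J) hh0 hh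
    have h2 : (cnt α (S J) (s / N) : ℝ) ≤ cnt α N (s / N) := by exact_mod_cast cnt_mono hSN _
    rw [le_div_iff₀ hNpos]
    refine le_trans ?_ (le_trans h1 h2)
    unfold L
    set Q := ∑ j ∈ Finset.range J, (b j : ℝ) ^ 2 with hQ
    have hQle : Q ≤ (S J : ℝ) ^ 2 := by
      rw [hQ, ← sum_b_real]
      exact Finset.sum_sq_le_sq_sum_of_nonneg (fun i _ => by positivity)
    have hE := Err_nonneg J0 J
    have hSpos' : (0 : ℝ) < S (J + 1) := lt_of_lt_of_le hNpos hNS'
    have e1 : (1 - Q / (S J : ℝ) ^ 2) * ((S J : ℝ) / S (J + 1)) ^ 2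
        = ((S J : ℝ) ^ 2 - Q) / (S (J + 1) : ℝ) ^ 2 := by
      field_simp
    rw [e1]
    have h3 : 2 * s * (((S J : ℝ) ^ 2 - Q) / (S (J + 1) : ℝ) ^ 2) * N
        ≤ 2 * (s / N) * ((S J : ℝ) ^ 2 - Q) := by
      have h4 : ((S J : ℝ) ^ 2 - Q) / (S (J + 1) : ℝ) ^ 2 ≤ ((S J : ℝ) ^ 2 - Q) / (N : ℝ) ^ 2 := by
        apply div_le_div_of_nonneg_left (by linarith) (by positivity)
        exact pow_le_pow_left₀ hNpos.le hNS' 2
      calc 2 * s * (((S J : ℝ) ^ 2 - Q) / (S (J + 1) : ℝ) ^ 2) * N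
          ≤ 2 * s * (((S J : ℝ) ^ 2 - Q) / (N : ℝ) ^ 2) * N := by
            apply mul_le_mul_of_nonneg_right _ hNpos.le
            apply mul_le_mul_of_nonneg_left h4 (by positivity)
        _ = 2 * (s / N) * ((S J : ℝ) ^ 2 - Q) := by field_simp
    have h5 : Err J0 J ≤ Err J0 J / S J * N := by
      rw [div_mul_eq_mul_div, le_div_iff₀ hSpos]
      exact mul_le_mul_of_nonneg_left hSN' hE
    calc (2 * s * (((S J : ℝ) ^ 2 - Q) / (S (J + 1) : ℝ) ^ 2) - Err J0 J / S J) * N
        = 2 * s * (((S J : ℝ) ^ 2 - Q) / (S (J + 1) : ℝ) ^ 2) * N - Err J0 J / S J * N := by ring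
      _ ≤ 2 * (s / N) * ((S J : ℝ) ^ 2 - Q) - Err J0 J := by linarith
  · filter_upwards [h2s, hblk1, hbu] with N hN hJ1 hb
    simp only [Function.comp]
    have hSN := S_blk_le N
    have hNS := lt_S_blk N
    generalize blk N = J at *
    have hS : 1 ≤ S J := le_trans hJ1 (le_S J)
    have hSpos : (0 : ℝ) < S J := by exact_mod_cast hS
    have hSN' : (S J : ℝ) ≤ N := by exact_mod_cast hSN
    have hNS' : (N : ℝ) ≤ S (J + 1) := by exact_mod_cast hNS.le
    have hNpos : (0 : ℝ) < N := lt_of_lt_of_le hSpos hSN'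
    have hSpos' : (0 : ℝ) < S (J + 1) := lt_of_lt_of_le hNpos hNS'
    have hh0 : 0 ≤ s / N := by positivity
    have hh : s / N ≤ 1 / 2 := by rw [div_le_div_iff₀ hNpos (by norm_num)]; linarith
    have hself : ∀ j < J + 1, s / N ≤ 1 / (2 * b j) := by
      intro j hj
      have h1 := hb j (by omega)
      have hbpos : (0 : ℝ) < b j := by exact_mod_cast b_pos j
      rw [div_le_div_iff₀ hNpos (by positivity)]
      rw [one_div_mul_eq_div, le_div_iff₀ (by positivity)] at h1
      linarith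
    have h1 := cnt_S_le hα (J := J + 1) hh0 hh hself
    have h2 : (cnt α N (s / N) : ℝ) ≤ cnt α (S (J + 1)) (s / N) := by exact_mod_cast cnt_mono hNS.le _
    have hE := Err_nonneg J0 (J + 1)
    rw [div_le_iff₀ hNpos]
    refine le_trans h2 (le_trans h1 ?_)
    unfold U
    have h3 : 2 * (s / N) * (S (J + 1) : ℝ) ^ 2 ≤ 2 * s * ((S (J + 1) : ℝ) / S J) ^ 2 * N := by
      have h4 : (S (J + 1) : ℝ) ^ 2 / (N : ℝ) ^ 2 ≤ ((S (J + 1) : ℝ) / S J) ^ 2 := by
        rw [div_pow]
        apply div_le_div_of_nonneg_left (by positivity) (by positivity)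
        exact pow_le_pow_left₀ hSpos.le hSN' 2
      calc 2 * (s / N) * (S (J + 1) : ℝ) ^ 2 = 2 * s * ((S (J + 1) : ℝ) ^ 2 / (N : ℝ) ^ 2) * N := by
            field_simp
        _ ≤ 2 * s * ((S (J + 1) : ℝ) / S J) ^ 2 * N := by
            apply mul_le_mul_of_nonneg_right _ hNpos.le
            apply mul_le_mul_of_nonneg_left h4 (by positivity)
    have h5 : Err J0 (J + 1) ≤ (Err J0 (J + 1) / S (J + 1)) * ((S (J + 1) : ℝ) / S J) * N := by
      have e2 : (Err J0 (J + 1) / S (J + 1)) * ((S (J + 1) : ℝ) / S J) * N = Err J0 (J + 1) * (N / S J) := by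
        field_simp
      rw [e2]
      have h6 : 1 ≤ (N : ℝ) / S J := by rw [le_div_iff₀ hSpos]; linarith
      nlinarith
    calc 2 * (s / N) * (S (J + 1) : ℝ) ^ 2 + Err J0 (J + 1)
        ≤ 2 * s * ((S (J + 1) : ℝ) / S J) ^ 2 * N
          + (Err J0 (J + 1) / S (J + 1)) * ((S (J + 1) : ℝ) / S J) * N := by linarith
      _ = _ := by ring

lemma pc_fract [Mult] (β : ℝ) (N : ℕ) (h : ℝ) :
    pc (fun n => Int.fract ((a (n + 1) : ℝ) * β)) N h = pc (fun n => a0 n * β) N h := by
  unfold pc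
  congr 1
  apply Finset.filter_congr
  intro p _
  rw [distInt_fract_sub]
  simp only [a_succ, Int.cast_natCast]

lemma hasPPC_iff [Mult] (β : ℝ) : HasPPC (fun n => Int.fract ((a n : ℝ) * β)) ↔
    ∀ s : ℝ, 0 < s → Tendsto (fun N : ℕ => (pc (fun n => a0 n * β) N (s / N) : ℝ) / N)
      atTop (𝓝 (2 * s)) := by
  unfold HasPPC
  simp only [card_shift (fun n => Int.fract ((a n : ℝ) * β)), pc_fract]

lemma cnt_eq_pc [Mult] (α : ℝ) (N : ℕ) (h : ℝ) : pc (fun n => a0 n * α) N h = cnt α N h := by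
  unfold pc cnt ind X
  rw [Finset.card_filter, Finset.sum_product]

theorem ppc_near [Mult] {α : ℝ} (h : ∀ᶠ j in atTop, Near j α) :
    HasPPC (fun n => Int.fract ((a n : ℝ) * α)) := by
  obtain ⟨J0, hJ0⟩ := eventually_atTop.1 h
  rw [hasPPC_iff]
  intro s hs
  simp only [cnt_eq_pc]
  exact ppc_alpha hJ0 s hs

end Pool.Agent.H1.PP
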