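import Pool.Agent.H1.PP.Lim
import Pool.Agent.H1.PP.AE
import Pool.Agent.H1.PP.Choose
import Pool.Agent.H1.PP.DimE
import Pool.Agent.H1.PP.Energy

/-!
# The main theorem
-/

set_option autoImplicit false

namespace Pool.Agent.H1.PP

open Filter Topology MeasureTheory
open Pool.Agent.H53.PPC (HasPPC)

theorem main (C : Set ℝ) (hC : C.Countable) (hirr : ∀ α ∈ C, Irrational α) (ψ : ℕ → ℝ)
    (hψ : Tendsto ψ atTop atTop) :
    ∃ a : ℕ → ℤ, StrictMono a ∧ (∀ n, 1 ≤ n → 0 < a n) ∧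
      (∀ᵐ β : ℝ ∂volume, ¬ HasPPC (fun n => Int.fract ((a n : ℝ) * β))) ∧
      (∀ α ∈ C, HasPPC (fun n => Int.fract ((a n : ℝ) * α))) ∧
      (∀ x y : ℝ, x < y →
        dimH {α : ℝ | α ∈ Set.Ioo x y ∧ HasPPC (fun n => Int.fract ((a n : ℝ) * α))} = 1) ∧
      ∀ᶠ N : ℕ in atTop, (N : ℝ) ^ 3 / ψ N ≤ energy a N := by
  obtain ⟨s, hs⟩ := exists_slow ψ hψ 262144
  letI : Slow := s
  have hC' : (insert (Real.sqrt 2) C).Countable := hC.insert _
  obtain ⟨c, hc⟩ := hC'.exists_eq_range (Set.insert_nonempty _ _)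
  have hcirr : ∀ n, Irrational (c n) := by
    intro n
    have h1 : c n ∈ insert (Real.sqrt 2) C := by rw [hc]; exact ⟨n, rfl⟩
    rcases h1 with h1 | h1
    · rw [h1]; exact irrational_sqrt_two
    · exact hirr _ h1
  obtain ⟨M, hM1, hM2⟩ := exists_mult c hcirr KK
  letI : Mult := M
  refine ⟨a, a_strictMono, ?_, ae_not_ppc, ?_, ?_, energy_ge hψ hs⟩
  · intro n hn
    have h : a 0 < a n := a_strictMono (by omega)
    have h0 : a 0 = 0 := rfl
    rw [h0] at h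
    exact h
  · intro α hα
    have h1 : α ∈ insert (Real.sqrt 2) C := Set.mem_insert_of_mem _ hα
    rw [hc] at h1
    obtain ⟨n, rfl⟩ := h1
    exact ppc_near (hM2 n)
  · intro x y hxy
    have h1 := dim_near hM1 hxy
    have h2 : dimH {α : ℝ | α ∈ Set.Ioo x y ∧ ∀ᶠ j in atTop, Near j α} ≤
        dimH {α : ℝ | α ∈ Set.Ioo x y ∧ HasPPC (fun n => Int.fract ((a n : ℝ) * α))} :=
      dimH_mono fun α hα => ⟨hα.1, ppc_near hα.2⟩
    refine le_antisymm ?_ (h1 ▸ h2)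
    exact (dimH_mono (Set.subset_univ _)).trans (le_of_eq Real.dimH_univ)

end Pool.Agent.H1.PP
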