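import Pool.Agent.H1.PP.Grow
import Pool.Agent.H53.PPC.Cross

/-!
# The sequence

`m j` is any positive multiple of `Mj j` (class `Mult`), `d (j+1) = d j * m j`, block `j` of the sequence is `d j, 2 d j, ..., b j d j`.
`Near j α`: `d j α` is within `eta j` of `c / b j` for some `c` coprime to `b j`, so that block `j` times `α` is almost equally spaced.
-/

set_option autoImplicit false

namespace Pool.Agent.H1.PP

open Filter Topology Finset
open Pool.Agent.H53.PPC (distInt HasPPC)

variable [Slow]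

/-- required divisor of the multiplier -/
def Mj (j : ℕ) : ℕ := 2 ^ j * 12 * (S (j + 1) + 1) ^ 4 * (S (j + 1)).factorial

/-- the multipliers -/
class Mult where
  /-- the multipliers -/
  m : ℕ → ℕ
  dvd_m : ∀ j, Mj j ∣ m j
  m_pos : ∀ j, 0 < m j

export Mult (m dvd_m m_pos)

/-- error at block `j` -/
noncomputable def eps (j : ℕ) : ℝ := (1 / 2) ^ j / (2 * b j * (S (j + 1) + 1))

/-- admissible error of the rotation number -/
noncomputable def eta (j : ℕ) : ℝ := eps j / b j

lemma eps_pos (j : ℕ) : 0 < eps j := by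
  have : (0 : ℝ) < b j := by exact_mod_cast b_pos j
  unfold eps; positivity

lemma eta_pos (j : ℕ) : 0 < eta j := by
  have : (0 : ℝ) < b j := by exact_mod_cast b_pos j
  exact div_pos (eps_pos j) this

lemma eps_bound (j : ℕ) : 2 * eps j * b j * (S (j + 1) + 1) ≤ (1 / 2) ^ j := by
  unfold eps
  have hb : (0 : ℝ) < b j := by exact_mod_cast b_pos j
  have hS0 : (0 : ℝ) ≤ S (j + 1) := by positivity
  refine le_of_eq ?_
  field_simp

lemma b_le_S (j : ℕ) : b j ≤ S (j + 1) := by rw [S_succ]; omega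

lemma S_succ_pos (j : ℕ) : 0 < S (j + 1) := by rw [S_succ]; have := b_pos j; omega

variable [Mult]

/-- common differences -/
def d : ℕ → ℕ
  | 0 => 1
  | (j + 1) => d j * m j

lemma d_succ (j : ℕ) : d (j + 1) = d j * m j := rfl

lemma d_pos (j : ℕ) : 0 < d j := by
  induction j with
  | zero => simp [d]
  | succ j ih => rw [d_succ]; exact Nat.mul_pos ih (m_pos j)

lemma m_ge (j : ℕ) : 2 ^ j * 12 * (S (j + 1) + 1) ^ 4 ≤ m j := by
  refine le_trans ?_ (Nat.le_of_dvd (m_pos j) (dvd_m j))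
  unfold Mj
  exact Nat.le_mul_of_pos_right _ (Nat.factorial_pos _)

lemma dvd_m_of_le {q j : ℕ} (hq : 1 ≤ q) (h : q ≤ S (j + 1)) : q ∣ m j :=
  dvd_trans (Dvd.dvd.mul_left (Nat.dvd_factorial hq h) _) (dvd_m j)

lemma two_le_m (j : ℕ) : 2 ≤ m j := by
  refine le_trans ?_ (m_ge j)
  have h1 : 1 ≤ 2 ^ j := Nat.one_le_two_pow
  have h2 : 1 ≤ (S (j + 1) + 1) ^ 4 := Nat.one_le_pow _ _ (by omega)
  nlinarith

lemma b_lt_m (j : ℕ) : b j < m j := by
  refine lt_of_lt_of_le ?_ (m_ge j)
  have h1 : 1 ≤ 2 ^ j := Nat.one_le_two_pow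
  have h2 : S (j + 1) + 1 ≤ (S (j + 1) + 1) ^ 4 := Nat.le_self_pow (by norm_num) _
  have h3 := b_le_S j
  nlinarith

lemma b_dvd_m (j : ℕ) : b j ∣ m j := dvd_m_of_le (b_pos j) (b_le_S j)

lemma two_pow_le_d (j : ℕ) : 2 ^ j ≤ d j := by
  induction j with
  | zero => simp [d]
  | succ j ih =>
    rw [d_succ, pow_succ]
    exact Nat.mul_le_mul ih (two_le_m j)

omit [Mult] in
/-- block index of `n` -/
def blk (n : ℕ) : ℕ := Nat.findGreatest (fun j => S j ≤ n) n

omit [Mult] in
lemma S_blk_le (n : ℕ) : S (blk n) ≤ n := by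
  unfold blk
  exact Nat.findGreatest_spec (P := fun j => S j ≤ n) (Nat.zero_le n) (by simp [S])

omit [Mult] in
lemma lt_S_blk (n : ℕ) : n < S (blk n + 1) := by
  by_contra hcon
  push Not at hcon
  have h1 : blk n + 1 ≤ n := le_trans (le_S _) hcon
  have h2 := Nat.le_findGreatest (P := fun j => S j ≤ n) h1 hcon
  unfold blk at h2
  omega

omit [Mult] in
lemma blk_eq {n j : ℕ} (h1 : S j ≤ n) (h2 : n < S (j + 1)) : blk n = j := by
  have h3 := S_blk_le n
  have h4 := lt_S_blk n
  have h5 : j < blk n + 1 := S_strictMono.lt_iff_lt.mp (lt_of_le_of_lt h1 h4)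
  have h6 : blk n < j + 1 := S_strictMono.lt_iff_lt.mp (lt_of_le_of_lt h3 h2)
  omega

omit [Mult] in
lemma blk_add {j u : ℕ} (hu : u < b j) : blk (S j + u) = j :=
  blk_eq (Nat.le_add_right _ _) (by rw [S_succ]; omega)

omit [Mult] in
lemma blk_tendsto : Tendsto blk atTop atTop := by
  rw [tendsto_atTop]
  intro j
  filter_upwards [eventually_ge_atTop (S j)] with n hn
  by_contra hcon
  push Not at hcon
  have h1 := lt_S_blk n
  have h2 : S (blk n + 1) ≤ S j := S_mono hcon
  omega

/-- the sequence (indexed from zero) -/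
def a0 (n : ℕ) : ℕ := (n - S (blk n) + 1) * d (blk n)

lemma a0_add {j u : ℕ} (hu : u < b j) : a0 (S j + u) = (u + 1) * d j := by
  unfold a0
  rw [blk_add hu]
  congr 1
  omega

lemma a0_strictMono : StrictMono a0 := by
  apply strictMono_nat_of_lt_succ
  intro n
  have h1 := S_blk_le n
  have h2 := lt_S_blk n
  generalize blk n = j at h1 h2
  obtain ⟨u, rfl⟩ := Nat.exists_eq_add_of_le h1
  have hu : u < b j := by rw [S_succ] at h2; omega
  rw [a0_add hu]
  have hd := d_pos j
  rcases Nat.lt_or_ge (u + 1) (b j) with h | h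
  · rw [add_assoc, a0_add h]
    nlinarith
  · have hu' : u + 1 = b j := by omega
    have e : S j + u + 1 = S (j + 1) + 0 := by rw [S_succ]; omega
    rw [e, a0_add (b_pos _), d_succ, hu', zero_add, one_mul, mul_comm (d j)]
    exact Nat.mul_lt_mul_of_pos_right (b_lt_m j) hd

lemma a0_pos (n : ℕ) : 0 < a0 n := by
  unfold a0
  have := d_pos (blk n)
  positivity

/-- the sequence, indexed from one -/
def a : ℕ → ℤ
  | 0 => 0
  | (n + 1) => a0 n

lemma a_succ (n : ℕ) : a (n + 1) = a0 n := rfl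

lemma a_strictMono : StrictMono a := by
  apply strictMono_nat_of_lt_succ
  intro n
  cases n with
  | zero => simp only [a]; exact_mod_cast a0_pos 0
  | succ n => simp only [a]; exact_mod_cast a0_strictMono (Nat.lt_succ_self n)

/-- block `j` is almost equally spaced at `α` -/
def Near (j : ℕ) (α : ℝ) : Prop :=
  ∃ c : ℤ, IsCoprime c (b j : ℤ) ∧ distInt (d j * α - c / b j) ≤ eta j

end Pool.Agent.H1.PP
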